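import Pool.Agent.P.MP_1f07eb_co.N.St

set_option autoImplicit false

namespace Pool.Agent.P.MP_1f07eb_co.N

open Finset Matrix

noncomputable section

namespace ArmP

variable {ι α : Type} [Fintype ι] [DecidableEq ι] [DecidableEq α]

omit [Fintype ι] in
theorem exists_tp (G : Finset (ι → α)) (S : Finset ι) (a : (ι → α) → ι → ℝ) :
    ∃ tp : ι → (ι → α) → ι → α, ∀ j, ∀ T ∈ G, tp j T ∈ G ∧ (∀ i ∈ S, i ≠ j → tp j T i = T i) ∧
      ∀ T' ∈ G, (∀ i ∈ S, i ≠ j → T' i = T i) → a T' j ≤ a (tp j T) j := by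
  classical
  have H : ∀ (j : ι) (T : ι → α), ∃ U : ι → α, T ∈ G → (U ∈ G ∧ (∀ i ∈ S, i ≠ j → U i = T i) ∧
      ∀ T' ∈ G, (∀ i ∈ S, i ≠ j → T' i = T i) → a T' j ≤ a U j) := by
    intro j T
    by_cases hT : T ∈ G
    · obtain ⟨U, hU, hmax⟩ := Finset.exists_max_image
        (G.filter fun T' => ∀ i ∈ S, i ≠ j → T' i = T i) (fun T' => a T' j)
        ⟨T, Finset.mem_filter.2 ⟨hT, fun _ _ _ => rfl⟩⟩
      obtain ⟨h1, h2⟩ := Finset.mem_filter.1 hU
      exact ⟨U, fun _ => ⟨h1, h2, fun T' hT' h => hmax T' (Finset.mem_filter.2 ⟨hT', h⟩)⟩⟩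
    · exact ⟨T, fun h => absurd h hT⟩
  choose tp htp using H
  exact ⟨tp, fun j T hT => htp j T hT⟩

omit [Fintype ι] [DecidableEq ι] [DecidableEq α] in
theorem exists_js (S : Finset ι) (hS : S.Nonempty) (s : ι → (ι → α) → ℝ) :
    ∃ js : (ι → α) → ι, ∀ T, js T ∈ S ∧ ∀ j ∈ S, s j T ≤ s (js T) T := by
  have H : ∀ T : ι → α, ∃ j0 : ι, j0 ∈ S ∧ ∀ j ∈ S, s j T ≤ s j0 T := fun T =>
    Finset.exists_max_image S (fun j => s j T) hS
  choose js hjs using H
  exact ⟨js, hjs⟩

/-- the tuples that are at the top of one of their stars are few -/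
theorem card_top (G : Finset (ι → α)) (S : Finset ι) (P : ι → (ι → α) → Prop)
    [∀ j T, Decidable (P j T)]
    (hP : ∀ j ∈ S, ∀ T ∈ G, ∀ T' ∈ G, P j T → P j T' → (∀ i, i ≠ j → T i = T' i) → T = T') :
    (G.filter fun T => ∃ j ∈ S, P j T).card ≤ sh G := by
  have hsub : (G.filter fun T => ∃ j ∈ S, P j T) ⊆ S.biUnion fun j => G.filter (P j) := by
    intro T hT
    obtain ⟨h1, j, hj, h2⟩ := Finset.mem_filter.1 hT
    exact Finset.mem_biUnion.2 ⟨j, hj, Finset.mem_filter.2 ⟨h1, h2⟩⟩
  refine (Finset.card_le_card hsub).trans (Finset.card_biUnion_le.trans ?_)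
  unfold sh
  refine le_trans (Finset.sum_le_sum (g := fun l => (G.image (ridge l)).card) fun j hj => ?_)
    (Finset.sum_le_sum_of_subset (Finset.subset_univ S))
  refine Finset.card_le_card_of_injOn (ridge j) (fun T hT => ?_) (fun T hT T' hT' h => ?_)
  · have := (Finset.mem_filter.1 (Finset.mem_coe.1 hT)).1
    exact Finset.mem_coe.2 (Finset.mem_image_of_mem _ this)
  · obtain ⟨h1, h2⟩ := Finset.mem_filter.1 (Finset.mem_coe.1 hT)
    obtain ⟨h3, h4⟩ := Finset.mem_filter.1 (Finset.mem_coe.1 hT')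
    exact hP j hj T h1 T' h3 h2 h4 ((ridge_eq_iff j T T').1 h)

/-- two subsets of one set, all three of the same dyadic size, meet -/
theorem meet {β : Type} [DecidableEq β] (A B C : Finset β) (hA : A.Nonempty) (hB : B.Nonempty)
    (hAC : A ⊆ C) (hBC : B ⊆ C) (h1 : Nat.log 2 A.card = Nat.log 2 C.card)
    (h2 : Nat.log 2 B.card = Nat.log 2 C.card) : ∃ p, p ∈ A ∧ p ∈ B := by
  by_contra hn
  have hd : Disjoint A B := Finset.disjoint_left.2 fun p hp hq => hn ⟨p, hp, hq⟩
  have h3 : A.card + B.card ≤ C.card := by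
    rw [← Finset.card_union_of_disjoint hd]
    exact Finset.card_le_card (Finset.union_subset hAC hBC)
  have h4 := Nat.pow_log_le_self 2 hA.card_pos.ne'
  have h5 := Nat.pow_log_le_self 2 hB.card_pos.ne'
  have h6 := Nat.lt_pow_succ_log_self (b := 2) (by norm_num) C.card
  rw [h1] at h4
  rw [h2] at h5
  rw [pow_succ] at h6
  omega

omit [Fintype ι] [DecidableEq α] in
/-- all coordinates differ by at most the difference in the coordinate j -/
theorem coord_le (x y : ι → ℝ) (j : ι) (t : ℝ) (ht : 0 ≤ t) (hj : y j - x j = t)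
    (H : ∀ l, l ≠ j → 30 * |y l - x l| ≤ |y j - x j|) (l : ι) : |y l - x l| ≤ t := by
  have h0 : |y j - x j| = t := by rw [hj, abs_of_nonneg ht]
  by_cases hl : l = j
  · rw [hl, h0]
  · have := H l hl
    have h1 := abs_nonneg (y l - x l)
    rw [h0] at this
    linarith

end ArmP

open ArmP in
theorem arm : S_Arm := by
  intro ι α _ _ _ G S a N lam hlam hN hS ha hst hD
  classical
  obtain ⟨tp, htp⟩ := exists_tp G S a
  set s : ι → (ι → α) → ℝ := fun j T => a (tp j T) j - a T j with hs
  obtain ⟨js, hjs⟩ := exists_js S hS s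
  set M : (ι → α) → ℝ := fun T => s (js T) T with hM
  have hsle : ∀ j, ∀ T ∈ G, ∀ T' ∈ G, (∀ i ∈ S, i ≠ j → T' i = T i) → a T' j - a T j ≤ s j T := by
    intro j T hT T' hT' h
    have := (htp j T hT).2.2 T' hT' h
    simp only [hs]
    linarith
  have hs0 : ∀ j, ∀ T ∈ G, 0 ≤ s j T := by
    intro j T hT
    have := hsle j T hT T hT fun _ _ _ => rfl
    linarith
  have hsM : ∀ j ∈ S, ∀ T, s j T ≤ M T := fun j hj T => (hjs T).2 j hj
  -- step 1
  set D := G.filter fun T => ∃ j ∈ S, s j T = 0 with hDdef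
  have hDc : D.card ≤ sh G := by
    refine card_top G S (fun j T => s j T = 0) fun j hj T hT T' hT' h1 h2 h3 => ?_
    have h4 := hsle j T hT T' hT' fun i _ hi => (h3 i hi).symm
    have h5 := hsle j T' hT' T hT fun i _ hi => h3 i hi
    have h6 : a T j = a T' j := by linarith
    have h7 := (hst T hT T' hT' j hj fun i _ hi => h3 i hi).2 h6
    funext i
    by_cases hi : i = j
    · rw [hi, h7]
    · exact h3 i hi
  have hLg := two_le_Lg N
  have hd0 : (0 : ℝ) ≤ Fintype.card ι := Nat.cast_nonneg _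
  have hD0 : Dense (lam * (4 * Fintype.card ι * Lg N)) (G \ D) :=
    Dense.sdiff (by positivity) hDc hD
  have hpos : ∀ T ∈ G \ D, ∀ j ∈ S, 0 < s j T := by
    intro T hT j hj
    obtain ⟨h1, h2⟩ := Finset.mem_sdiff.1 hT
    refine lt_of_le_of_ne (hs0 j T h1) fun h => h2 ?_
    exact Finset.mem_filter.2 ⟨h1, j, hj, h.symm⟩
  -- step 2
  set ball : (ι → α) → Finset (ι → ℝ) :=
    fun T => (G.image a).filter fun p => ∀ l, |p l - a T l| ≤ 3 * M T with hball
  have hbne : ∀ T ∈ G, (ball T).Nonempty := by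
    intro T hT
    refine ⟨a T, Finset.mem_filter.2 ⟨Finset.mem_image_of_mem _ hT, fun l => ?_⟩⟩
    have := hs0 (js T) T hT
    simp only [sub_self, abs_zero, hM]
    linarith
  obtain ⟨lev, -, hK⟩ := Dense.pigeon (lam := lam * (2 * Fintype.card ι)) (n := 2 * Lg N)
    (G := G \ D) (by positivity) (fun T => Nat.log 2 (ball T).card)
    (Finset.range (Nat.log 2 N + 1))
    (fun T _ => Finset.mem_range.2 (Nat.lt_succ_of_le (Nat.log_mono_right
      ((Finset.card_filter_le _ _).trans (Finset.card_image_le.trans hN)))))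
    (by
      rw [Finset.card_range]
      unfold Lg
      push_cast
      have : (0 : ℝ) ≤ (Nat.log 2 N : ℝ) := Nat.cast_nonneg _
      linarith)
    (hD0.mono (le_of_eq (by ring)))
  set K := (G \ D).filter fun T => Nat.log 2 (ball T).card = lev with hKdef
  have hK0 : ∀ T ∈ K, T ∈ G \ D := fun T hT => (Finset.mem_filter.1 hT).1
  have hKG : ∀ T ∈ K, T ∈ G := fun T hT => (Finset.mem_sdiff.1 (hK0 T hT)).1
  have htwo : ∀ T ∈ K, ∀ T1 ∈ K, ∀ T2 ∈ K, ∀ r1 r2 : ℝ,
      (∀ l, |a T1 l - a T l| ≤ r1) → (∀ l, |a T2 l - a T l| ≤ r2) →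
      r1 + 3 * M T1 ≤ 3 * M T → r2 + 3 * M T2 ≤ 3 * M T →
      ∀ l, |a T1 l - a T2 l| ≤ 3 * M T1 + 3 * M T2 := by
    intro T hT T1 hT1 T2 hT2 r1 r2 h1 h2 h3 h4 l
    have hsub : ∀ (U : ι → α) (r : ℝ), (∀ l, |a U l - a T l| ≤ r) → r + 3 * M U ≤ 3 * M T →
        ball U ⊆ ball T := by
      intro U r hU hr p hp
      obtain ⟨hp1, hp2⟩ := Finset.mem_filter.1 hp
      refine Finset.mem_filter.2 ⟨hp1, fun l => ?_⟩
      have e1 := abs_sub_le (p l) (a U l) (a T l)
      have e2 := hp2 l
      have e3 := hU l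
      linarith
    obtain ⟨p, hp1, hp2⟩ := meet (ball T1) (ball T2) (ball T) (hbne T1 (hKG T1 hT1))
      (hbne T2 (hKG T2 hT2)) (hsub T1 r1 h1 h3) (hsub T2 r2 h2 h4)
      (((Finset.mem_filter.1 hT1).2).trans ((Finset.mem_filter.1 hT).2).symm)
      (((Finset.mem_filter.1 hT2).2).trans ((Finset.mem_filter.1 hT).2).symm)
    have e1 := (Finset.mem_filter.1 hp1).2 l
    have e2 := (Finset.mem_filter.1 hp2).2 l
    have e3 := abs_sub_le (a T1 l) (p l) (a T2 l)
    rw [abs_sub_comm (a T1 l) (p l)] at e3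
    linarith
  -- step 3
  set Dom : (ι → α) → ι → Prop := fun T j => j ∈ S ∧ ∃ T1 ∈ K,
    (∀ i ∈ S, i ≠ j → T1 i = T i) ∧ 30 * M T1 ≤ a T1 j - a T j with hDom
  set κ : (ι → α) → Bool × ι := fun T =>
    if h : ∃ j, Dom T j then (true, h.choose) else (false, js T) with hκ
  have hκt : ∀ T c, κ T = (true, c) → Dom T c := by
    intro T c h
    by_cases h1 : ∃ j, Dom T j
    · simp only [hκ, dif_pos h1, Prod.mk.injEq, true_and] at h
      rw [← h]
      exact h1.choose_spec
    · simp [hκ, dif_neg h1] at h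
  have hκf : ∀ T c, κ T = (false, c) → js T = c ∧ ∀ j, ¬ Dom T j := by
    intro T c h
    by_cases h1 : ∃ j, Dom T j
    · simp [hκ, dif_pos h1] at h
    · simp only [hκ, dif_neg h1, Prod.mk.injEq, true_and] at h
      exact ⟨h, fun j hj => h1 ⟨j, hj⟩⟩
  obtain ⟨⟨b, c⟩, hbc, hG'⟩ := Dense.pigeon (lam := lam) (n := 2 * Fintype.card ι) (G := K)
    hlam κ ((Finset.univ : Finset Bool) ×ˢ S)
    (fun T _ => by
      refine Finset.mem_product.2 ⟨Finset.mem_univ _, ?_⟩
      rcases hb : κ T with ⟨b, c⟩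
      cases b
      · rw [← (hκf T c hb).1]
        exact (hjs T).1
      · exact (hκt T c hb).1)
    (by
      rw [Finset.card_product, Finset.card_univ, Fintype.card_bool]
      push_cast
      have : (S.card : ℝ) ≤ Fintype.card ι := by exact_mod_cast Finset.card_le_univ S
      linarith) hK
  have hc : c ∈ S := (Finset.mem_product.1 hbc).2
  set G' := K.filter fun T => κ T = (b, c) with hG'def
  have hG'K : ∀ T ∈ G', T ∈ K := fun T hT => (Finset.mem_filter.1 hT).1
  have hG'κ : ∀ T ∈ G', κ T = (b, c) := fun T hT => (Finset.mem_filter.1 hT).2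
  have hMpos : ∀ T ∈ K, 0 < M T := fun T hT => hpos T (hK0 T hT) _ (hjs T).1
  -- step 4, ordered pairs
  have hord : ∀ T ∈ G', ∀ T' ∈ G', ∀ l ∈ S, l ≠ c → (∀ i, i ≠ l → T i = T' i) →
      0 < a T' l - a T l → a T' l - a T l < 30 * s c T ∧ a T' l - a T l < 30 * s c T' := by
    intro T hT T' hT' l hl hlc hag ht
    have hTK := hG'K T hT
    have hT'K := hG'K T' hT'
    have hTG := hKG T hTK
    have hT'G := hKG T' hT'K
    set t := a T' l - a T l with htdef
    have htM : t ≤ M T :=
      (hsle l T hTG T' hT'G fun i _ hi => (hag i hi).symm).trans (hsM l hl T)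
    cases b
    · obtain ⟨e1, e2⟩ := hκf T c (hG'κ T hT)
      obtain ⟨e3, -⟩ := hκf T' c (hG'κ T' hT')
      have e4 : M T = s c T := by simp only [hM, e1]
      have e5 : M T' = s c T' := by simp only [hM, e3]
      have e6 : t < 30 * M T' := by
        by_contra hn
        exact e2 l ⟨hl, T', hT'K, fun i _ hi => (hag i hi).symm, not_lt.1 hn⟩
      constructor <;> linarith
    · obtain ⟨-, T1, hT1, hag1, hd1⟩ := hκt T c (hG'κ T hT)
      obtain ⟨-, T2, hT2, hag2, hd2⟩ := hκt T' c (hG'κ T' hT')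
      set t1 := a T1 c - a T c with ht1
      set t2 := a T2 c - a T' c with ht2
      have hM1 := hMpos T1 hT1
      have hM2 := hMpos T2 hT2
      have hs1 : t1 ≤ s c T := hsle c T hTG T1 (hKG T1 hT1) hag1
      have hs2 : t2 ≤ s c T' := hsle c T' hT'G T2 (hKG T2 hT2) hag2
      have hm1 := hsM c hc T
      have hm2 := hsM c hc T'
      have g0 := (hst T hTG T' hT'G l hl fun i _ hi => hag i hi).1
      have g1 := (hst T hTG T1 (hKG T1 hT1) c hc fun i hi hic => (hag1 i hi hic).symm).1
      have g2 := (hst T' hT'G T2 (hKG T2 hT2) c hc fun i hi hic => (hag2 i hi hic).symm).1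
      have c0 := coord_le (a T) (a T') l t ht.le rfl g0
      have c1 := coord_le (a T) (a T1) c t1 (by linarith) rfl g1
      have c2 := coord_le (a T') (a T2) c t2 (by linarith) rfl g2
      have c3 : ∀ i, |a T2 i - a T i| ≤ t2 + t := fun i =>
        (abs_sub_le (a T2 i) (a T' i) (a T i)).trans (add_le_add (c2 i) (c0 i))
      have c4 : ∀ i, |a T1 i - a T' i| ≤ t1 + t := fun i =>
        (abs_sub_le (a T1 i) (a T i) (a T' i)).trans
          (add_le_add (c1 i) (by rw [abs_sub_comm]; exact c0 i))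
      have hfin : (∀ i, |a T1 i - a T2 i| ≤ 3 * M T1 + 3 * M T2) →
          t < 30 * t1 ∧ t < 30 * t2 := by
        intro hm
        have f0 := g0 c (Ne.symm hlc)
        have f1 := g1 l hlc
        have f2 := g2 l hlc
        rw [← htdef, abs_of_pos ht] at f0
        rw [← ht1, abs_of_pos (by linarith : 0 < t1)] at f1
        rw [← ht2, abs_of_pos (by linarith : 0 < t2)] at f2
        have f3 := abs_le.1 (hm l)
        have f4 := abs_le.1 (hm c)
        have f5 := le_abs_self (a T' c - a T c)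
        have f6 := neg_abs_le (a T' c - a T c)
        have f7 := le_abs_self (a T1 l - a T l)
        have f8 := neg_abs_le (a T2 l - a T' l)
        obtain ⟨f31, f32⟩ := f3
        obtain ⟨f41, f42⟩ := f4
        constructor
        · by_contra hn
          have := not_lt.1 hn
          linarith
        · by_contra hn
          have := not_lt.1 hn
          linarith
      constructor
      · by_contra hn
        have hn' := not_lt.1 hn
        by_cases hbig : t2 ≤ 3 / 2 * M T
        · have := (hfin (htwo T hTK T1 hT1 T2 hT2 t1 (t2 + t) c1 c3 (by linarith)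
            (by linarith))).1
          linarith
        · have hbig' := not_le.1 hbig
          have := (hfin (htwo T' hT'K T1 hT1 T2 hT2 (t1 + t) t2 c4 c2 (by linarith)
            (by linarith))).1
          linarith
      · by_contra hn
        have hn' := not_lt.1 hn
        have := (hfin (htwo T hTK T1 hT1 T2 hT2 t1 (t2 + t) c1 c3 (by linarith)
          (by linarith))).2
        linarith
  refine ⟨c, hc, G', fun T hT => hKG T (hG'K T hT), tp c, hG', fun T hT => ?_, ?_⟩
  · have := htp c T (hKG T (hG'K T hT))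
    exact ⟨this.1, this.2.1⟩
  · intro T hT T' hT' l hag
    have hTK := hG'K T hT
    have hT'K := hG'K T' hT'
    have hTG := hKG T hTK
    have hT'G := hKG T' hT'K
    have hp := hpos T (hK0 T hTK) c hc
    have hp' := hpos T' (hK0 T' hT'K) c hc
    have hgoal : a T c - a T' c < s c T' → a T c < a (tp c T') c := by
      intro h
      simp only [hs] at h
      linarith
    apply hgoal
    by_cases hl : l ∈ S
    · by_cases hlc : l = c
      · have h1 := htp c T hTG
        have h2 := hsle c T' hT'G (tp c T) h1.1 fun i hi hic =>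
          (h1.2.1 i hi hic).trans (hag i (by rw [hlc]; exact hic))
        simp only [hs] at hp h2 ⊢
        linarith
      · have g0 := hst T hTG T' hT'G l hl fun i _ hi => hag i hi
        have f0 := g0.1 c (Ne.symm hlc)
        have f6 := neg_abs_le (a T' c - a T c)
        rcases lt_trichotomy (a T' l - a T l) 0 with hlt | heq | hgt
        · have := (hord T' hT' T hT l hl hlc (fun i hi => (hag i hi).symm) (by linarith)).1
          rw [abs_of_neg hlt] at f0
          linarith
        · rw [heq, abs_zero] at f0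
          linarith
        · have := (hord T hT T' hT' l hl hlc hag hgt).2
          rw [abs_of_pos hgt] at f0
          linarith
    · have := ha T hTG T' hT'G fun i hi => hag i fun h => hl (h ▸ hi)
      rw [this]
      linarith

end

end Pool.Agent.P.MP_1f07eb_co.N
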