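import Pool.Agent.P.MP_1f07eb_co.N.St

set_option autoImplicit false

namespace Pool.Agent.P.MP_1f07eb_co.N

open Finset Matrix

namespace BoxP

variable {ι α Q : Type} [Fintype ι] [DecidableEq ι]

theorem expand [Fintype Q] (z : ι → Q → ℝ) (q : ι → Q → ι → ℝ) :
    (Matrix.of fun i => ∑ a, z i a • q i a).det =
      ∑ g : ι → Q, (∏ i, z i (g i)) * (Matrix.of fun i => q i (g i)).det := by
  have h := (Matrix.detRowAlternating (n := ι) (R := ℝ)).toMultilinearMap.map_sum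
    fun i a => z i a • q i a
  refine h.trans (sum_congr rfl fun g _ => ?_)
  exact (Matrix.detRowAlternating (n := ι) (R := ℝ)).toMultilinearMap.map_smul_univ
    (fun i => z i (g i)) fun i => q i (g i)

theorem iter [DecidableEq α] [DecidableEq Q] (h : S_Thresh) (G : Finset (ι → α))
    (y : Q → ι → α → ℝ) (D : Q → ℝ) (D1 : ℝ) (N : ℕ) (hN : G.card ≤ N) (hD : ∀ g, 0 ≤ D g)
    (hy : ∀ g, ∀ T ∈ G, ∀ i, 0 ≤ y g i (T i)) (hP : ∀ g, ∀ T ∈ G, D g * ∏ i, y g i (T i) ≤ D1)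
    (F : Finset Q) : ∀ lam : ℝ, 0 ≤ lam → Dense (lam * (Lg N ^ Fintype.card ι) ^ F.card) G →
      ∃ G' ⊆ G, ∃ Y : Q → ι → ℝ, Dense lam G' ∧ ∀ g ∈ F,
        (∀ T ∈ G', ∀ i, y g i (T i) ≤ Y g i) ∧ D g * ∏ i, Y g i ≤ D1 := by
  induction F using Finset.induction_on with
  | empty => exact fun lam _ H => ⟨G, Subset.rfl, 0, by simpa using H, by simp⟩
  | insert g F hg ih =>
    intro lam hl H
    have hL : 0 ≤ Lg N := by linarith [two_le_Lg N]
    rw [card_insert_of_notMem hg, pow_succ', ← mul_assoc] at H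
    obtain ⟨G1, s1, Y, d1, p1⟩ := ih _ (by positivity) H
    obtain ⟨G2, s2, Y0, d2, p2, p3⟩ := h ι α G1 (y g) (D g) D1 N lam hl
      ((card_le_card s1).trans hN) (hD g) (fun T hT => hy g T (s1 hT)) (fun T hT => hP g T (s1 hT)) d1
    refine ⟨G2, s2.trans s1, Function.update Y g Y0, d2, fun g' hg' => ?_⟩
    by_cases e : g' = g
    · subst e
      rw [Function.update_self]
      exact ⟨p2, p3⟩
    · rw [Function.update_of_ne e]
      obtain ⟨p4, p5⟩ := p1 g' ((mem_insert.1 hg').resolve_left e)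
      exact ⟨fun T hT => p4 T (s2 hT), p5⟩

end BoxP

open BoxP

theorem box (h : S_Thresh) : S_Box := by
  intro ι α Q _ _ _ _ G X q y σ n N lam hl hN hQ hσ hD hy hdet H
  classical
  set d := Fintype.card ι with hd
  set Dg : (ι → Q) → ℝ := fun g => σ * (Matrix.of fun i => q i (g i)).det with hDg
  have hL : 1 ≤ Lg N := by linarith [two_le_Lg N]
  have hc : Fintype.card (ι → Q) ≤ n ^ d := by
    rw [Fintype.card_fun]
    exact Nat.pow_le_pow_left hQ _
  have ex : ∀ z : ι → Q → ℝ, σ * (Matrix.of fun i => ∑ a, z i a • q i a).det =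
      ∑ g : ι → Q, Dg g * ∏ i, z i (g i) := fun z => by
    rw [expand, mul_sum]
    exact sum_congr rfl fun g _ => by simp only [hDg]; ring
  have ab : ∀ x : ℝ, |σ * x| = |x| := fun x => by rcases hσ with e | e <;> simp [e]
  have ex1 : ∀ T ∈ G, σ * (mat X T).det = ∑ g : ι → Q, Dg g * ∏ i, y i (T i) (g i) := fun T hT => by
    rw [← ex]
    congr 2
    ext i l
    exact congrFun (hy T hT i).2 l
  have nn : ∀ T ∈ G, ∀ g : ι → Q, 0 ≤ Dg g * ∏ i, y i (T i) (g i) := fun T hT g =>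
    mul_nonneg (hD g) (prod_nonneg fun i _ => (hy T hT i).1 _)
  have hg : ∀ T : ι → α, T ∈ G → ∃ g : ι → Q, 0 < Dg g * ∏ i, y i (T i) (g i) ∧
      ∀ g' : ι → Q, Dg g' * ∏ i, y i (T i) (g' i) ≤ Dg g * ∏ i, y i (T i) (g i) := fun T hT => by
    have h1 : ∑ g : ι → Q, Dg g * ∏ i, y i (T i) (g i) ≠ 0 := by
      rw [← ex1 T hT, ← abs_ne_zero, ab, abs_ne_zero]
      exact hdet T hT
    obtain ⟨g1, -, h2⟩ := exists_ne_zero_of_sum_ne_zero h1
    obtain ⟨g, -, h3⟩ := exists_max_image univ (fun g : ι → Q => Dg g * ∏ i, y i (T i) (g i))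
      ⟨g1, mem_univ _⟩
    exact ⟨g, ((nn T hT g1).lt_of_ne' h2).trans_le (h3 g1 (mem_univ _)), fun g' => h3 g' (mem_univ _)⟩
  have hl1 : 0 ≤ lam * Lg N ^ (d * n ^ d) := by positivity
  obtain ⟨T1, hT1⟩ := H.nonempty (by positivity)
  have : Nonempty (ι → Q) := ⟨(hg T1 hT1).choose⟩
  choose! gs hgs using hg
  obtain ⟨g0, -, d1⟩ := Dense.pigeon (G := G) hl1 gs univ (fun _ _ => mem_univ _)
    (n := (n : ℝ) ^ d) (by exact_mod_cast hc) (H.mono (le_of_eq (by ring)))
  set G1 := G.filter fun T => gs T = g0 with hG1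
  have sub1 : G1 ⊆ G := filter_subset _ _
  have k1 : ∀ T ∈ G1, 0 < Dg g0 * ∏ i, y i (T i) (g0 i) ∧
      ∀ g : ι → Q, Dg g * ∏ i, y i (T i) (g i) ≤ Dg g0 * ∏ i, y i (T i) (g0 i) := fun T hT => by
    rw [← (mem_filter.1 hT).2]
    exact hgs T (sub1 hT)
  have k2 : ∀ T ∈ G1, ∀ i, 0 < y i (T i) (g0 i) := fun T hT i =>
    ((hy T (sub1 hT) i).1 _).lt_of_ne' fun e => (k1 T hT).1.ne'
      (by rw [prod_eq_zero (mem_univ i) e, mul_zero])
  have k3 : ∀ T ∈ G1, 0 < ∏ i, y i (T i) (g0 i) := fun T hT => prod_pos fun i _ => k2 T hT i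
  have k4 : ∀ T ∈ G1, ∀ i a, 0 ≤ y i (T i) a / y i (T i) (g0 i) := fun T hT i a =>
    div_nonneg ((hy T (sub1 hT) i).1 _) (k2 T hT i).le
  obtain ⟨G', sub2, Y, d2, hY⟩ := iter h G1 (fun (g : ι → Q) i v => y i v (g i) / y i v (g0 i)) Dg
    (Dg g0) N ((card_le_card sub1).trans hN) hD (fun g T hT i => k4 T hT i _)
    (fun g T hT => by
      rw [prod_div_distrib, ← mul_div_assoc, div_le_iff₀ (k3 T hT)]
      exact (k1 T hT).2 g) univ lam hl (d1.mono (by
      rw [← pow_mul]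
      exact mul_le_mul_of_nonneg_left (pow_le_pow_right₀ hL (Nat.mul_le_mul_left _ hc)) hl))
  obtain ⟨T0, hT0⟩ := d2.nonempty hl
  have hD0 : 0 < Dg g0 := (mul_pos_iff_of_pos_right (k3 T0 (sub2 hT0))).1 (k1 T0 (sub2 hT0)).1
  set A0 : Matrix ι ι ℝ := Matrix.of fun i => q i (g0 i) with hA0
  have hA : |A0.det| = Dg g0 := by rw [← ab, abs_of_pos hD0]
  have hA1 : A0.det ≠ 0 := by rw [← abs_ne_zero, hA]; exact hD0.ne'
  have hM : |A0⁻¹.det| = (Dg g0)⁻¹ := by rw [det_nonsing_inv, Ring.inverse_eq_inv', abs_inv, hA]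
  refine ⟨G', sub2.trans sub1, fun i v => (y i v (g0 i))⁻¹, A0⁻¹, d2,
    fun T hT i => inv_pos.2 (k2 T (sub2 hT) i), fun T hT => ?_, fun J T hT => ?_⟩
  · have h1 := k3 T (sub2 hT)
    have h2 := single_le_sum (fun g _ => nn T (sub1 (sub2 hT)) g) (mem_univ g0)
    rw [← ex1 T (sub1 (sub2 hT))] at h2
    have h3 := h2.trans (le_abs_self _)
    rw [ab] at h3
    rw [det_mat_tX, abs_mul, abs_mul, hM, prod_inv_distrib, abs_inv, abs_of_pos h1]
    field_simp
    linarith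
  · set z : ι → Q → ℝ := fun i a =>
      if i ∈ J then y i (T i) a / y i (T i) (g0 i) else if a = g0 i then 1 else 0 with hz
    have e1 : row (tX (fun i v => (y i v (g0 i))⁻¹) A0⁻¹ X) J T =
        (Matrix.of fun i => ∑ a, z i a • q i a) * A0⁻¹ := by
      ext i l
      by_cases hi : i ∈ J
      · obtain ⟨T', hT', e⟩ := mem_verts.1 (hT i hi)
        have e2 : ∑ a, z i a • q i a = (y i (T i) (g0 i))⁻¹ • X i (T i) := by
          have := (hy T' (sub1 (sub2 hT')) i).2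
          rw [e] at this
          rw [this, smul_sum]
          exact sum_congr rfl fun a _ => by simp only [hz, if_pos hi, smul_smul, div_eq_inv_mul]
        change _ = ((∑ a, z i a • q i a) ᵥ* A0⁻¹) l
        rw [e2, smul_vecMul]
        simp only [row, tX, of_apply, if_pos hi]
      · have e2 : ∑ a, z i a • q i a = A0 i := by
          simp only [hz, if_neg hi, ite_smul, one_smul, zero_smul, sum_ite_eq', mem_univ, if_true]
          rfl
        change _ = ((∑ a, z i a • q i a) ᵥ* A0⁻¹) l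
        rw [e2]
        change _ = (A0 * A0⁻¹) i l
        rw [mul_nonsing_inv _ (isUnit_iff_ne_zero.2 hA1)]
        simp only [row, of_apply, if_neg hi, one_apply, Pi.single_apply, eq_comm]
    have z0 : ∀ i a, 0 ≤ z i a := fun i a => by
      simp only [hz]
      split_ifs with h1 h2
      · obtain ⟨T', hT', e⟩ := mem_verts.1 (hT i h1)
        exact e ▸ k4 T' (sub2 hT') i a
      exacts [zero_le_one, le_rfl]
    have z1 : ∀ (g : ι → Q) i, z i (g i) ≤ Y g i := fun g i => by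
      have h0 := (hY g (mem_univ _)).1 T0 hT0 i
      simp only [hz]
      split_ifs with h1 h2
      · obtain ⟨T', hT', e⟩ := mem_verts.1 (hT i h1)
        exact e ▸ (hY g (mem_univ _)).1 T' hT' i
      · rwa [h2, div_self (k2 T0 (sub2 hT0) i).ne'] at h0
      · exact (k4 T0 (sub2 hT0) i _).trans h0
    have z2 : ∑ g : ι → Q, Dg g * ∏ i, z i (g i) ≤ (n : ℝ) ^ d * Dg g0 := by
      refine (sum_le_card_nsmul _ _ (Dg g0) fun g _ => ?_).trans ?_
      · exact (mul_le_mul_of_nonneg_left (prod_le_prod (fun i _ => z0 i _) fun i _ => z1 g i)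
          (hD g)).trans (hY g (mem_univ _)).2
      · rw [nsmul_eq_mul]
        exact mul_le_mul_of_nonneg_right (by exact_mod_cast hc) hD0.le
    rw [e1, det_mul, abs_mul, hM, ← ab, ex, abs_of_nonneg (sum_nonneg fun g _ =>
      mul_nonneg (hD g) (prod_nonneg fun i _ => z0 i _)), ← div_eq_mul_inv, div_le_iff₀ hD0]
    exact z2

end Pool.Agent.P.MP_1f07eb_co.N
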