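import Pool.Agent.P.MP_1f07eb_co.N.St

set_option autoImplicit false

namespace Pool.Agent.P.MP_1f07eb_co.N

open Finset Matrix

noncomputable section

namespace CellsP

variable {ι α : Type} [Fintype ι] [DecidableEq α]

/-- positive part -/
def pos (R : Finset α) (X : α → ι → ℝ) (b : ι → ℝ) : Finset α := R.filter fun v => 0 < b ⬝ᵥ X v

/-- negative part -/
def neg (R : Finset α) (X : α → ι → ℝ) (b : ι → ℝ) : Finset α := R.filter fun v => b ⬝ᵥ X v < 0

/-- support -/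
def supp (R : Finset α) (X : α → ι → ℝ) (b : ι → ℝ) : Finset α := R.filter fun v => b ⬝ᵥ X v ≠ 0

/-- rays of the arrangement -/
def IsRay (R : Finset α) (X : α → ι → ℝ) (u : ι → ℝ) : Prop :=
  ∃ Z ⊆ R, Z.card = Fintype.card ι - 1 ∧ (u = ray X Z ∨ u = -ray X Z)

open Classical in
/-- a chosen ray conformal to a pair -/
def cc (R : Finset α) (X : α → ι → ℝ) (P Q : Finset α) : ι → ℝ :=
  if H : ∃ u, IsRay R X u ∧ pos R X u ⊆ P ∧ neg R X u ⊆ Q then H.choose else 0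

/-- a cell -/
def cell (R : Finset α) (X : α → ι → ℝ) (u : ι → ℝ) (P Q : Finset α) : Finset (ι → ℝ) := by
  classical
  exact (P.powerset ×ˢ Q.powerset).image fun p => cc R X (pos R X u ∪ p.1) (neg R X u ∪ p.2)

variable {R : Finset α} {X : α → ι → ℝ}

omit [DecidableEq α] in
theorem cc_spec {P Q : Finset α} {u : ι → ℝ} (h1 : IsRay R X u) (h2 : pos R X u ⊆ P)
    (h3 : neg R X u ⊆ Q) :
    IsRay R X (cc R X P Q) ∧ pos R X (cc R X P Q) ⊆ P ∧ neg R X (cc R X P Q) ⊆ Q := by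
  have H : ∃ u, IsRay R X u ∧ pos R X u ⊆ P ∧ neg R X u ⊆ Q := ⟨u, h1, h2, h3⟩
  unfold cc
  rw [dif_pos H]
  exact H.choose_spec

omit [DecidableEq α] in
theorem mem_pos {b : ι → ℝ} {v : α} : v ∈ pos R X b ↔ v ∈ R ∧ 0 < b ⬝ᵥ X v := Finset.mem_filter

omit [DecidableEq α] in
theorem mem_neg {b : ι → ℝ} {v : α} : v ∈ neg R X b ↔ v ∈ R ∧ b ⬝ᵥ X v < 0 := Finset.mem_filter

omit [DecidableEq α] in
theorem pm_spec [Nonempty ι] {Z : Finset α} (hZ : Z.card = Fintype.card ι - 1) {u : ι → ℝ}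
    (hu : u = ray X Z ∨ u = -ray X Z) : u ≠ 0 ∧ ∀ v ∈ Z, u ⬝ᵥ X v = 0 := by
  have hd : 0 < Fintype.card ι := Fintype.card_pos
  obtain ⟨h1, h2⟩ := ray_spec X Z (by omega)
  rcases hu with rfl | rfl
  · exact ⟨h1, h2⟩
  · exact ⟨neg_ne_zero.2 h1, fun v hv => by rw [neg_dotProduct, h2 v hv, neg_zero]⟩

omit [DecidableEq α] in
theorem exists_ne (hG : GPX R X) (hR : Fintype.card ι ≤ R.card) {b : ι → ℝ} (hb : b ≠ 0) :
    ∃ v ∈ R, b ⬝ᵥ X v ≠ 0 := by
  by_contra hn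
  push Not at hn
  obtain ⟨Z, hZ, hc⟩ := Finset.exists_subset_card_eq hR
  exact hb (hG Z hZ hc b fun v hv => hn v (hZ hv))

omit [DecidableEq α] in
theorem step {b g : ι → ℝ} (h0 : ∀ v ∈ R, b ⬝ᵥ X v = 0 → g ⬝ᵥ X v = 0)
    (h1 : ∃ v ∈ R, 0 < (b ⬝ᵥ X v) * (g ⬝ᵥ X v)) :
    ∃ t : ℝ, 0 < t ∧ pos R X (b - t • g) ⊆ pos R X b ∧ neg R X (b - t • g) ⊆ neg R X b ∧
      (supp R X (b - t • g)).card < (supp R X b).card := by
  obtain ⟨t, ht, h2, v, hv, h3, h4⟩ := shoot R X b g h0 h1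
  refine ⟨t, ht, fun w hw => ?_, fun w hw => ?_, Finset.card_lt_card ?_⟩
  · obtain ⟨a1, a2⟩ := mem_pos.1 hw
    exact mem_pos.2 ⟨a1, (h2 w a1).1 a2⟩
  · obtain ⟨a1, a2⟩ := mem_neg.1 hw
    exact mem_neg.2 ⟨a1, (h2 w a1).2 a2⟩
  · rw [Finset.ssubset_iff_of_subset]
    · exact ⟨v, Finset.mem_filter.2 ⟨hv, h3⟩, fun e => (Finset.mem_filter.1 e).2 h4⟩
    · intro w hw
      obtain ⟨a1, a2⟩ := Finset.mem_filter.1 hw
      refine Finset.mem_filter.2 ⟨a1, ?_⟩
      rcases lt_or_gt_of_ne a2 with a3 | a3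
      · exact ((h2 w a1).2 a3).ne
      · exact ((h2 w a1).1 a3).ne'

omit [DecidableEq α] in
theorem exists_ray [Nonempty ι] (hG : GPX R X) (hR : Fintype.card ι ≤ R.card) (n : ℕ) :
    ∀ b : ι → ℝ, b ≠ 0 → (supp R X b).card < n →
      ∃ u, IsRay R X u ∧ pos R X u ⊆ pos R X b ∧ neg R X u ⊆ neg R X b := by
  induction n with
  | zero => intro b _ h; omega
  | succ n ih =>
    intro b hb hn
    have hd : 0 < Fintype.card ι := Fintype.card_pos
    have hZ0 : (R.filter fun v => b ⬝ᵥ X v = 0).card ≤ Fintype.card ι - 1 := by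
      by_contra hlt
      obtain ⟨Z, hZ, hc⟩ := Finset.exists_subset_card_eq
        (s := R.filter fun v => b ⬝ᵥ X v = 0) (n := Fintype.card ι) (by omega)
      exact hb (hG Z (hZ.trans (Finset.filter_subset _ _)) hc b
        fun v hv => (Finset.mem_filter.1 (hZ hv)).2)
    obtain ⟨Z, hZ1, hZ2, hZc⟩ := Finset.exists_subsuperset_card_eq
      (Finset.filter_subset (fun v => b ⬝ᵥ X v = 0) R) hZ0 (by omega)
    obtain ⟨r1, r2⟩ := pm_spec (X := X) hZc (Or.inl rfl)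
    obtain ⟨v, hv, hv0⟩ := exists_ne hG hR r1
    have hbv : b ⬝ᵥ X v ≠ 0 := fun e => hv0 (r2 v (hZ1 (Finset.mem_filter.2 ⟨hv, e⟩)))
    obtain ⟨g, hg, hgv⟩ : ∃ g, (g = ray X Z ∨ g = -ray X Z) ∧ 0 < (b ⬝ᵥ X v) * (g ⬝ᵥ X v) := by
      rcases lt_or_gt_of_ne (mul_ne_zero hbv hv0) with a | a
      · exact ⟨-ray X Z, Or.inr rfl, by rw [neg_dotProduct]; linarith⟩
      · exact ⟨ray X Z, Or.inl rfl, a⟩
    obtain ⟨t, ht, s1, s2, s3⟩ := step (R := R) (X := X) (b := b) (g := g)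
      (fun w hw e => (pm_spec hZc hg).2 w (hZ1 (Finset.mem_filter.2 ⟨hw, e⟩))) ⟨v, hv, hgv⟩
    by_cases hb' : b - t • g = 0
    · have e : b = t • g := sub_eq_zero.1 hb'
      refine ⟨g, ⟨Z, hZ2, hZc, hg⟩, fun w hw => ?_, fun w hw => ?_⟩
      · obtain ⟨a1, a2⟩ := mem_pos.1 hw
        refine mem_pos.2 ⟨a1, ?_⟩
        rw [e, smul_dotProduct, smul_eq_mul]; exact mul_pos ht a2
      · obtain ⟨a1, a2⟩ := mem_neg.1 hw
        refine mem_neg.2 ⟨a1, ?_⟩
        rw [e, smul_dotProduct, smul_eq_mul]; exact mul_neg_of_pos_of_neg ht a2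
    · obtain ⟨u, u1, u2, u3⟩ := ih _ hb' (by omega)
      exact ⟨u, u1, u2.trans s1, u3.trans s2⟩

omit [DecidableEq α] in
theorem exists_chain [Nonempty ι] (hG : GPX R X) (hR : Fintype.card ι ≤ R.card) (n : ℕ) :
    ∀ b : ι → ℝ, b ≠ 0 → (supp R X b).card < n →
      ∃ u, IsRay R X u ∧ pos R X u ⊆ pos R X b ∧ neg R X u ⊆ neg R X b ∧
        ∀ x : ι → ℝ, (∀ P Q, pos R X u ⊆ P → P ⊆ pos R X b → neg R X u ⊆ Q → Q ⊆ neg R X b →
          0 < cc R X P Q ⬝ᵥ x) → 0 < b ⬝ᵥ x := by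
  induction n with
  | zero => intro b _ h; omega
  | succ n ih =>
    intro b hb hn
    obtain ⟨u0, a1, a2, a3⟩ := exists_ray hG hR _ b hb (Nat.lt_succ_self _)
    obtain ⟨g1, g2, g3⟩ := cc_spec a1 a2 a3
    set g := cc R X (pos R X b) (neg R X b) with hgdef
    have hg0 : g ≠ 0 := by
      obtain ⟨Z, -, hZc, hg⟩ := g1
      exact (pm_spec hZc hg).1
    obtain ⟨v, hv, hv0⟩ := exists_ne hG hR hg0
    obtain ⟨t, ht, s1, s2, s3⟩ := step (R := R) (X := X) (b := b) (g := g)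
      (fun w hw e => by
        by_contra hne
        rcases lt_or_gt_of_ne hne with a | a
        · exact (mem_neg.1 (g3 (mem_neg.2 ⟨hw, a⟩))).2.ne e
        · exact (mem_pos.1 (g2 (mem_pos.2 ⟨hw, a⟩))).2.ne' e)
      ⟨v, hv, by
        rcases lt_or_gt_of_ne hv0 with a | a
        · exact mul_pos_of_neg_of_neg (mem_neg.1 (g3 (mem_neg.2 ⟨hv, a⟩))).2 a
        · exact mul_pos (mem_pos.1 (g2 (mem_pos.2 ⟨hv, a⟩))).2 a⟩
    have hx : ∀ x : ι → ℝ, b ⬝ᵥ x = (b - t • g) ⬝ᵥ x + t * (g ⬝ᵥ x) := fun x => by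
      rw [sub_dotProduct, smul_dotProduct, smul_eq_mul]; ring
    by_cases hb' : b - t • g = 0
    · refine ⟨g, g1, g2, g3, fun x H => ?_⟩
      have := H _ _ g2 subset_rfl g3 subset_rfl
      rw [hx, hb', zero_dotProduct, zero_add]
      exact mul_pos ht this
    · obtain ⟨u, u1, u2, u3, u4⟩ := ih _ hb' (by omega)
      refine ⟨u, u1, u2.trans s1, u3.trans s2, fun x H => ?_⟩
      have e1 := H _ _ (u2.trans s1) subset_rfl (u3.trans s2) subset_rfl
      have e2 := u4 x fun P Q p1 p2 q1 q2 => H P Q p1 (p2.trans s1) q1 (q2.trans s2)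
      rw [hx]
      exact add_pos e2 (mul_pos ht e1)

theorem mem_cell {u c : ι → ℝ} {P Q : Finset α} : c ∈ cell R X u P Q ↔
    ∃ P' ⊆ P, ∃ Q' ⊆ Q, cc R X (pos R X u ∪ P') (neg R X u ∪ Q') = c := by
  unfold cell
  simp only [Finset.mem_image, Finset.mem_product, Finset.mem_powerset, Prod.exists]
  constructor
  · rintro ⟨a, b, ⟨h1, h2⟩, h3⟩; exact ⟨a, h1, b, h2, h3⟩
  · rintro ⟨a, h1, b, h2, h3⟩; exact ⟨a, b, ⟨h1, h2⟩, h3⟩

theorem card_cell (u : ι → ℝ) (P Q : Finset α) :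
    (cell R X u P Q).card ≤ 2 ^ P.card * 2 ^ Q.card := by
  unfold cell
  refine Finset.card_image_le.trans ?_
  rw [Finset.card_product, Finset.card_powerset, Finset.card_powerset]

open Classical in
/-- the cells attached to one ray set -/
def cellsAt (R : Finset α) (X : α → ι → ℝ) (Z : Finset α) : Finset (Finset (ι → ℝ)) :=
  ((({ray X Z, -ray X Z} : Finset (ι → ℝ)) ×ˢ (Z.powerset ×ˢ Z.powerset)).filter
    fun p => Disjoint p.2.1 p.2.2).image fun p => cell R X p.1 p.2.1 p.2.2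

theorem mem_cellsAt {Z : Finset α} {D : Finset (ι → ℝ)} : D ∈ cellsAt R X Z ↔
    ∃ u, (u = ray X Z ∨ u = -ray X Z) ∧ ∃ P ⊆ Z, ∃ Q ⊆ Z, Disjoint P Q ∧ cell R X u P Q = D := by
  unfold cellsAt
  simp only [Finset.mem_image, Finset.mem_filter, Finset.mem_product, Finset.mem_powerset,
    Prod.exists, Finset.mem_insert, Finset.mem_singleton]
  constructor
  · rintro ⟨u, P, Q, ⟨⟨h1, h2, h3⟩, h4⟩, h5⟩; exact ⟨u, h1, P, h2, Q, h3, h4, h5⟩
  · rintro ⟨u, h1, P, h2, Q, h3, h4, h5⟩; exact ⟨u, P, Q, ⟨⟨h1, h2, h3⟩, h4⟩, h5⟩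

theorem card_cellsAt (Z : Finset α) : (cellsAt R X Z).card ≤ 2 * 4 ^ Z.card := by
  classical
  unfold cellsAt
  refine Finset.card_image_le.trans ((Finset.card_filter_le _ _).trans ?_)
  rw [Finset.card_product, Finset.card_product, Finset.card_powerset, ← mul_pow]
  exact Nat.mul_le_mul_right _ Finset.card_le_two

end CellsP

open CellsP in
theorem cells : S_Cells := by
  intro ι α _ _ _ _ R X hG hR
  classical
  have hd : 0 < Fintype.card ι := Fintype.card_pos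
  refine ⟨(R.powersetCard (Fintype.card ι - 1)).biUnion (cellsAt R X), ?_, ?_, ?_⟩
  · refine (Finset.card_biUnion_le_card_mul _ _ (2 * 4 ^ Fintype.card ι) fun Z hZ => ?_).trans ?_
    · refine (card_cellsAt Z).trans (Nat.mul_le_mul_left _ (Nat.pow_le_pow_right (by norm_num) ?_))
      rw [(Finset.mem_powersetCard.1 hZ).2]; omega
    · rw [Finset.card_powersetCard, mul_comm]
      exact Nat.mul_le_mul_left _ (Nat.choose_le_pow _ _)
  · intro D hD
    obtain ⟨Z, hZ, hD⟩ := Finset.mem_biUnion.1 hD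
    obtain ⟨hZR, hZc⟩ := Finset.mem_powersetCard.1 hZ
    obtain ⟨u, hu, P, hP, Q, hQ, hPQ, rfl⟩ := mem_cellsAt.1 hD
    have hray : IsRay R X u := ⟨Z, hZR, hZc, hu⟩
    have hvan := (pm_spec hZc hu).2
    have key : ∀ c ∈ cell R X u P Q, IsRay R X c ∧ pos R X c ⊆ pos R X u ∪ P ∧
        neg R X c ⊆ neg R X u ∪ Q := by
      intro c hc
      obtain ⟨P', hP', Q', hQ', rfl⟩ := mem_cell.1 hc
      obtain ⟨a1, a2, a3⟩ := cc_spec hray (Finset.subset_union_left (s₂ := P'))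
        (Finset.subset_union_left (s₂ := Q'))
      exact ⟨a1, a2.trans (Finset.union_subset_union_right hP'),
        a3.trans (Finset.union_subset_union_right hQ')⟩
    have disj : ∀ v, v ∈ pos R X u ∪ P → v ∈ neg R X u ∪ Q → False := by
      intro v h1 h2
      rcases Finset.mem_union.1 h1 with h1 | h1 <;> rcases Finset.mem_union.1 h2 with h2 | h2
      · exact lt_asymm (mem_pos.1 h1).2 (mem_neg.1 h2).2
      · exact (mem_pos.1 h1).2.ne' (hvan v (hQ h2))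
      · exact (mem_neg.1 h2).2.ne (hvan v (hP h1))
      · exact Finset.disjoint_left.1 hPQ h1 h2
    refine ⟨(card_cell u P Q).trans ?_, fun c hc => (key c hc).1, fun c hc c' hc' v hv => ?_⟩
    · have h1 := Finset.card_le_card hP
      have h2 := Finset.card_le_card hQ
      rw [show 4 = 2 * 2 from rfl, mul_pow]
      exact Nat.mul_le_mul (Nat.pow_le_pow_right (by norm_num) (by omega))
        (Nat.pow_le_pow_right (by norm_num) (by omega))
    · by_contra hn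
      rcases mul_neg_iff.1 (not_le.1 hn) with ⟨a1, a2⟩ | ⟨a1, a2⟩
      · exact disj v ((key c hc).2.1 (mem_pos.2 ⟨hv, a1⟩)) ((key c' hc').2.2 (mem_neg.2 ⟨hv, a2⟩))
      · exact disj v ((key c' hc').2.1 (mem_pos.2 ⟨hv, a2⟩)) ((key c hc).2.2 (mem_neg.2 ⟨hv, a1⟩))
  · intro b hb
    obtain ⟨u, ⟨Z, hZR, hZc, hu⟩, u2, u3, u4⟩ := exists_chain hG hR _ b hb (Nat.lt_succ_self _)
    obtain ⟨hu0, hvan⟩ := pm_spec hZc hu
    have hoff : ∀ v ∈ R, v ∉ Z → u ⬝ᵥ X v ≠ 0 := by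
      intro v hv hvZ e
      refine hu0 (hG (insert v Z) (Finset.insert_subset hv hZR) ?_ u fun w hw => ?_)
      · rw [Finset.card_insert_of_notMem hvZ]; omega
      · rcases Finset.mem_insert.1 hw with rfl | hw
        · exact e
        · exact hvan w hw
    refine ⟨cell R X u (pos R X b ∩ Z) (neg R X b ∩ Z), Finset.mem_biUnion.2
      ⟨Z, Finset.mem_powersetCard.2 ⟨hZR, hZc⟩, mem_cellsAt.2 ⟨u, hu, _, Finset.inter_subset_right,
        _, Finset.inter_subset_right, ?_, rfl⟩⟩, fun x H => u4 x fun P Q p1 p2 q1 q2 => ?_⟩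
    · rw [Finset.disjoint_left]
      intro v h1 h2
      exact lt_asymm (mem_pos.1 (Finset.mem_inter.1 h1).1).2 (mem_neg.1 (Finset.mem_inter.1 h2).1).2
    · refine H _ (mem_cell.2 ⟨P ∩ Z, Finset.inter_subset_inter_right p2, Q ∩ Z,
        Finset.inter_subset_inter_right q2, ?_⟩)
      have e1 : pos R X u ∪ P ∩ Z = P := by
        refine Finset.Subset.antisymm (Finset.union_subset p1 Finset.inter_subset_left)
          fun v hv => ?_
        obtain ⟨a1, a2⟩ := mem_pos.1 (p2 hv)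
        by_cases hvZ : v ∈ Z
        · exact Finset.mem_union_right _ (Finset.mem_inter.2 ⟨hv, hvZ⟩)
        · refine Finset.mem_union_left _ (mem_pos.2 ⟨a1, ?_⟩)
          rcases lt_or_gt_of_ne (hoff v a1 hvZ) with a | a
          · exact absurd (mem_neg.1 (u3 (mem_neg.2 ⟨a1, a⟩))).2 (lt_asymm a2)
          · exact a
      have e2 : neg R X u ∪ Q ∩ Z = Q := by
        refine Finset.Subset.antisymm (Finset.union_subset q1 Finset.inter_subset_left)
          fun v hv => ?_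
        obtain ⟨a1, a2⟩ := mem_neg.1 (q2 hv)
        by_cases hvZ : v ∈ Z
        · exact Finset.mem_union_right _ (Finset.mem_inter.2 ⟨hv, hvZ⟩)
        · refine Finset.mem_union_left _ (mem_neg.2 ⟨a1, ?_⟩)
          rcases lt_or_gt_of_ne (hoff v a1 hvZ) with a | a
          · exact a
          · exact absurd (mem_pos.1 (u2 (mem_pos.2 ⟨a1, a⟩))).2 (lt_asymm a2)
      rw [e1, e2]

end

end Pool.Agent.P.MP_1f07eb_co.N
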