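import Pool.Agent.P.MP_1f07eb_co.N.St

set_option autoImplicit false

namespace Pool.Agent.P.MP_1f07eb_co.N

open Finset Matrix

namespace CutP

variable {ι α : Type} [Fintype ι] [DecidableEq α]

open Classical in
/-- the vertices strictly separated by two vectors -/
noncomputable def sep (V : Finset α) (X : α → ι → ℝ) (c c' : ι → ℝ) : Finset α :=
  V.filter fun v => (c ⬝ᵥ X v) * (c' ⬝ᵥ X v) < 0

/-- a signed ray -/
noncomputable def sr (X : α → ι → ℝ) (Z : Finset α) (e : Bool) : ι → ℝ :=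
  if e then ray X Z else -ray X Z

/-- the ranges defined by a small set -/
noncomputable def rg (V : Finset α) (X : α → ι → ℝ) (Z : Finset α) : Finset (Finset α) :=
  ((Z.powerset ×ˢ Z.powerset) ×ˢ (Finset.univ : Finset (Bool × Bool))).image
    fun q => sep V X (sr X q.1.1 q.2.1) (sr X q.1.2 q.2.2)

theorem card_rg (V : Finset α) (X : α → ι → ℝ) (Z : Finset α) {s : ℕ} (h : Z.card ≤ s) :
    (rg V X Z).card ≤ 4 ^ (s + 1) := by
  refine Finset.card_image_le.trans ?_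
  rw [Finset.card_product, Finset.card_product, Finset.card_powerset, ← mul_pow, pow_succ]
  have h1 : (2 * 2) ^ Z.card ≤ 4 ^ s := Nat.pow_le_pow_right (by norm_num) h
  have h2 : (Finset.univ : Finset (Bool × Bool)).card = 4 := by simp
  rw [h2]
  exact Nat.mul_le_mul_right _ h1

theorem rg_sub (V : Finset α) (X : α → ι → ℝ) (Z : Finset α) : ∀ A ∈ rg V X Z, A ⊆ V := by
  intro A hA
  obtain ⟨q, -, rfl⟩ := Finset.mem_image.1 hA
  exact Finset.filter_subset _ _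

omit [DecidableEq α] in
theorem ex_sr {X : α → ι → ℝ} {Z : Finset α} {c : ι → ℝ} (h : c = ray X Z ∨ c = -ray X Z) :
    ∃ e, c = sr X Z e := by
  rcases h with h | h
  · exact ⟨true, by simp [sr, h]⟩
  · exact ⟨false, by simp [sr, h]⟩

theorem mem_rg (V : Finset α) (X : α → ι → ℝ) (Z1 Z2 : Finset α) (e1 e2 : Bool) :
    sep V X (sr X Z1 e1) (sr X Z2 e2) ∈ rg V X (Z1 ∪ Z2) :=
  Finset.mem_image.2 ⟨((Z1, Z2), (e1, e2)), Finset.mem_product.2 ⟨Finset.mem_product.2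
    ⟨Finset.mem_powerset.2 Finset.subset_union_left,
      Finset.mem_powerset.2 Finset.subset_union_right⟩, Finset.mem_univ _⟩, rfl⟩

theorem ne_zero [Nonempty ι] {V R Z : Finset α} {X : α → ι → ℝ} (hG : GPX V X) (hR : R ⊆ V)
    (hZ : Z ⊆ R) (hc : Z.card = Fintype.card ι - 1) {c : ι → ℝ}
    (h : c = ray X Z ∨ c = -ray X Z) {v : α} (hv : v ∈ V \ R) : c ⬝ᵥ X v ≠ 0 := by
  have hd : 0 < Fintype.card ι := Fintype.card_pos
  obtain ⟨h0, h1⟩ := ray_spec X Z (by omega)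
  obtain ⟨hvV, hvR⟩ := Finset.mem_sdiff.1 hv
  intro e
  have e' : ray X Z ⬝ᵥ X v = 0 := by
    rcases h with h | h
    · rwa [h] at e
    · rw [h, neg_dotProduct] at e; exact neg_eq_zero.1 e
  refine h0 (hG (insert v Z) (Finset.insert_subset hvV (hZ.trans hR)) ?_ _ ?_)
  · rw [Finset.card_insert_of_notMem (fun hz => hvR (hZ hz))]; omega
  · intro u hu
    rcases Finset.mem_insert.1 hu with rfl | hu
    · exact e'
    · exact h1 u hu

end CutP

open CutP in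
theorem cut (h1 : S_Net) (h2 : S_Cells) (h3 : S_Par) : S_Cut := by
  intro ι _ _ _ ε hε
  classical
  have hd : 1 ≤ Fintype.card ι := Fintype.card_pos
  obtain ⟨m, ρ, hρ, hρ1, hA, hB⟩ := h3 (Fintype.card ι) ε hd hε
  set d := Fintype.card ι with hdd
  have h16 : (1 : ℝ) ≤ 16 ^ d := one_le_pow₀ (by norm_num)
  have hρ2 : ρ < 1 := by nlinarith
  refine ⟨2 * 4 ^ d * (m + d) ^ (d - 1), max (m + d) (4 ^ d), 16 ^ d * ρ, by positivity, hρ1,
    by push_cast; exact hB, ?_⟩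
  intro α _ V X hG hV
  obtain ⟨R0, hR0, hR0c⟩ := Finset.exists_subset_card_eq hV
  obtain ⟨R, hR1, hR2, hR3, hR4⟩ := h1 α V R0 (rg V X) m (2 * d) (4 ^ (2 * d + 1)) ρ
    (Finset.card_pos.1 (by omega)) hR0 hρ hρ2 (fun Z hZ => card_rg V X Z hZ) (rg_sub V X)
    (by rw [hR0c]; push_cast; exact hA)
  rw [hR0c] at hR3
  have hGR : GPX R X := fun Z hZ => hG Z (hZ.trans hR2)
  have hdR : d ≤ R.card := hR0c ▸ Finset.card_le_card hR1
  obtain ⟨𝒞, hC1, hC2, hC3⟩ := h2 ι α R X hGR hdR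
  refine ⟨R, hR2, hR3.trans (le_max_left _ _), 𝒞, ?_, fun D hD => ?_, hC3, fun D hD => ?_⟩
  · exact hC1.trans (Nat.mul_le_mul_left _ (Nat.pow_le_pow_left hR3 _))
  · exact (hC2 D hD).1.trans (le_max_right _ _)
  · obtain ⟨hD1, hD2, hD3⟩ := hC2 D hD
    have hsub : cross V R X D ⊆ (D ×ˢ D).biUnion fun q => sep V X q.1 q.2 := by
      intro v hv
      obtain ⟨hv1, hv2, hv3⟩ := Finset.mem_filter.1 hv
      have hne : ∀ c ∈ D, c ⬝ᵥ X v ≠ 0 := fun c hc => by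
        obtain ⟨Z, hZ, hZc, hcZ⟩ := hD2 c hc
        exact ne_zero hG hR2 hZ hZc hcZ hv1
      push Not at hv2 hv3
      obtain ⟨c, hc, hc1⟩ := hv2
      obtain ⟨c', hc', hc2⟩ := hv3
      refine Finset.mem_biUnion.2 ⟨(c, c'), Finset.mem_product.2 ⟨hc, hc'⟩, ?_⟩
      refine Finset.mem_filter.2 ⟨(Finset.mem_sdiff.1 hv1).1, ?_⟩
      exact mul_neg_of_neg_of_pos (lt_of_le_of_ne hc1 (hne c hc))
        (lt_of_le_of_ne hc2 (hne c' hc').symm)
    have hone : ∀ q ∈ D ×ˢ D, ((sep V X q.1 q.2).card : ℝ) ≤ ρ * V.card := by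
      intro q hq
      obtain ⟨hc, hc'⟩ := Finset.mem_product.1 hq
      obtain ⟨Z1, hZ1, hZ1c, he1⟩ := hD2 _ hc
      obtain ⟨Z2, hZ2, hZ2c, he2⟩ := hD2 _ hc'
      obtain ⟨e1, he1⟩ := ex_sr he1
      obtain ⟨e2, he2⟩ := ex_sr he2
      refine hR4 (Z1 ∪ Z2) (Finset.union_subset hZ1 hZ2)
        ((Finset.card_union_le _ _).trans (by omega)) _ ?_ ?_
      · rw [he1, he2]; exact mem_rg V X Z1 Z2 e1 e2
      · refine Finset.disjoint_left.2 fun v hv hvR => ?_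
        exact absurd (Finset.mem_filter.1 hv).2 (not_lt.2 (hD3 _ hc _ hc' v hvR))
    have hc1 : ((cross V R X D).card : ℝ) ≤ ∑ q ∈ D ×ˢ D, ((sep V X q.1 q.2).card : ℝ) := by
      exact_mod_cast (Finset.card_le_card hsub).trans Finset.card_biUnion_le
    have hc2 : ∑ q ∈ D ×ˢ D, ((sep V X q.1 q.2).card : ℝ) ≤ (D ×ˢ D).card • (ρ * V.card) :=
      Finset.sum_le_card_nsmul _ _ _ hone
    have hc3 : (((D ×ˢ D).card : ℕ) : ℝ) ≤ 16 ^ d := by
      rw [Finset.card_product]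
      have : D.card * D.card ≤ 4 ^ d * 4 ^ d := Nat.mul_le_mul hD1 hD1
      rw [← mul_pow] at this
      exact_mod_cast this
    rw [nsmul_eq_mul] at hc2
    have h0 : (0 : ℝ) ≤ ρ * V.card := by positivity
    calc _ ≤ _ := hc1.trans hc2
      _ ≤ 16 ^ d * (ρ * V.card) := mul_le_mul_of_nonneg_right hc3 h0
      _ = _ := by ring

end Pool.Agent.P.MP_1f07eb_co.N
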