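import Pool.Agent.P.MP_1f07eb_co.N.St

set_option autoImplicit false

namespace Pool.Agent.P.MP_1f07eb_co.N

open Finset Matrix

namespace FinalP

variable {d : ℕ}

/-- separated tuples have disjoint convex hulls -/
theorem disj (p : EuclideanSpace ℝ (Fin d)) (T T' : Fin d → EuclideanSpace ℝ (Fin d))
    (H : Sep (fun _ (x : EuclideanSpace ℝ (Fin d)) (i : Fin d) => x i - p i) (fun _ _ => 1) T T') :
    Disjoint (convexHull ℝ (Set.range T)) (convexHull ℝ (Set.range T')) := by
  obtain ⟨b, h1, h2⟩ := H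
  have hl : IsLinearMap ℝ fun x : EuclideanSpace ℝ (Fin d) => b ⬝ᵥ x.ofLp :=
    ⟨fun x y => by simp, fun c x => by simp⟩
  have e : ∀ x : EuclideanSpace ℝ (Fin d),
      b ⬝ᵥ (fun i => x i - p i) = b ⬝ᵥ x.ofLp - b ⬝ᵥ p.ofLp := fun x => dotProduct_sub _ _ _
  have a1 := convexHull_min (s := Set.range T) (by
    rintro _ ⟨i, rfl⟩
    have := h1 i
    rw [e] at this
    exact sub_lt_iff_lt_add.1 this) (convex_halfSpace_lt hl (1 + b ⬝ᵥ p.ofLp))
  have a2 := convexHull_min (s := Set.range T') (by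
    rintro _ ⟨i, rfl⟩
    have := h2 i
    rw [e] at this
    exact lt_sub_iff_add_lt.1 this) (convex_halfSpace_gt hl (1 + b ⬝ᵥ p.ofLp))
  exact Set.disjoint_left.2 fun x hx hx' =>
    lt_asymm (a := b ⬝ᵥ x.ofLp) (a1 hx) (a2 hx')

end FinalP

theorem final (h1 : S_Main) (h2 : S_Iface) : S_Final := by
  classical
  intro d k ε hd hε
  have : Nonempty (Fin d) := ⟨⟨0, hd⟩⟩
  obtain ⟨C, hC⟩ := h1 (Fin d) k ε hε
  refine ⟨C, fun V hV E hE hF => ?_⟩
  obtain ⟨p, g1, g2⟩ := h2 d V hd hV
  have ex : ∀ e : E, ∃ T : Fin d → EuclideanSpace ℝ (Fin d),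
      Function.Injective T ∧ image T univ = e.1 := fun e => by
    let q := (e.1.equivFinOfCardEq (hE _ e.2).2).symm
    refine ⟨fun i => q i, Subtype.val_injective.comp q.injective, ?_⟩
    ext x
    simp only [mem_image, mem_univ, true_and]
    exact ⟨fun ⟨i, hi⟩ => hi ▸ (q i).2, fun hx => ⟨q.symm ⟨x, hx⟩, by simp⟩⟩
  choose en e1 e2 using ex
  have hinj : Function.Injective en := fun a b h => Subtype.ext (by rw [← e2, ← e2, h])
  have key := hC _ _ _ V (image en univ) g1 g2 (fun T hT => by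
    obtain ⟨e, -, rfl⟩ := mem_image.1 hT
    exact ⟨e1 e, fun i => (hE _ e.2).1 (e2 e ▸ mem_image_of_mem _ (mem_univ i))⟩) (by
    rintro ⟨f, f1, f2⟩
    have dj : ∀ a b, a ≠ b → Disjoint (convexHull ℝ (image (f a) univ : Set _))
        (convexHull ℝ (image (f b) univ : Set (EuclideanSpace ℝ (Fin d)))) := fun a b h => by
      rw [coe_image, coe_image, coe_univ, Set.image_univ, Set.image_univ]
      rcases lt_or_gt_of_ne h with h | h
      exacts [FinalP.disj p _ _ (f2 a b h), (FinalP.disj p _ _ (f2 b a h)).symm]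
    refine hF ⟨image (fun a => image (f a) univ) univ, fun e he => ?_, ?_, fun e he e' he' h => ?_⟩
    · obtain ⟨a, -, rfl⟩ := mem_image.1 he
      obtain ⟨e, -, h⟩ := mem_image.1 (f1 a)
      rw [← h, e2]; exact e.2
    · rw [card_image_of_injective, card_univ, Fintype.card_fin]
      intro a b h
      by_contra hn
      have := dj a b hn
      dsimp only at h
      rw [← h, disjoint_self] at this
      have h0 := subset_convexHull ℝ _ (mem_coe.2 (mem_image_of_mem (f a) (mem_univ ⟨0, hd⟩)))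
      rw [this] at h0
      exact h0
    · obtain ⟨a, -, rfl⟩ := mem_image.1 (mem_coe.1 he)
      obtain ⟨b, -, rfl⟩ := mem_image.1 (mem_coe.1 he')
      exact dj a b fun e => h (by rw [e]))
  rwa [card_image_of_injective _ hinj, card_univ, Fintype.card_coe, Fintype.card_fin] at key

end Pool.Agent.P.MP_1f07eb_co.N
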