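import Pool.Agent.P.MP_1f07eb_co.N.St

/-! Generators of a sign cell. -/

set_option autoImplicit false

namespace Pool.Agent.P.MP_1f07eb_co.N

namespace GenP

open Matrix

variable {ι : Type} [Fintype ι]

/-- The signs of `x` conform to those of `x'`. -/
def Conf (W : Finset (ι → ℝ)) (x x' : ι → ℝ) : Prop :=
  ∀ c ∈ W, (0 < c ⬝ᵥ x → 0 < c ⬝ᵥ x') ∧ (c ⬝ᵥ x < 0 → c ⬝ᵥ x' < 0)

theorem Conf.trans {W : Finset (ι → ℝ)} {x y z : ι → ℝ} (h : Conf W x y) (h' : Conf W y z) :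
    Conf W x z :=
  fun c hc => ⟨fun e => (h' c hc).1 ((h c hc).1 e), fun e => (h' c hc).2 ((h c hc).2 e)⟩

theorem conf_of_sign {W : Finset (ι → ℝ)} {x y : ι → ℝ}
    (h : ∀ c ∈ W, SignType.sign (c ⬝ᵥ x) = SignType.sign (c ⬝ᵥ y)) : Conf W x y := by
  intro c hc
  have e := h c hc
  refine ⟨fun h1 => ?_, fun h1 => ?_⟩
  · rw [sign_pos h1] at e
    exact sign_eq_one_iff.1 e.symm
  · rw [sign_neg h1] at e
    exact sign_eq_neg_one_iff.1 e.symm

theorem ex_q (W : Finset (ι → ℝ)) (x0 : ι → ℝ) (a : W → SignType) :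
    ∃ z, Conf W z x0 ∧ ((∃ z', Conf W z' x0 ∧ ∀ c : W, SignType.sign (c.1 ⬝ᵥ z') = a c) →
      ∀ c : W, SignType.sign (c.1 ⬝ᵥ z) = a c) := by
  by_cases h : ∃ z', Conf W z' x0 ∧ ∀ c : W, SignType.sign (c.1 ⬝ᵥ z') = a c
  · obtain ⟨z, h1, h2⟩ := h
    exact ⟨z, h1, fun _ => h2⟩
  · exact ⟨0, fun c _ => by simp, fun h' => absurd h' h⟩

theorem decomp (W : Finset (ι → ℝ)) [Fintype (W → SignType)] (x0 : ι → ℝ)
    (hW : ∀ x : ι → ℝ, (∀ c ∈ W, c ⬝ᵥ x = 0) → x = 0) (q : (W → SignType) → ι → ℝ)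
    (hq : ∀ a, (∃ z', Conf W z' x0 ∧ ∀ c : W, SignType.sign (c.1 ⬝ᵥ z') = a c) →
      ∀ c : W, SignType.sign (c.1 ⬝ᵥ q a) = a c) (n : ℕ) :
    ∀ x : ι → ℝ, Conf W x x0 → (W.filter fun c => c ⬝ᵥ x ≠ 0).card = n →
      ∃ y : (W → SignType) → ℝ, (∀ a, 0 ≤ y a) ∧ x = ∑ a, y a • q a := by
  classical
  induction n using Nat.strong_induction_on with
  | _ n ih =>
    intro x hx hn
    by_cases h0 : ∀ c ∈ W, c ⬝ᵥ x = 0
    · exact ⟨0, fun _ => le_rfl, by simp [hW x h0]⟩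
    push Not at h0
    obtain ⟨c0, hc0, hne⟩ := h0
    set a : W → SignType := fun c => SignType.sign (c.1 ⬝ᵥ x) with ha
    have hg : ∀ c ∈ W, SignType.sign (c ⬝ᵥ q a) = SignType.sign (c ⬝ᵥ x) :=
      fun c hc => hq a ⟨x, hx, fun _ => rfl⟩ ⟨c, hc⟩
    obtain ⟨t, ht, h1, v, hv, hv1, hv2⟩ := shoot W id x (q a) (by
      intro c hc e
      have := hg c hc
      simp only [id] at e ⊢
      rw [dotProduct_comm] at e ⊢
      rw [e, sign_zero] at this
      exact sign_eq_zero_iff.1 this) (by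
      refine ⟨c0, hc0, ?_⟩
      have := hg c0 hc0
      simp only [id]
      rw [dotProduct_comm x, dotProduct_comm (q a)]
      rcases lt_or_gt_of_ne hne with h | h
      · rw [sign_neg h] at this
        exact mul_pos_of_neg_of_neg h (sign_eq_neg_one_iff.1 this)
      · rw [sign_pos h] at this
        exact mul_pos h (sign_eq_one_iff.1 this))
    simp only [id] at h1 hv1 hv2
    have hc : Conf W (x - t • q a) x := by
      intro c hc
      rw [dotProduct_comm c, dotProduct_comm c]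
      exact h1 c hc
    have hlt : (W.filter fun c => c ⬝ᵥ (x - t • q a) ≠ 0).card < n := by
      rw [← hn]
      refine Finset.card_lt_card ⟨fun c hc' => ?_, fun hsub => ?_⟩
      · obtain ⟨h2, h3⟩ := Finset.mem_filter.1 hc'
        refine Finset.mem_filter.2 ⟨h2, ?_⟩
        rcases lt_or_gt_of_ne h3 with h | h
        · exact ((hc c h2).2 h).ne
        · exact ((hc c h2).1 h).ne'
      · have h2 := hsub (Finset.mem_filter.2 ⟨hv, by rwa [dotProduct_comm]⟩)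
        exact (Finset.mem_filter.1 h2).2 (by rwa [dotProduct_comm])
    obtain ⟨y, hy, e⟩ := ih _ hlt _ (hc.trans hx) rfl
    refine ⟨fun b => y b + if b = a then t else 0, fun b => ?_, ?_⟩
    · have := hy b
      dsimp only
      split_ifs <;> linarith
    · simp only [add_smul, Finset.sum_add_distrib, ← e, ite_smul, zero_smul, Finset.sum_ite_eq',
        Finset.mem_univ, if_true]
      abel

theorem sign_mix {W : Finset (ι → ℝ)} {x z : ι → ℝ} (h : Conf W z x) {u : ℝ} (h0 : 0 ≤ u)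
    (h1 : u < 1) : ∀ c ∈ W,
    SignType.sign (c ⬝ᵥ ((1 - u) • x + u • z)) = SignType.sign (c ⬝ᵥ x) := by
  intro c hc
  obtain ⟨h2, h3⟩ := h c hc
  rw [dotProduct_add, dotProduct_smul, dotProduct_smul, smul_eq_mul, smul_eq_mul]
  have h4 : 0 < 1 - u := by linarith
  rcases lt_trichotomy (c ⬝ᵥ x) 0 with h5 | h5 | h5
  · have h6 : c ⬝ᵥ z ≤ 0 := not_lt.1 fun e => absurd (h2 e) (not_lt.2 h5.le)
    rw [sign_neg h5, sign_neg]
    nlinarith [mul_pos h4 (neg_pos.2 h5), mul_nonneg h0 (neg_nonneg.2 h6)]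
  · have h6 : c ⬝ᵥ z = 0 := le_antisymm (not_lt.1 fun e => (h2 e).ne' h5)
      (not_lt.1 fun e => (h3 e).ne h5)
    rw [h5, h6]; simp
  · have h6 : 0 ≤ c ⬝ᵥ z := not_lt.1 fun e => absurd (h3 e) (not_lt.2 h5.le)
    rw [sign_pos h5, sign_pos]
    nlinarith [mul_pos h4 h5, mul_nonneg h0 h6]

theorem ivt (F : ℝ → ℝ) (hF : Continuous F) (h0 : 0 < F 0) (h : ∀ u, 0 ≤ u → u < 1 → F u ≠ 0) :
    0 ≤ F 1 := by
  by_contra hn
  have hn' : F 1 < 0 := not_le.1 hn
  obtain ⟨u, hu, e⟩ := intermediate_value_Ico' zero_le_one hF.continuousOn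
    (show (0 : ℝ) ∈ Set.Ioc (F 1) (F 0) from ⟨hn', h0.le⟩)
  exact h u hu.1 hu.2 e

end GenP

open GenP Matrix in
theorem gen : S_Gen := by
  intro ι _ _ W x0 hW hd
  choose q hq1 hq2 using fun i a => ex_q W (x0 i) a
  have hd0 : (Matrix.of x0).det ≠ 0 := hd x0 fun _ _ _ => rfl
  obtain ⟨σ, hσ, hpos⟩ : ∃ σ : ℝ, (σ = 1 ∨ σ = -1) ∧ 0 < σ * (Matrix.of x0).det := by
    rcases lt_or_gt_of_ne hd0 with h | h
    · exact ⟨-1, Or.inr rfl, by linarith⟩
    · exact ⟨1, Or.inl rfl, by linarith⟩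
  have hσ0 : σ ≠ 0 := by rcases hσ with h | h <;> rw [h] <;> norm_num
  refine ⟨q, σ, hσ, fun g => ?_, fun i x hx => ?_⟩
  · have key := ivt (fun u => σ * (Matrix.of fun i => (1 - u) • x0 i + u • q i (g i)).det)
      (by
        refine continuous_const.mul (Continuous.matrix_det ?_)
        refine continuous_pi fun i => continuous_pi fun j => ?_
        simp only [Matrix.of_apply, Pi.add_apply, Pi.smul_apply, smul_eq_mul]
        fun_prop)
      (by simpa using hpos)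
      (fun u h0 h1 => mul_ne_zero hσ0 (hd _ fun i => sign_mix (hq1 i (g i)) h0 h1))
    simpa using key
  · exact decomp W (x0 i) hW (q i) (hq2 i) _ x (conf_of_sign hx) rfl

end Pool.Agent.P.MP_1f07eb_co.N
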