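import Pool.Agent.P.MP_1f07eb_co.N.St

set_option autoImplicit false

namespace Pool.Agent.P.MP_1f07eb_co.N

open Finset Matrix

namespace GeoKP

variable {ι α : Type} [Fintype ι] [DecidableEq ι] [DecidableEq α]

omit [DecidableEq ι] in
theorem one_le_K (N : ℕ) : (1 : ℝ) ≤ 8 * Fintype.card ι * Lg N ^ 2 + 1 := by
  have : (0 : ℝ) ≤ 8 * Fintype.card ι * Lg N ^ 2 := by positivity
  linarith

theorem stages (hS : S_Stage) (η : ℝ) (U : ι → Finset α) (X : ι → α → ι → ℝ) (h : ι → α → ℝ)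
    (E : Finset (ι → α)) (N : ℕ) (lam : ℝ) (h0 : 0 < η)
    (h1 : 60 * (Fintype.card ι : ℝ) * η ≤ 1) (hG : Geo η U X) (hl : 1 ≤ lam) (n : ℕ) :
    ∀ (S : Finset ι) (th : ι → ℝ) (G : Finset (ι → α)), S.card = n →
      (∀ T ∈ G, ∀ i, T i ∈ U i) → G.card ≤ N → GP X h U S th →
      (∀ T ∈ G, Src X h E S th T ∧ Low X h S th T) →
      Dense (lam * (8 * Fintype.card ι * Lg N ^ 2 + 1) ^ n) G →
      ∃ th' : ι → ℝ, ∃ G' ⊆ G, (∀ T ∈ G', Src X h E ∅ th' T ∧ Low X h ∅ th' T) ∧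
        Dense lam G' := by
  induction n with
  | zero =>
    intro S th G hc _ _ _ hI hD
    rw [Finset.card_eq_zero] at hc
    subst hc
    exact ⟨th, G, subset_rfl, hI, by simpa using hD⟩
  | succ n ih =>
    intro S th G hc hU hN hP hI hD
    have hK := one_le_K (ι := ι) N
    have hp : 1 ≤ lam * (8 * Fintype.card ι * Lg N ^ 2 + 1) ^ n :=
      one_le_mul_of_one_le_of_one_le hl (one_le_pow₀ hK)
    obtain ⟨c, hc', th', G', hG', hP', hI', hD'⟩ := hS ι α η U X h E G S th N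
      (lam * (8 * Fintype.card ι * Lg N ^ 2 + 1) ^ n) h0 h1 hG hU hN
      (Finset.card_pos.1 (by omega)) hP hI (by linarith) (hD.mono (by
        rw [pow_succ _ n, ← mul_assoc lam, mul_add (lam * _), mul_one]
        linarith))
    obtain ⟨th'', G'', hG'', hI'', hD''⟩ := ih (S.erase c) th' G'
      (by rw [Finset.card_erase_of_mem hc', hc]; rfl) (fun T hT => hU T (hG' hT))
      ((Finset.card_le_card hG').trans hN) hP' hI' hD'
    exact ⟨th'', G'', hG''.trans hG', hI'', hD''⟩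

theorem step (hS : S_Stage) (η : ℝ) (U : ι → Finset α) (X : ι → α → ι → ℝ) (h : ι → α → ℝ)
    (N : ℕ) (lam : ℝ) (h0 : 0 < η) (h1 : 60 * (Fintype.card ι : ℝ) * η ≤ 1) (hG : Geo η U X)
    (hP : GP0 X h U) (hl : 1 ≤ lam) (G : Finset (ι → α)) (hU : ∀ T ∈ G, ∀ i, T i ∈ U i)
    (hN : G.card ≤ N)
    (hD : Dense (lam * (8 * Fintype.card ι * Lg N ^ 2 + 1) ^ Fintype.card ι) G) :
    ∃ T0 ∈ G, ∃ G' ⊆ G, Dense lam G' ∧ ∀ T ∈ G', Sep X h T0 T := by
  obtain ⟨th, G', hG', hI, hD'⟩ := stages hS η U X h G N lam h0 h1 hG hl (Fintype.card ι)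
    Finset.univ 0 G Finset.card_univ hU hN
    (fun T hT b hb l _ v hv hne => hP T hT b (fun i => hb.1 i (Finset.mem_univ i)) l v hv hne)
    (fun T hT => ⟨⟨T, hT, fun _ _ => rfl, fun _ _ _ i hi => absurd (Finset.mem_univ i) hi⟩,
      fun _ _ _ i hi => absurd (Finset.mem_univ i) hi⟩) hD
  obtain ⟨T, hT⟩ := hD'.nonempty (by linarith)
  obtain ⟨T0, hT0, -, h2⟩ := (hI T hT).1
  refine ⟨T0, hT0, G', hG', hD', fun T' hT' => ⟨th, fun i => ?_, fun i => ?_⟩⟩
  · exact h2 th (fun _ _ => rfl) (fun j hj => absurd hj (Finset.notMem_empty j)) i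
      (Finset.notMem_empty i)
  · exact (hI T' hT').2 th (fun _ _ => rfl) (fun j hj => absurd hj (Finset.notMem_empty j)) i
      (Finset.notMem_empty i)

end GeoKP

theorem geoK (h : S_Stage) : S_Geo := by
  intro ι α _ _ _ η U X hh N k G h0 h1 hG hP hU hN hD
  induction k generalizing G with
  | zero => exact ⟨Fin.elim0, fun a => a.elim0, fun a => a.elim0⟩
  | succ k ih =>
    have hK := GeoKP.one_le_K (ι := ι) N
    obtain ⟨T0, hT0, G', hG', hD', hs⟩ := GeoKP.step h η U X hh N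
      ((8 * Fintype.card ι * Lg N ^ 2 + 1) ^ (Fintype.card ι * k)) h0 h1 hG hP
      (one_le_pow₀ hK) G hU hN (by rwa [← pow_add, ← Nat.mul_succ])
    obtain ⟨f, hf, hsep⟩ := ih G' (fun T hT => hU T (hG' hT))
      ((Finset.card_le_card hG').trans hN) hD'
    refine ⟨Fin.cons T0 f, fun a => ?_, fun a b hab => ?_⟩
    · refine Fin.cases ?_ (fun a => ?_) a
      · simpa using hT0
      · simpa using hG' (hf a)
    · revert hab
      refine Fin.cases ?_ (fun b => ?_) b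
      · intro hab
        exact absurd hab (Fin.not_lt_zero a)
      · refine Fin.cases ?_ (fun a => ?_) a
        · intro _
          simpa using hs _ (hf b)
        · intro hab
          simpa using hsep a b (Fin.succ_lt_succ_iff.1 hab)

end Pool.Agent.P.MP_1f07eb_co.N
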