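import Pool.Agent.P.MP_1f07eb_co.N.St

/-! Choice of an origin in general position. -/

set_option autoImplicit false

namespace Pool.Agent.P.MP_1f07eb_co.N

open Finset Matrix

namespace IfaceP

theorem key {d : ℕ} {κ : Type} [Fintype κ] (q : κ → EuclideanSpace ℝ (Fin d))
    (hq : AffineIndependent ℝ q) (hc : Fintype.card κ = d + 1) (b : Fin d → ℝ) (c : ℝ)
    (hb : ∀ i, b ⬝ᵥ (fun j => q i j) = c) : b = 0 := by
  have htop : affineSpan ℝ (Set.range q) = ⊤ :=
    hq.affineSpan_eq_top_iff_card_eq_finrank_add_one.2 (by simpa using hc)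
  have hall : ∀ x : EuclideanSpace ℝ (Fin d), b ⬝ᵥ (fun j => x j) = c := by
    intro x
    have hx : x ∈ affineSpan ℝ (Set.range q) := by rw [htop]; trivial
    refine affineSpan_induction (p := fun y : EuclideanSpace ℝ (Fin d) =>
      b ⬝ᵥ (fun j => y j) = c) hx ?_ ?_
    · rintro _ ⟨i, rfl⟩; exact hb i
    · intro t u v w hu hv hw
      have e : (fun j => (t • (u -ᵥ v) +ᵥ w) j) =
          t • ((fun j => u j) - fun j => v j) + fun j => w j := by
        funext j; simp
      rw [e, dotProduct_add, dotProduct_smul, dotProduct_sub, hu, hv, hw]; simp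
  have h0 := hall 0
  have h1 := hall (WithLp.toLp 2 b)
  have h2 : b ⬝ᵥ b = 0 := by
    have e0 : (fun j => (0 : EuclideanSpace ℝ (Fin d)) j) = 0 := by funext j; simp
    rw [e0, dotProduct_zero] at h0
    rw [h0]; exact h1
  exact dotProduct_self_eq_zero.1 h2

theorem avoid {d : ℕ} (V : Finset (EuclideanSpace ℝ (Fin d)))
    (hV : ∀ S ⊆ V, S.card ≤ d + 1 →
      AffineIndependent ℝ (fun x : S => (x : EuclideanSpace ℝ (Fin d)))) :
    ∃ p : EuclideanSpace ℝ (Fin d), ∀ Z ⊆ V, Z.card = d →
      p ∉ affineSpan ℝ (Z : Set (EuclideanSpace ℝ (Fin d))) := by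
  by_contra hcon
  push Not at hcon
  have hsub : (Set.univ : Set (EuclideanSpace ℝ (Fin d))) ⊆
      ⋃ Z ∈ V.powersetCard d, (affineSpan ℝ (Z : Set (EuclideanSpace ℝ (Fin d))) :
        Set (EuclideanSpace ℝ (Fin d))) := by
    intro p _
    obtain ⟨Z, h1, h2, h3⟩ := hcon p
    exact Set.mem_biUnion (Finset.mem_coe.2 (Finset.mem_powersetCard.2 ⟨h1, h2⟩)) h3
  have h0 : MeasureTheory.volume (⋃ Z ∈ V.powersetCard d,
      (affineSpan ℝ (Z : Set (EuclideanSpace ℝ (Fin d))) : Set (EuclideanSpace ℝ (Fin d)))) = 0 := by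
    refine (MeasureTheory.measure_biUnion_null_iff (V.powersetCard d).countable_toSet).2 ?_
    intro Z hZ
    obtain ⟨h1, h2⟩ := Finset.mem_powersetCard.1 (Finset.mem_coe.1 hZ)
    refine MeasureTheory.Measure.addHaar_affineSubspace _ _ fun htop => ?_
    have := (hV Z h1 (by omega)).affineSpan_eq_top_iff_card_eq_finrank_add_one.1 (by
      simpa using htop)
    simp [h2] at this
  have h1 := MeasureTheory.measure_mono_null hsub h0
  exact (MeasureTheory.Measure.measure_univ_pos.2 (NeZero.ne _)).ne' h1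

end IfaceP

theorem iface : S_Iface := by
  intro d V _ hV
  obtain ⟨p, hp⟩ := IfaceP.avoid V hV
  have hd : ∀ (b : Fin d → ℝ) (x : EuclideanSpace ℝ (Fin d)),
      b ⬝ᵥ (fun i => x i - p i) = b ⬝ᵥ (fun i => x i) - b ⬝ᵥ (fun i => p i) := fun b x => by
    rw [← dotProduct_sub]; rfl
  refine ⟨p, fun Z hZ hc b hb => ?_, fun Z hZ hc b hb => ?_⟩
  · rw [Fintype.card_fin] at hc
    let q : Option Z → EuclideanSpace ℝ (Fin d) := fun o => o.elim p (fun x => x)
    have hq : AffineIndependent ℝ q := by
      refine AffineIndependent.affineIndependent_of_notMem_span (i := none) ?_ ?_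
      · let e : {y : Option Z // y ≠ none} ↪ Z :=
          ⟨fun y => y.1.get (Option.ne_none_iff_isSome.1 y.2), by
            rintro ⟨_ | a, ha⟩ ⟨_ | b, hb⟩ h
            · rfl
            · exact absurd rfl ha
            · exact absurd rfl hb
            · simpa using h⟩
        have e1 : (fun y : {y : Option Z // y ≠ none} => q y) =
            (fun x : Z => (x : EuclideanSpace ℝ (Fin d))) ∘ e := by
          funext y
          obtain ⟨_ | a, ha⟩ := y
          · exact absurd rfl ha
          · rfl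
        rw [e1]
        exact (hV Z hZ (by omega)).comp_embedding e
      · intro hm
        refine hp Z hZ hc (affineSpan_mono ℝ ?_ hm)
        rintro _ ⟨_ | a, ha, rfl⟩
        · exact absurd rfl ha
        · exact a.2
    refine IfaceP.key q hq (by simp [hc]) b (b ⬝ᵥ fun i => p i) ?_
    rintro (_ | a)
    · rfl
    · have := hb a a.2
      rw [hd] at this
      exact sub_eq_zero.1 this
  · rw [Fintype.card_fin] at hc
    have hb0 : b = 0 := IfaceP.key _ (hV Z hZ hc.le) (by simp [hc]) b
      (1 + b ⬝ᵥ fun i => p i) fun a => by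
        have := hb a a.2
        rw [hd] at this
        linarith
    obtain ⟨v, hv⟩ : Z.Nonempty := Finset.card_pos.1 (by omega)
    have := hb v hv
    rw [hb0, zero_dotProduct] at this
    exact zero_ne_one this

end Pool.Agent.P.MP_1f07eb_co.N
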