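import Pool.Agent.P.MP_1f07eb_co.N.St

set_option autoImplicit false

namespace Pool.Agent.P.MP_1f07eb_co.N

open Finset Matrix

namespace LinP

variable {ι : Type} [Fintype ι] [DecidableEq ι]

/-- the off diagonal part of a dot product with a near unit row -/
theorem rest {η μ : ℝ} (hη : 0 < η) (hd : 60 * (Fintype.card ι : ℝ) * η ≤ 1) (ρ δ : ι → ℝ)
    (i : ι) (h1 : ρ i = 1) (h2 : ∀ l, l ≠ i → 0 ≤ ρ l ∧ ρ l ≤ 2 * η) (hμ : ∀ l, |δ l| ≤ μ) :
    30 * |δ ⬝ᵥ ρ - δ i| ≤ μ := by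
  have hμ0 : 0 ≤ μ := (abs_nonneg _).trans (hμ i)
  have e : δ ⬝ᵥ ρ - δ i = ∑ l ∈ univ.erase i, δ l * ρ l := by
    unfold dotProduct
    rw [← Finset.add_sum_erase _ _ (Finset.mem_univ i), h1]
    ring
  have h3 : |∑ l ∈ univ.erase i, δ l * ρ l| ≤ ∑ _l ∈ univ.erase i, μ * (2 * η) := by
    refine (Finset.abs_sum_le_sum_abs _ _).trans (Finset.sum_le_sum fun l hl => ?_)
    obtain ⟨h4, h5⟩ := h2 l (Finset.mem_erase.1 hl).1
    rw [abs_mul, abs_of_nonneg h4]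
    exact mul_le_mul (hμ l) h5 h4 hμ0
  have h4 : ∑ _l ∈ univ.erase i, μ * (2 * η) ≤ (Fintype.card ι : ℝ) * (μ * (2 * η)) := by
    rw [Finset.sum_const, nsmul_eq_mul]
    refine mul_le_mul_of_nonneg_right ?_ (by positivity)
    exact_mod_cast Finset.card_le_univ _
  rw [e]
  nlinarith [mul_le_mul_of_nonneg_left hd hμ0]

theorem second {η : ℝ} (hη : 0 < η) (hd : 60 * (Fintype.card ι : ℝ) * η ≤ 1) (ρ : ι → ι → ℝ)
    (h : ∀ i, ρ i i = 1 ∧ ∀ l, l ≠ i → 0 ≤ ρ i l ∧ ρ i l ≤ 2 * η) (j : ι) (δ : ι → ℝ)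
    (h0 : ∀ i, i ≠ j → δ ⬝ᵥ ρ i = 0) :
    (∀ l, l ≠ j → 30 * |δ l| ≤ |δ j|) ∧ 30 * |δ ⬝ᵥ ρ j - δ j| ≤ |δ j| := by
  obtain ⟨i0, -, hi0⟩ := Finset.exists_max_image univ (fun i => |δ i|) ⟨j, Finset.mem_univ j⟩
  have hμ : ∀ l, |δ l| ≤ |δ i0| := fun l => hi0 l (Finset.mem_univ l)
  have h1 : ∀ l, l ≠ j → 30 * |δ l| ≤ |δ i0| := by
    intro l hl
    have := rest hη hd (ρ l) δ l (h l).1 (h l).2 hμ
    rwa [h0 l hl, zero_sub, abs_neg] at this
  have h2 : |δ i0| ≤ |δ j| := by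
    by_cases hj : i0 = j
    · rw [hj]
    · have := h1 i0 hj
      have := abs_nonneg (δ i0)
      have := abs_nonneg (δ j)
      linarith
  exact ⟨fun l hl => (h1 l hl).trans h2, (rest hη hd (ρ j) δ j (h j).1 (h j).2 hμ).trans h2⟩

theorem zero_of {δ : ι → ℝ} {j : ι} (h : ∀ l, l ≠ j → 30 * |δ l| ≤ |δ j|) (h0 : δ j = 0) :
    δ = 0 := by
  funext l
  by_cases hl : l = j
  · rw [hl, h0]; rfl
  · have := h l hl
    rw [h0, abs_zero] at this
    have h1 := abs_nonneg (δ l)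
    exact abs_eq_zero.1 (by linarith)

theorem third {η : ℝ} (hη : 0 < η) (hd : 60 * (Fintype.card ι : ℝ) * η ≤ 1)
    (S : Finset ι) (x : ι → ι → ℝ) (v δ : ι → ℝ)
    (hx : ∀ l ∈ S, x l l = 1 ∧ ∀ j, j ≠ l → 0 ≤ x l j ∧ x l j ≤ 2 * η)
    (hv : ∀ l ∈ S, η ≤ v l ∧ v l ≤ 2 * η) (h0 : ∀ i, i ∉ S → δ i = 0)
    (hp : ∀ l ∈ S, 0 ≤ δ ⬝ᵥ x l) : 0 ≤ δ ⬝ᵥ v := by
  set P := ∑ j, max (δ j) 0 with hP
  have hP0 : 0 ≤ P := Finset.sum_nonneg fun j _ => le_max_right _ _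
  have h1 : ∀ l, -δ l ≤ 2 * η * P := by
    intro l
    by_cases hl : l ∈ S
    · have h2 := hp l hl
      unfold dotProduct at h2
      rw [← Finset.add_sum_erase _ _ (Finset.mem_univ l), (hx l hl).1, mul_one] at h2
      have h3 : ∑ j ∈ univ.erase l, δ j * x l j ≤ ∑ j ∈ univ.erase l, 2 * η * max (δ j) 0 := by
        refine Finset.sum_le_sum fun j hj => ?_
        obtain ⟨h4, h5⟩ := (hx l hl).2 j (Finset.mem_erase.1 hj).1
        have h6 := mul_le_mul_of_nonneg_right (le_max_left (δ j) 0) h4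
        have h7 := mul_le_mul_of_nonneg_left h5 (le_max_right (δ j) 0)
        linarith
      have h4 : ∑ j ∈ univ.erase l, 2 * η * max (δ j) 0 ≤ ∑ j, 2 * η * max (δ j) 0 :=
        Finset.sum_le_sum_of_subset_of_nonneg (Finset.subset_univ _)
          fun j _ _ => mul_nonneg (by positivity) (le_max_right _ _)
      rw [← Finset.mul_sum univ] at h4
      linarith
    · rw [h0 l hl, neg_zero]
      positivity
  have h2 : ∀ l, η * max (δ l) 0 - 2 * η * (2 * η * P) ≤ δ l * v l := by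
    intro l
    have h5 : 0 ≤ 2 * η * (2 * η * P) := by positivity
    by_cases hl : l ∈ S
    · obtain ⟨h3, h4⟩ := hv l hl
      rcases le_total 0 (δ l) with h6 | h6
      · rw [max_eq_left h6]
        nlinarith [mul_le_mul_of_nonneg_left h3 h6]
      · rw [max_eq_right h6]
        have h7 := mul_le_mul_of_nonneg_left h4 (neg_nonneg.2 h6)
        have h8 := mul_le_mul_of_nonneg_left (h1 l) (by positivity : 0 ≤ 2 * η)
        nlinarith
    · rw [h0 l hl]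
      simp only [max_self, mul_zero, zero_mul]
      linarith
  have h3 := Finset.sum_le_sum fun l (_ : l ∈ univ) => h2 l
  rw [Finset.sum_sub_distrib, ← Finset.mul_sum, Finset.sum_const, Finset.card_univ,
    nsmul_eq_mul, ← hP] at h3
  have h4 : 0 ≤ η * P := by positivity
  unfold dotProduct
  nlinarith [mul_le_mul_of_nonneg_left hd h4]

end LinP

open LinP

theorem lin : S_Lin := by
  intro ι _ _ η hη hd
  refine ⟨fun ρ h => ⟨fun r => ?_, fun j δ h0 => ?_⟩, third hη hd⟩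
  · let f : (ι → ℝ) →ₗ[ℝ] (ι → ℝ) := (Matrix.of ρ).mulVecLin
    have hf : ∀ b i, f b i = b ⬝ᵥ ρ i := fun b i => by
      rw [dotProduct_comm]
      rfl
    have hinj : Function.Injective f := by
      rw [injective_iff_map_eq_zero]
      intro δ hδ
      funext j
      have h0 : ∀ i, δ ⬝ᵥ ρ i = 0 := fun i => by rw [← hf, hδ]; rfl
      have h1 := (second hη hd ρ h j δ fun i _ => h0 i).2
      rw [h0 j, zero_sub, abs_neg] at h1
      have h2 := abs_nonneg (δ j)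
      exact abs_eq_zero.1 (by linarith)
    obtain ⟨b, hb⟩ := LinearMap.injective_iff_surjective.1 hinj r
    exact ⟨b, fun i => by rw [← hf, hb]⟩
  · obtain ⟨h1, h2⟩ := second hη hd ρ h j δ h0
    refine ⟨h1, fun h3 => ?_, fun h3 => ?_, zero_of h1⟩
    · rw [abs_of_pos h3] at h2
      have := neg_abs_le (δ ⬝ᵥ ρ j - δ j)
      linarith
    · rw [abs_of_neg h3] at h2
      have := le_abs_self (δ ⬝ᵥ ρ j - δ j)
      linarith

end Pool.Agent.P.MP_1f07eb_co.N
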