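import Pool.Agent.P.MP_1f07eb_co.N.St

/-! The recursion over cuttings. -/

set_option autoImplicit false

namespace Pool.Agent.P.MP_1f07eb_co.N

open Finset Matrix

namespace MainRecP

variable {ι α : Type} [Fintype ι] [DecidableEq ι] [DecidableEq α]

/-- tuples that meet the set R -/
theorem card_meet (G : Finset (ι → α)) (R : Finset α) :
    (G.filter fun T => ∃ i, T i ∈ R).card ≤ R.card * sh G := by
  have h1 : G.filter (fun T => ∃ i, T i ∈ R) ⊆
      univ.biUnion fun i => R.biUnion fun r => G.filter fun T => T i = r := by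
    intro T hT
    obtain ⟨h1, i, h2⟩ := mem_filter.1 hT
    exact mem_biUnion.2 ⟨i, mem_univ _, mem_biUnion.2 ⟨T i, h2, mem_filter.2 ⟨h1, rfl⟩⟩⟩
  refine (card_le_card h1).trans (card_biUnion_le.trans ?_)
  rw [sh, mul_sum]
  refine sum_le_sum fun i _ => card_biUnion_le_card_mul _ _ _ fun r _ => ?_
  refine card_le_card_of_injOn (ridge i) (fun T hT => ?_) fun T hT T' hT' e => ?_
  · exact mem_coe.2 (mem_image_of_mem _ (mem_filter.1 (mem_coe.1 hT)).1)
  · funext l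
    by_cases hl : l = i
    · rw [hl, (mem_filter.1 (mem_coe.1 hT)).2, (mem_filter.1 (mem_coe.1 hT')).2]
    · exact (ridge_eq_iff i T T').1 e l hl

omit [DecidableEq α] in
theorem card_le_pow (G : Finset (ι → α)) (V : Finset α) (H : ∀ T ∈ G, ∀ i, T i ∈ V) :
    G.card ≤ V.card ^ Fintype.card ι := by
  have h1 : G ⊆ Fintype.piFinset fun _ : ι => V := fun T hT => Fintype.mem_piFinset.2 (H T hT)
  simpa using card_le_card h1

/-- tuples that cross no cell have a stable determinant -/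
theorem det_ne {V R : Finset α} {X : α → ι → ℝ} {𝒞 : Finset (Finset (ι → ℝ))}
    (hC : ∀ b : ι → ℝ, b ≠ 0 → ∃ D ∈ 𝒞, ∀ x : ι → ℝ, (∀ c ∈ D, 0 < c ⬝ᵥ x) → 0 < b ⬝ᵥ x)
    {W : Finset (ι → ℝ)} (hW : ∀ D ∈ 𝒞, D ⊆ W) {T : ι → α} (hV : ∀ i, T i ∈ V)
    (hR : ¬ ∃ i, T i ∈ R) (hT : ∀ D ∈ 𝒞, ¬ ∀ i, T i ∈ cross V R X D) (x : ι → ι → ℝ)
    (hx : ∀ i, ∀ c ∈ W, SignType.sign (c ⬝ᵥ x i) = SignType.sign (c ⬝ᵥ X (T i))) :
    (Matrix.of x).det ≠ 0 := by
  intro h0
  obtain ⟨b, hb, hb0⟩ := Matrix.exists_mulVec_eq_zero_iff.2 h0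
  obtain ⟨D, hD, hD'⟩ := hC b hb
  obtain ⟨i, hi⟩ := not_forall.1 (hT D hD)
  have h1 : b ⬝ᵥ x i = 0 := by
    rw [dotProduct_comm]
    exact congrFun hb0 i
  have h2 : T i ∈ V \ R := mem_sdiff.2 ⟨hV i, fun h => hR ⟨i, h⟩⟩
  simp only [cross, mem_filter, h2, true_and, not_and_or, not_not] at hi
  rcases hi with hi | hi
  · have := hD' (x i) fun c hc =>
      sign_eq_one_iff.1 ((hx i c (hW D hD hc)).trans (sign_pos (hi c hc)))
    linarith
  · have := hD' (-x i) fun c hc => by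
      rw [dotProduct_neg]
      exact neg_pos.2 (sign_eq_neg_one_iff.1 ((hx i c (hW D hD hc)).trans (sign_neg (hi c hc))))
    rw [dotProduct_neg] at this
    linarith

end MainRecP

open MainRecP in
theorem mainRec (h1 : S_Cut) (h2 : S_Good) (h3 : S_Log) : S_Main := by
  classical
  intro ι _ _ _ k ε hε
  obtain ⟨N0, n0, ρ, hρ0, hρ1, hN0, hcut⟩ := h1 ι ε hε
  obtain ⟨A, hA⟩ := h2 ι k (N0 * n0)
  obtain ⟨C1, hC1, hlog⟩ := h3 (Fintype.card ι) A ε hε
  obtain ⟨d, hd⟩ : ∃ d, Fintype.card ι = d + 1 := ⟨_, (Nat.succ_pred_eq_of_pos Fintype.card_pos).symm⟩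
  have he : ((Fintype.card ι : ℝ) - 1 + ε) = d + ε := by
    rw [hd]
    push_cast
    ring
  rw [he] at hN0 ⊢
  have he0 : 0 ≤ (d : ℝ) + ε := by positivity
  set C : ℝ := 2 * ((n0 + A * C1) * (d + 1)) with hC
  have hC0 : 0 ≤ C := by positivity
  refine ⟨C, fun α _ X h V => ?_⟩
  induction hw : V.card using Nat.strong_induction_on generalizing V with
  | _ w ih =>
  intro G hX hH hG hCl
  rcases lt_or_ge w (Fintype.card ι) with hlt | hge
  · have h0 : G = ∅ := by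
      refine eq_empty_of_forall_notMem fun T hT => ?_
      have := card_le_card_of_injOn (s := univ) (t := V) T (fun i _ => (hG T hT).2 i)
        (hG T hT).1.injOn
      rw [card_univ] at this
      omega
    rw [h0, card_empty, Nat.cast_zero]
    positivity
  obtain ⟨R, hRV, hR, 𝒞, h𝒞, hD, hcell, hcross⟩ := hcut α V X hX (hw ▸ hge)
  rw [hw] at hcross
  have hw1 : 1 ≤ w := by omega
  have hw1' : (1 : ℝ) ≤ w := by exact_mod_cast hw1
  have hw0 : (0 : ℝ) < w := by linarith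
  have hsh : ∀ G' ⊆ G, (sh G' : ℝ) ≤ (d + 1) * (w : ℝ) ^ d := fun G' hG' => by
    have := sh_le G' V fun T hT => (hG T (hG' hT)).2
    rw [hd, hw, Nat.add_sub_cancel] at this
    exact_mod_cast this
  have hpow : (w : ℝ) ^ ((d : ℝ) + ε) = (w : ℝ) ^ d * (w : ℝ) ^ ε := by
    rw [Real.rpow_add hw0, Real.rpow_natCast]
  have hε1 : 1 ≤ (w : ℝ) ^ ε := Real.one_le_rpow hw1' hε.le
  have hwd : 0 ≤ (w : ℝ) ^ d := by positivity
  set GA := G.filter fun T => ∃ i, T i ∈ R with hGA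
  set GC := G.filter fun T => (¬ ∃ i, T i ∈ R) ∧ ∀ D ∈ 𝒞, ¬ ∀ i, T i ∈ cross V R X D with hGC
  set GD := fun D => G.filter fun T => ∀ i, T i ∈ cross V R X D with hGD
  have e0 : (G.card : ℝ) ≤ GA.card + GC.card + ∑ D ∈ 𝒞, ((GD D).card : ℝ) := by
    have h4 : G ⊆ GA ∪ GC ∪ 𝒞.biUnion GD := by
      intro T hT
      simp only [hGA, hGC, hGD, mem_union, mem_filter, mem_biUnion, hT, true_and]
      by_cases a1 : ∃ i, T i ∈ R
      · exact Or.inl (Or.inl a1)
      by_cases a2 : ∃ D ∈ 𝒞, ∀ i, T i ∈ cross V R X D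
      · exact Or.inr a2
      · exact Or.inl (Or.inr ⟨a1, fun D hD h5 => a2 ⟨D, hD, h5⟩⟩)
    have h5 := (card_le_card h4).trans ((card_union_le _ _).trans
      (Nat.add_le_add (card_union_le _ _) card_biUnion_le))
    exact_mod_cast h5
  have e1 : (GA.card : ℝ) ≤ n0 * ((d + 1) * ((w : ℝ) ^ d * (w : ℝ) ^ ε)) := by
    have h4 : (GA.card : ℝ) ≤ R.card * sh G := by exact_mod_cast card_meet G R
    have h5 : (R.card : ℝ) ≤ n0 := by exact_mod_cast hR
    refine h4.trans (mul_le_mul h5 ((hsh G Subset.rfl).trans ?_) (Nat.cast_nonneg _)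
      (Nat.cast_nonneg _))
    exact mul_le_mul_of_nonneg_left (le_mul_of_one_le_right hwd hε1) (by positivity)
  have e2 : (GC.card : ℝ) ≤ A * (C1 * (w : ℝ) ^ ε) * ((d + 1) * (w : ℝ) ^ d) := by
    have hs : GC ⊆ G := filter_subset _ _
    have h4 : ¬ Dense ((A : ℝ) * Lg (w ^ Fintype.card ι) ^ A) GC := fun h4 => by
      refine hCl ((hA α V X h (𝒞.biUnion id) GC (w ^ Fintype.card ι) ?_ hH
        (fun T hT => (hG T (hs hT)).2) ?_ (fun T hT x hx => ?_) h4).mono hs)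
      · exact (card_biUnion_le_card_mul _ _ _ hD).trans (Nat.mul_le_mul_right _ h𝒞)
      · exact hw ▸ card_le_pow GC V fun T hT => (hG T (hs hT)).2
      · exact det_ne hcell (fun D hD => subset_biUnion_of_mem id hD) (hG T (hs hT)).2
          (mem_filter.1 hT).2.1 (mem_filter.1 hT).2.2 x hx
    refine (not_lt.1 h4).trans (mul_le_mul ?_ (hsh GC hs) (Nat.cast_nonneg _) (by positivity))
    exact mul_le_mul_of_nonneg_left (hlog w hw1) (Nat.cast_nonneg _)
  have e3 : ∀ D ∈ 𝒞, ((GD D).card : ℝ) ≤ C * (ρ ^ ((d : ℝ) + ε) * (w : ℝ) ^ ((d : ℝ) + ε)) := by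
    intro D hD
    have hs : cross V R X D ⊆ V := (filter_subset _ _).trans sdiff_subset
    have h4 := hcross D hD
    have h5 : (cross V R X D).card < w := by
      have : ((cross V R X D).card : ℝ) < w := h4.trans_lt (mul_lt_of_lt_one_left hw0 hρ1)
      exact_mod_cast this
    have h6 := ih _ h5 (cross V R X D) rfl (GD D) (fun Z hZ => hX Z (hZ.trans hs))
      (fun Z hZ => hH Z (hZ.trans hs))
      (fun T hT => ⟨(hG T (mem_filter.1 hT).1).1, (mem_filter.1 hT).2⟩)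
      fun h6 => hCl (h6.mono (filter_subset _ _))
    refine h6.trans (mul_le_mul_of_nonneg_left ?_ hC0)
    rw [← Real.mul_rpow hρ0.le hw0.le]
    exact Real.rpow_le_rpow (Nat.cast_nonneg _) h4 he0
  have e4 : ∑ D ∈ 𝒞, ((GD D).card : ℝ) ≤ 1 / 2 * (C * (w : ℝ) ^ ((d : ℝ) + ε)) := by
    refine (sum_le_card_nsmul _ _ _ e3).trans ?_
    have h4 : (𝒞.card : ℝ) ≤ N0 := by exact_mod_cast h𝒞
    rw [nsmul_eq_mul]
    calc _ ≤ N0 * (C * (ρ ^ ((d : ℝ) + ε) * (w : ℝ) ^ ((d : ℝ) + ε))) :=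
          mul_le_mul_of_nonneg_right h4 (by positivity)
      _ = N0 * ρ ^ ((d : ℝ) + ε) * (C * (w : ℝ) ^ ((d : ℝ) + ε)) := by ring
      _ ≤ _ := mul_le_mul_of_nonneg_right hN0 (by positivity)
  rw [hpow] at e4 ⊢
  rw [hC] at e4 ⊢
  linarith

end Pool.Agent.P.MP_1f07eb_co.N
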