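import Pool.Agent.P.MP_1f07eb_co.N.St

set_option autoImplicit false

namespace Pool.Agent.P.MP_1f07eb_co.N

open Finset Matrix

namespace NearP

variable {ι : Type} [Fintype ι] [DecidableEq ι]

theorem inv_bd (A : Matrix ι ι ℝ) (B : ℝ) (hB : 1 ≤ B) (hA : ∀ i l, |A i l| ≤ B)
    (hd : 1 ≤ |A.det|) (i l : ι) :
    |A⁻¹ i l| ≤ ((Fintype.card ι).factorial : ℝ) * B ^ Fintype.card ι := by
  have h1 : |A.adjugate i l| ≤ ((Fintype.card ι).factorial : ℝ) * B ^ Fintype.card ι := by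
    rw [Matrix.adjugate_apply]
    have := Matrix.det_le (A := A.updateRow l (Pi.single i 1)) (abv := AbsoluteValue.abs)
      (x := B) (by
        intro a b
        simp only [AbsoluteValue.abs_apply]
        by_cases ha : a = l
        · subst ha
          rw [Matrix.updateRow_self]
          by_cases hb : b = i
          · subst hb; simpa using hB
          · rw [Pi.single_eq_of_ne hb]; simp; linarith
        · rw [Matrix.updateRow_ne ha]; exact hA a b)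
    simpa [nsmul_eq_mul] using this
  rw [Matrix.inv_def, Matrix.smul_apply, smul_eq_mul, Ring.inverse_eq_inv', abs_mul, abs_inv]
  have h2 : |A.det|⁻¹ ≤ 1 := inv_le_one_of_one_le₀ hd
  have h3 : 0 ≤ |A.adjugate i l| := abs_nonneg _
  nlinarith

omit [DecidableEq ι] in
theorem vm_bd (z : ι → ℝ) (M : Matrix ι ι ℝ) (a b : ℝ) (hz : ∀ i, |z i| ≤ a)
    (hM : ∀ i l, |M i l| ≤ b) (l : ι) : |(z ᵥ* M) l| ≤ (Fintype.card ι : ℝ) * (a * b) := by
  have : (z ᵥ* M) l = ∑ i, z i * M i l := rfl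
  rw [this]
  refine (Finset.abs_sum_le_sum_abs _ _).trans ?_
  calc ∑ i, |z i * M i l| ≤ ∑ _i : ι, a * b := by
        refine Finset.sum_le_sum fun i _ => ?_
        rw [abs_mul]
        exact mul_le_mul (hz i) (hM i l) (abs_nonneg _) ((abs_nonneg _).trans (hz i))
    _ = _ := by simp

theorem core (A P : Matrix ι ι ℝ) (β ζ : ℝ) (hd : 1 ≤ |A.det|) (hA : ∀ i l, |A⁻¹ i l| ≤ β)
    (hP : ∀ i l, |P i l| ≤ 1) (x : ι → ℝ) (i : ι) (hx : ∀ l, |x l - A i l| ≤ ζ) (l : ι) :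
    |(x ᵥ* (A⁻¹ * P)) l - P i l| ≤ (Fintype.card ι : ℝ) ^ 2 * (ζ * β) := by
  have hu : IsUnit A.det := by
    refine isUnit_iff_ne_zero.2 fun h => ?_
    rw [h, abs_zero] at hd; linarith
  have h1 : A i ᵥ* (A⁻¹ * P) = P i := by
    have : A i ᵥ* (A⁻¹ * P) = (A * (A⁻¹ * P)) i := rfl
    rw [this, ← Matrix.mul_assoc, Matrix.mul_nonsing_inv A hu, Matrix.one_mul]
  have h2 : x ᵥ* (A⁻¹ * P) = P i + ((x - A i) ᵥ* A⁻¹) ᵥ* P := by
    rw [Matrix.vecMul_vecMul, Matrix.sub_vecMul, h1]; abel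
  rw [h2, Pi.add_apply, add_sub_cancel_left]
  have h3 := vm_bd ((x - A i) ᵥ* A⁻¹) P ((Fintype.card ι : ℝ) * (ζ * β)) 1
    (fun j => vm_bd (x - A i) A⁻¹ ζ β hx hA j) hP l
  calc _ ≤ _ := h3
    _ = _ := by ring

theorem fl_near {a b ζ : ℝ} (hζ : 0 < ζ) (h : ⌊a / ζ⌋ = ⌊b / ζ⌋) : |a - b| ≤ ζ := by
  have h1 := Int.abs_sub_lt_one_of_floor_eq_floor h
  rw [← sub_div, abs_div, abs_of_pos hζ, div_lt_one hζ] at h1
  exact h1.le

theorem fl_mem {a B ζ : ℝ} (hζ : 0 < ζ) (h : |a| ≤ B) :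
    ⌊a / ζ⌋ ∈ Finset.Icc (-((⌈B / ζ⌉₊ : ℕ) : ℤ)) ((⌈B / ζ⌉₊ : ℕ) : ℤ) := by
  have h1 : B / ζ ≤ (⌈B / ζ⌉₊ : ℝ) := Nat.le_ceil _
  have h2 : a / ζ ≤ B / ζ := div_le_div_of_nonneg_right (le_of_abs_le h) hζ.le
  have h3 : -B / ζ ≤ a / ζ := div_le_div_of_nonneg_right (neg_le_of_abs_le h) hζ.le
  rw [neg_div] at h3
  rw [Finset.mem_Icc]
  constructor
  · rw [Int.le_floor]; push_cast; linarith
  · have := Int.floor_le (a / ζ)
    have h4 : ((⌊a / ζ⌋ : ℤ) : ℝ) ≤ (((⌈B / ζ⌉₊ : ℕ) : ℤ) : ℝ) := by push_cast; linarith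
    exact_mod_cast h4

end NearP

open NearP in
theorem near : S_Near := by
  intro ι _ _ B η hη h60
  set d := Fintype.card ι with hd
  set B1 := max B 1 with hB1
  have hB1' : 1 ≤ B1 := le_max_right _ _
  set β : ℝ := (d.factorial : ℝ) * B1 ^ d with hβ
  have hβ0 : 0 ≤ β := by positivity
  set ζ : ℝ := η / (10 * ((d : ℝ) ^ 2 * β) + 1) with hζ
  have hden : 0 < 10 * ((d : ℝ) ^ 2 * β) + 1 := by positivity
  have hζ0 : 0 < ζ := div_pos hη hden
  have hζ1 : (d : ℝ) ^ 2 * (ζ * β) ≤ η / 10 := by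
    have e : ζ * (10 * ((d : ℝ) ^ 2 * β) + 1) = η := div_mul_cancel₀ _ hden.ne'
    nlinarith
  set Kz : ℕ := ⌈B1 / ζ⌉₊ with hKz
  refine ⟨((2 * Kz + 1) ^ d) ^ d, ?_⟩
  intro α _ G X lam hlam hX hdet hG
  obtain ⟨b, -, hb⟩ := Dense.pigeon hlam (fun T : ι → α => fun i l => ⌊X i (T i) l / ζ⌋)
    (Fintype.piFinset fun _ : ι => Fintype.piFinset fun _ : ι => Finset.Icc (-(Kz : ℤ)) Kz)
    (fun T hT => by
      simp only [Fintype.mem_piFinset]
      intro i l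
      exact fl_mem hζ0 ((hX T hT i l).trans (le_max_left _ _)))
    (by
      have : (Finset.Icc (-(Kz : ℤ)) Kz).card = 2 * Kz + 1 := by
        rw [Int.card_Icc]; omega
      simp only [Fintype.card_piFinset, this, Finset.prod_const, Finset.card_univ]
      exact le_rfl) hG
  set G' := G.filter fun T => (fun i l => ⌊X i (T i) l / ζ⌋) = b with hG'
  obtain ⟨T0, hT0⟩ := hb.nonempty hlam
  obtain ⟨hT0G, hT0b⟩ := Finset.mem_filter.1 hT0
  set P : Matrix ι ι ℝ := Matrix.of fun l l' => if l = l' then 1 else 3 * η / 2 with hP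
  set M : Matrix ι ι ℝ := (mat X T0)⁻¹ * P with hM
  have key : ∀ i, ∀ v ∈ verts G' i, η ≤ 1 / 60 ∧ ∀ l, |(X i v ᵥ* M) l - P i l| ≤ η / 10 := by
    intro i v hv
    have hd1 : (1 : ℝ) ≤ d := by
      have : 0 < d := Fintype.card_pos_iff.2 ⟨i⟩
      exact_mod_cast this
    have hη1 : η ≤ 1 / 60 := by nlinarith
    refine ⟨hη1, fun l => ?_⟩
    obtain ⟨T, hT, rfl⟩ := mem_verts.1 hv
    obtain ⟨-, hTb⟩ := Finset.mem_filter.1 hT
    refine (core (mat X T0) P β ζ (hdet T0 hT0G)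
      (inv_bd _ B1 hB1' (fun a c => (hX T0 hT0G a c).trans (le_max_left _ _)) (hdet T0 hT0G))
      (fun a c => ?_) _ i (fun c => ?_) l).trans hζ1
    · simp only [hP, Matrix.of_apply]
      split_ifs
      · simp
      · rw [abs_of_pos (by positivity)]; linarith
    · refine fl_near hζ0 ?_
      have := congrFun (congrFun (hTb.trans hT0b.symm) i) c
      exact this
  have hdiag : ∀ i, ∀ v ∈ verts G' i, 1 - η / 10 ≤ (X i v ᵥ* M) i ∧ (X i v ᵥ* M) i ≤ 1 + η / 10 := by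
    intro i v hv
    have := (key i v hv).2 i
    simp only [hP, Matrix.of_apply, if_true] at this
    constructor
    · linarith [neg_le_of_abs_le this]
    · linarith [le_of_abs_le this]
  have hpos : ∀ i, ∀ v ∈ verts G' i, 0 < (X i v ᵥ* M) i := by
    intro i v hv
    have := (hdiag i v hv).1
    have := (key i v hv).1
    linarith
  refine ⟨G', Finset.filter_subset _ _, fun i v => ((X i v ᵥ* M) i)⁻¹, M, hb, ?_, ?_⟩
  · intro T hT i
    exact inv_pos.2 (hpos i _ (mem_verts.2 ⟨T, hT, rfl⟩))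
  · intro i v hv
    have h0 := hpos i v hv
    obtain ⟨h1, h2⟩ := hdiag i v hv
    obtain ⟨h3, h4⟩ := key i v hv
    refine ⟨?_, fun l hl => ?_⟩
    · simp only [tX, Pi.smul_apply, smul_eq_mul]
      exact inv_mul_cancel₀ h0.ne'
    · have h5 := h4 l
      simp only [hP, Matrix.of_apply, if_neg (Ne.symm hl)] at h5
      have h6 := neg_le_of_abs_le h5
      have h7 := le_of_abs_le h5
      simp only [tX, Pi.smul_apply, smul_eq_mul]
      rw [inv_mul_eq_div, le_div_iff₀ h0, div_le_iff₀ h0]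
      constructor <;> nlinarith

end Pool.Agent.P.MP_1f07eb_co.N
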