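import Pool.Agent.P.MP_1f07eb_co.N.St

set_option autoImplicit false

namespace Pool.Agent.P.MP_1f07eb_co.N

open Finset

namespace NetP

theorem prod_ite_card {m : ℕ} (K : Finset (Fin m)) (a b : ℕ) :
    ∏ i : Fin m, (if i ∈ K then a else b) = a ^ K.card * b ^ (m - K.card) := by
  classical
  rw [Finset.prod_ite]
  simp only [Finset.prod_const]
  have h1 : (Finset.univ.filter (fun i : Fin m => i ∈ K)) = K := by
    ext i; simp
  have h2 : (Finset.univ.filter (fun i : Fin m => i ∉ K)) = Kᶜ := by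
    ext i; simp
  rw [h1, h2, Finset.card_compl, Fintype.card_fin]

theorem count {α : Type} [DecidableEq α] (V : Finset α) (hV : V.Nonempty) (m p : ℕ) (ρ : ℝ)
    (hρ1 : ρ < 1) (K : Finset (Fin m)) (F : (Fin m → α) → Finset (Finset α))
    (hF : ∀ f g : Fin m → α, (∀ i ∈ K, f i = g i) → F f = F g)
    (hp : ∀ f, (F f).card ≤ p) (hA : ∀ f, ∀ A ∈ F f, A ⊆ V ∧ ρ * V.card < A.card) :
    (((Fintype.piFinset (fun _ : Fin m => V)).filter
      (fun f => ∃ A ∈ F f, ∀ i, i ∉ K → f i ∉ A)).card : ℝ) ≤
      (p : ℝ) * (V.card : ℝ) ^ m * (1 - ρ) ^ (m - K.card) := by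
  classical
  obtain ⟨v0, hv0⟩ := hV
  set G : Finset (Fin m → α) :=
    Fintype.piFinset (fun i : Fin m => if i ∈ K then V else {v0}) with hG
  have hGc : G.card = V.card ^ K.card := by
    rw [hG, Fintype.card_piFinset]
    have : ∀ i : Fin m, (if i ∈ K then V else ({v0} : Finset α)).card =
        if i ∈ K then V.card else 1 := by
      intro i; split_ifs <;> simp
    simp only [this]
    rw [prod_ite_card]; simp
  have hsub : (Fintype.piFinset (fun _ : Fin m => V)).filter
      (fun f => ∃ A ∈ F f, ∀ i, i ∉ K → f i ∉ A) ⊆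
      G.biUnion (fun g => (F g).biUnion (fun A =>
        Fintype.piFinset (fun i : Fin m => if i ∈ K then {g i} else V \ A))) := by
    intro f hf
    rw [Finset.mem_filter, Fintype.mem_piFinset] at hf
    obtain ⟨hfV, A, hAF, hfA⟩ := hf
    rw [Finset.mem_biUnion]
    refine ⟨fun i => if i ∈ K then f i else v0, ?_, ?_⟩
    · rw [hG, Fintype.mem_piFinset]
      intro i
      by_cases hi : i ∈ K
      · simp [hi, hfV i]
      · simp [hi]
    · rw [Finset.mem_biUnion]
      refine ⟨A, ?_, ?_⟩
      · rw [← hF f _ (fun i hi => by simp [hi])]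
        exact hAF
      · rw [Fintype.mem_piFinset]
        intro i
        by_cases hi : i ∈ K
        · simp [hi]
        · simp [hi, hfV i, hfA i hi]
  have hρ : (0 : ℝ) ≤ 1 - ρ := by linarith
  have hN : (0 : ℝ) ≤ V.card := Nat.cast_nonneg _
  have hfib : ∀ g : Fin m → α, ∀ A ∈ F g,
      ((Fintype.piFinset (fun i : Fin m => if i ∈ K then {g i} else V \ A)).card : ℝ) ≤
        ((1 - ρ) * V.card) ^ (m - K.card) := by
    intro g A hAg
    obtain ⟨hAV, hAc⟩ := hA g A hAg
    rw [Fintype.card_piFinset]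
    have : ∀ i : Fin m, (if i ∈ K then ({g i} : Finset α) else V \ A).card =
        if i ∈ K then 1 else (V \ A).card := by
      intro i; split_ifs <;> simp
    simp only [this]
    rw [prod_ite_card]
    push_cast
    rw [one_pow, one_mul]
    apply pow_le_pow_left₀ (Nat.cast_nonneg _)
    have h1 : (V \ A).card + A.card = V.card := Finset.card_sdiff_add_card_eq_card hAV
    have h2 : ((V \ A).card : ℝ) + A.card = V.card := by exact_mod_cast h1
    nlinarith
  have hin : ∀ g : Fin m → α,
      (((F g).biUnion (fun A =>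
        Fintype.piFinset (fun i : Fin m => if i ∈ K then {g i} else V \ A))).card : ℝ) ≤
        p * ((1 - ρ) * V.card) ^ (m - K.card) := by
    intro g
    have h1 := Finset.card_biUnion_le (s := F g) (t := fun A =>
        Fintype.piFinset (fun i : Fin m => if i ∈ K then {g i} else V \ A))
    have h2 : (((F g).biUnion (fun A =>
        Fintype.piFinset (fun i : Fin m => if i ∈ K then {g i} else V \ A))).card : ℝ) ≤
        ∑ A ∈ F g, ((Fintype.piFinset
          (fun i : Fin m => if i ∈ K then {g i} else V \ A)).card : ℝ) := by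
      exact_mod_cast h1
    refine h2.trans ?_
    refine (Finset.sum_le_sum (hfib g)).trans ?_
    rw [Finset.sum_const, nsmul_eq_mul]
    apply mul_le_mul_of_nonneg_right
    · exact_mod_cast hp g
    · positivity
  have h3 := Finset.card_le_card hsub
  have h4 := Finset.card_biUnion_le (s := G) (t := fun g => (F g).biUnion (fun A =>
        Fintype.piFinset (fun i : Fin m => if i ∈ K then {g i} else V \ A)))
  have h5 : (((Fintype.piFinset (fun _ : Fin m => V)).filter
      (fun f => ∃ A ∈ F f, ∀ i, i ∉ K → f i ∉ A)).card : ℝ) ≤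
      ∑ g ∈ G, (((F g).biUnion (fun A =>
        Fintype.piFinset (fun i : Fin m => if i ∈ K then {g i} else V \ A))).card : ℝ) := by
    exact_mod_cast h3.trans h4
  refine h5.trans ?_
  refine (Finset.sum_le_sum (fun g _ => hin g)).trans ?_
  rw [Finset.sum_const, nsmul_eq_mul, hGc]
  have hK : K.card ≤ m := by
    simpa using Finset.card_le_univ K
  have h6 : (V.card : ℝ) ^ m = (V.card : ℝ) ^ K.card * (V.card : ℝ) ^ (m - K.card) := by
    rw [← pow_add]; congr 1; omega
  rw [h6, mul_pow]
  push_cast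
  apply le_of_eq
  ring

/-- the value named by a pattern entry -/
def val {α : Type} {m : ℕ} (R0 : Finset α) (f : Fin m → α) :
    Option (Fin m ⊕ R0) → Finset α
  | none => ∅
  | some (Sum.inl i) => {f i}
  | some (Sum.inr r) => {r.1}

theorem val_card {α : Type} {m : ℕ} (R0 : Finset α) (f : Fin m → α)
    (o : Option (Fin m ⊕ R0)) : (val R0 f o).card ≤ 1 := by
  rcases o with _ | (i | r) <;> simp [val]

/-- the set named by a pattern -/
def Zs {α : Type} [DecidableEq α] {m s : ℕ} (R0 : Finset α)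
    (z : Fin s → Option (Fin m ⊕ R0)) (f : Fin m → α) : Finset α :=
  Finset.univ.biUnion (fun k => val R0 f (z k))

theorem Zs_card {α : Type} [DecidableEq α] {m s : ℕ} (R0 : Finset α)
    (z : Fin s → Option (Fin m ⊕ R0)) (f : Fin m → α) : (Zs R0 z f).card ≤ s := by
  unfold Zs
  refine Finset.card_biUnion_le.trans ?_
  refine (Finset.sum_le_sum (fun k _ => val_card R0 f (z k))).trans ?_
  simp

/-- the index named by a pattern entry -/
def idx {α : Type} {m : ℕ} (R0 : Finset α) : Option (Fin m ⊕ R0) → Finset (Fin m)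
  | none => ∅
  | some (Sum.inl i) => {i}
  | some (Sum.inr _) => ∅

theorem idx_card {α : Type} {m : ℕ} (R0 : Finset α)
    (o : Option (Fin m ⊕ R0)) : (idx R0 o).card ≤ 1 := by
  rcases o with _ | (i | r) <;> simp [idx]

/-- the indices named by a pattern -/
def Ks {α : Type} {m s : ℕ} (R0 : Finset α)
    (z : Fin s → Option (Fin m ⊕ R0)) : Finset (Fin m) :=
  Finset.univ.biUnion (fun k => idx R0 (z k))

theorem Ks_card {α : Type} {m s : ℕ} (R0 : Finset α)
    (z : Fin s → Option (Fin m ⊕ R0)) : (Ks R0 z).card ≤ s := by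
  unfold Ks
  refine Finset.card_biUnion_le.trans ?_
  refine (Finset.sum_le_sum (fun k _ => idx_card R0 (z k))).trans ?_
  simp

theorem Zs_congr {α : Type} [DecidableEq α] {m s : ℕ} (R0 : Finset α)
    (z : Fin s → Option (Fin m ⊕ R0)) (f g : Fin m → α) (h : ∀ i ∈ Ks R0 z, f i = g i) :
    Zs R0 z f = Zs R0 z g := by
  unfold Zs
  refine Finset.biUnion_congr rfl (fun k _ => ?_)
  have hk : ∀ i ∈ idx R0 (z k), f i = g i := by
    intro i hi
    apply h
    unfold Ks
    rw [Finset.mem_biUnion]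
    exact ⟨k, Finset.mem_univ _, hi⟩
  generalize z k = o at hk
  rcases o with _ | (i | r)
  · rfl
  · have := hk i (by simp [idx])
    simp [val, this]
  · rfl

theorem exists_pat {α : Type} [DecidableEq α] {m s : ℕ} (R0 : Finset α) (f : Fin m → α)
    (Z : Finset α) (hZ : Z ⊆ R0 ∪ Finset.univ.image f) (hc : Z.card ≤ s) :
    ∃ z : Fin s → Option (Fin m ⊕ R0), Zs R0 z f = Z := by
  classical
  have h1 : ∀ x : Z, ∃ o : Option (Fin m ⊕ R0), val R0 f o = {x.1} := by
    intro x
    have hx := hZ x.2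
    rw [Finset.mem_union] at hx
    rcases hx with hx | hx
    · exact ⟨some (Sum.inr ⟨x.1, hx⟩), rfl⟩
    · rw [Finset.mem_image] at hx
      obtain ⟨i, _, hi⟩ := hx
      exact ⟨some (Sum.inl i), by simp [val, hi]⟩
  choose c hc' using h1
  refine ⟨fun k => if h : k.1 < Z.card then c (Z.equivFin.symm ⟨k.1, h⟩) else none, ?_⟩
  ext x
  unfold Zs
  rw [Finset.mem_biUnion]
  constructor
  · rintro ⟨k, _, hk⟩
    beta_reduce at hk
    by_cases h : k.1 < Z.card
    · rw [dif_pos h, hc', Finset.mem_singleton] at hk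
      rw [hk]
      exact (Z.equivFin.symm ⟨k.1, h⟩).2
    · rw [dif_neg h] at hk
      simp [val] at hk
  · intro hx
    have hlt := (Z.equivFin ⟨x, hx⟩).2
    refine ⟨⟨(Z.equivFin ⟨x, hx⟩).1, lt_of_lt_of_le hlt hc⟩, Finset.mem_univ _, ?_⟩
    beta_reduce
    rw [dif_pos hlt, hc', Finset.mem_singleton]
    simp

end NetP

open NetP in
theorem net : S_Net := by
  classical
  intro α _ V R0 B m s p ρ hV hR0 hρ0 hρ1 hp hBV hlt
  set Ω : Finset (Fin m → α) := Fintype.piFinset (fun _ : Fin m => V) with hΩ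
  set F : (Fin s → Option (Fin m ⊕ R0)) → (Fin m → α) → Finset (Finset α) :=
    fun z f => (B (Zs R0 z f)).filter (fun A => ρ * V.card < A.card) with hF
  set Bad : (Fin s → Option (Fin m ⊕ R0)) → Finset (Fin m → α) :=
    fun z => Ω.filter (fun f => ∃ A ∈ F z f, ∀ i, i ∉ Ks R0 z → f i ∉ A) with hBad
  have hρ : (0 : ℝ) ≤ 1 - ρ := by linarith
  have hNpos : (0 : ℝ) < V.card := by exact_mod_cast hV.card_pos
  have hB : ∀ z, ((Bad z).card : ℝ) ≤ (p : ℝ) * (V.card : ℝ) ^ m * (1 - ρ) ^ (m - s) := by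
    intro z
    have h1 := count V hV m p ρ hρ1 (Ks R0 z) (F z)
      (fun f g h => by simp only [hF]; rw [Zs_congr R0 z f g h])
      (fun f => (Finset.card_filter_le _ _).trans (hp _ (Zs_card R0 z f)))
      (fun f A hA => by
        simp only [hF, Finset.mem_filter] at hA
        exact ⟨hBV _ A hA.1, hA.2⟩)
    refine le_trans (le_of_eq ?_) (h1.trans ?_)
    · simp only [hBad, hΩ]
    · apply mul_le_mul_of_nonneg_left _ (by positivity)
      apply pow_le_pow_of_le_one hρ (by linarith)
      have := Ks_card R0 z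
      omega
  have hΩc : (Ω.card : ℝ) = (V.card : ℝ) ^ m := by
    rw [hΩ, Fintype.card_piFinset]; simp
  have hU : ((Finset.univ.biUnion Bad).card : ℝ) < Ω.card := by
    have h1 := Finset.card_biUnion_le (s := Finset.univ) (t := Bad)
    have h2 : ((Finset.univ.biUnion Bad).card : ℝ) ≤ ∑ z, ((Bad z).card : ℝ) := by
      exact_mod_cast h1
    have h3 := h2.trans (Finset.sum_le_sum (fun z _ => hB z))
    rw [Finset.sum_const, nsmul_eq_mul, Finset.card_univ] at h3
    have h4 : (Fintype.card (Fin s → Option (Fin m ⊕ R0)) : ℝ) = ((m : ℝ) + R0.card + 1) ^ s := by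
      simp
    rw [h4] at h3
    rw [hΩc]
    have h5 : (0 : ℝ) < (V.card : ℝ) ^ m := by positivity
    have h6 := mul_lt_mul_of_pos_right hlt h5
    calc _ ≤ _ := h3
      _ = (p : ℝ) * ((m : ℝ) + R0.card + 1) ^ s * (1 - ρ) ^ (m - s) * (V.card : ℝ) ^ m := by ring
      _ < 1 * (V.card : ℝ) ^ m := h6
      _ = _ := one_mul _
  have hU' : (Finset.univ.biUnion Bad).card < Ω.card := by exact_mod_cast hU
  obtain ⟨f, hfΩ, hf⟩ := Finset.exists_mem_notMem_of_card_lt_card hU'
  have hfV : ∀ i, f i ∈ V := Fintype.mem_piFinset.mp hfΩ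
  refine ⟨R0 ∪ Finset.univ.image f, Finset.subset_union_left, ?_, ?_, ?_⟩
  · apply Finset.union_subset hR0
    intro x hx
    rw [Finset.mem_image] at hx
    obtain ⟨i, _, rfl⟩ := hx
    exact hfV i
  · refine (Finset.card_union_le _ _).trans ?_
    have : (Finset.univ.image f).card ≤ m := by
      simpa using Finset.card_image_le (s := (Finset.univ : Finset (Fin m))) (f := f)
    omega
  · intro Z hZ hZc A hA hdis
    obtain ⟨z, hz⟩ := exists_pat R0 f Z hZ hZc
    by_contra hcon
    rw [not_le] at hcon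
    apply hf
    rw [Finset.mem_biUnion]
    refine ⟨z, Finset.mem_univ _, ?_⟩
    simp only [hBad, hF, Finset.mem_filter]
    refine ⟨hfΩ, A, ⟨by rw [hz]; exact hA, hcon⟩, fun i _ hi => ?_⟩
    exact Finset.disjoint_left.mp hdis hi
      (Finset.mem_union_right _ (Finset.mem_image_of_mem f (Finset.mem_univ i)))

end Pool.Agent.P.MP_1f07eb_co.N
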