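import Pool.Agent.P.MP_1f07eb_co.N.St

/-! A cycle of large entries forces a large principal minor. -/

set_option autoImplicit false

namespace Pool.Agent.P.MP_1f07eb_co.N

open Finset

namespace NullP

variable {ι : Type} [Fintype ι] [DecidableEq ι]

theorem core (A : ι → ι → ℝ) (J : Finset ι) (hJ : J.Nonempty) (h : ∀ i ∈ J, ∃ l ∈ J, A i l ≠ 0) :
    ∃ K : Finset ι, K.Nonempty ∧
      (Matrix.of fun i => if i ∈ K then A i else Pi.single i 1).det ≠ 0 := by
  classical
  obtain ⟨K, hK, hmin⟩ := exists_min_image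
    (univ.filter fun K : Finset ι => K.Nonempty ∧ ∀ i ∈ K, ∃ l ∈ K, A i l ≠ 0) card
    ⟨J, mem_filter.2 ⟨mem_univ _, hJ, h⟩⟩
  obtain ⟨-, hne, hsel⟩ := mem_filter.1 hK
  have inj : ∀ f : ι → ι, (∀ i ∈ K, f i ∈ K ∧ A i (f i) ≠ 0) → Set.InjOn f K := by
    intro f hf
    refine card_image_iff.1 (le_antisymm card_image_le (hmin _ (mem_filter.2
      ⟨mem_univ _, hne.image f, fun j hj => ?_⟩)))
    obtain ⟨i, hi, rfl⟩ := mem_image.1 hj
    exact ⟨_, mem_image_of_mem f (hf i hi).1, (hf _ (hf i hi).1).2⟩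
  obtain ⟨f, hf, hf'⟩ : ∃ f : ι → ι, (∀ i ∈ K, f i ∈ K ∧ A i (f i) ≠ 0) ∧ ∀ i ∉ K, f i = i := by
    choose! g hg using hsel
    exact ⟨fun i => if i ∈ K then g i else i, fun i hi => by simpa [hi] using hg i hi,
      fun i hi => by simp [hi]⟩
  have hinj : Function.Injective f := by
    intro i j e
    by_cases hi : i ∈ K <;> by_cases hj : j ∈ K
    · exact inj f hf hi hj e
    · rw [hf' j hj] at e; exact absurd (e ▸ (hf i hi).1) hj
    · rw [hf' i hi] at e; exact absurd (e ▸ (hf j hj).1) hi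
    · rwa [hf' i hi, hf' j hj] at e
  have hbij := Finite.injective_iff_bijective.1 hinj
  have uniq : ∀ i ∈ K, ∀ l ∈ K, A i l ≠ 0 → l = f i := by
    intro i hi l hl hA
    obtain ⟨j, rfl⟩ := hbij.2 l
    have hj : j ∈ K := by
      by_contra hj
      rw [hf' j hj] at hl
      exact hj hl
    by_contra hn
    have hji : j ≠ i := fun e => hn (by rw [e])
    refine hji (inj (Function.update f i (f j)) (fun a ha => ?_) hj hi ?_)
    · by_cases e : a = i
      · subst e; rw [Function.update_self]; exact ⟨hl, hA⟩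
      · rw [Function.update_of_ne e]; exact hf a ha
    · rw [Function.update_self, Function.update_of_ne hji]
  refine ⟨K, hne, ?_⟩
  rw [← Matrix.det_transpose, Matrix.det_apply', sum_eq_single (Equiv.ofBijective f hbij)]
  · refine mul_ne_zero (by simp) (prod_ne_zero_iff.2 fun i _ => ?_)
    by_cases hi : i ∈ K
    · simpa [hi] using (hf i hi).2
    · simp [hi, hf' i hi]
  · intro σ _ hσ
    by_contra hn
    have h1 := prod_ne_zero_iff.1 (right_ne_zero_of_mul hn)
    have h2 : ∀ i ∉ K, σ i = i := fun i hi => by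
      by_contra e
      exact h1 i (mem_univ i) (by simp [hi, e])
    refine hσ (Equiv.ext fun i => ?_)
    by_cases hi : i ∈ K
    · refine uniq i hi _ ?_ (by simpa [hi] using h1 i (mem_univ i))
      by_contra e
      exact e ((σ.injective (h2 _ e)).symm ▸ hi)
    · rw [h2 i hi]; exact (hf' i hi).symm
  · simp

end NullP

theorem null : S_Null := by
  intro ι _ _ γ hγ
  classical
  set S : Set (ι → ι → ℝ) := (Set.univ.pi fun _ => Set.univ.pi fun _ => Set.Icc (-1 : ℝ) 1) ∩
    ⋃ J : {J : Finset ι // J.Nonempty}, ⋂ i ∈ J.1, ⋃ l : J.1, {A | γ ≤ |A i l|} with hS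
  have hc : IsCompact S := (isCompact_univ_pi fun _ => isCompact_univ_pi fun _ =>
    isCompact_Icc).inter_right (isClosed_iUnion_of_finite fun J => isClosed_biInter fun i _ =>
      isClosed_iUnion_of_finite fun l => isClosed_le continuous_const (by fun_prop))
  have hmem : ∀ A, A ∈ S ↔ (∀ i l, |A i l| ≤ 1) ∧
      ∃ J : Finset ι, J.Nonempty ∧ ∀ i ∈ J, ∃ l ∈ J, γ ≤ |A i l| := by
    intro A
    simp [hS, abs_le, Pi.le_def, forall_and]
  set P := univ.filter fun K : Finset ι => K.Nonempty with hP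
  have hcont : Continuous fun A : ι → ι → ℝ =>
      ∑ K ∈ P, |(Matrix.of fun i => if i ∈ K then A i else Pi.single i 1).det| := by
    refine continuous_finsetSum _ fun K _ => (Continuous.matrix_det ?_).abs
    refine continuous_pi fun i => ?_
    change Continuous fun A : ι → ι → ℝ => if i ∈ K then A i else Pi.single i 1
    split_ifs
    exacts [continuous_apply i, continuous_const]
  obtain ⟨c, hc0, hcA⟩ := hc.exists_forall_le' hcont.continuousOn (a := 0) fun A hA => by
    obtain ⟨-, J, hJ, h⟩ := (hmem A).1 hA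
    obtain ⟨K, hK, hd⟩ := NullP.core A J hJ fun i hi =>
      let ⟨l, hl, e⟩ := h i hi
      ⟨l, hl, abs_pos.1 (hγ.trans_le e)⟩
    exact sum_pos' (fun _ _ => abs_nonneg _) ⟨K, mem_filter.2 ⟨mem_univ _, hK⟩, abs_pos.2 hd⟩
  refine ⟨c / (P.card + 1), by positivity, fun A h1 J hJ h2 => ?_⟩
  have hPn : P.Nonempty := ⟨J, mem_filter.2 ⟨mem_univ _, hJ⟩⟩
  obtain ⟨K, hK, h3⟩ := exists_le_of_sum_le (f := fun _ => c / (P.card + 1)) hPn
    (le_trans (by
      rw [sum_const, nsmul_eq_mul, mul_div_assoc', div_le_iff₀ (by positivity)]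
      nlinarith) (hcA A ((hmem A).2 ⟨h1, J, hJ, h2⟩)))
  exact ⟨K, (mem_filter.1 hK).2, h3⟩

end Pool.Agent.P.MP_1f07eb_co.N
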