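import Pool.Agent.P.MP_1f07eb_co.N.St

set_option autoImplicit false

namespace Pool.Agent.P.MP_1f07eb_co.N

open Filter

namespace ParP

theorem one_sub_pow_le {ρ : ℝ} (h1 : ρ ≤ 1) (k : ℕ) : (1 - ρ) ^ k ≤ Real.exp (-(ρ * k)) := by
  have h : 1 - ρ ≤ Real.exp (-ρ) := by
    have := Real.add_one_le_exp (-ρ)
    linarith
  calc (1 - ρ) ^ k ≤ Real.exp (-ρ) ^ k := pow_le_pow_left₀ (by linarith) h k
    _ = Real.exp (-(ρ * k)) := by rw [← Real.exp_nat_mul]; ring_nf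

theorem ev_small (C : ℝ) (a : ℕ) :
    ∀ᶠ t : ℕ in atTop, C * ((t : ℝ) ^ a * Real.exp (-(t : ℝ))) < 1 := by
  have h := (Real.tendsto_pow_mul_exp_neg_atTop_nhds_zero a).comp
    (tendsto_natCast_atTop_atTop (R := ℝ))
  have h2 := h.const_mul C
  rw [mul_zero] at h2
  exact h2.eventually (gt_mem_nhds one_pos)

end ParP

open ParP in
theorem par : S_Par := by
  intro d ε hd hε
  obtain ⟨n, rfl⟩ : ∃ n, d = n + 1 := ⟨d - 1, by omega⟩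
  obtain ⟨r0, hr0⟩ := exists_nat_ge (((n + 1 : ℕ) : ℝ) / ε)
  set r := r0 + 1 with hr
  have hrε : ((n + 1 : ℕ) : ℝ) ≤ (r : ℝ) * ε := by
    rw [div_le_iff₀ hε] at hr0
    have : (r : ℝ) = r0 + 1 := by rw [hr]; push_cast; ring
    rw [this]
    nlinarith
  set e : ℝ := ((n + 1 : ℕ) : ℝ) - 1 + ε with he
  set K : ℝ := 2 * 4 ^ (n + 1) * 2 ^ n * ((16 : ℝ) ^ (n + 1)) ^ e with hK
  have hev1 := ev_small ((4 : ℝ) ^ (2 * (n + 1) + 1) * 3 ^ (2 * (n + 1)) *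
    Real.exp (2 * ((n + 1 : ℕ) : ℝ))) ((r + 1) * (2 * (n + 1)))
  have hev2 : ∀ᶠ t : ℕ in atTop, 2 * K + 16 ^ (n + 1) + 2 * ((n + 1 : ℕ) : ℝ) + 1 ≤ (t : ℝ) :=
    (tendsto_natCast_atTop_atTop (R := ℝ)).eventually_ge_atTop _
  obtain ⟨t, ht1, ht2⟩ := (hev1.and hev2).exists
  have hK0 : 0 ≤ K := by rw [hK]; positivity
  have h16 : (0 : ℝ) < 16 ^ (n + 1) := by positivity
  have hn0 : (0 : ℝ) ≤ ((n + 1 : ℕ) : ℝ) := Nat.cast_nonneg _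
  have ht1' : (1 : ℝ) ≤ t := by linarith
  have ht0 : (0 : ℝ) < t := by linarith
  have htr : (t : ℝ) ≤ (t : ℝ) ^ r := by
    rw [hr, pow_succ]
    exact le_mul_of_one_le_left ht0.le (one_le_pow₀ ht1')
  have htr0 : (0 : ℝ) < (t : ℝ) ^ r := by positivity
  have hm : (t : ℝ) ≤ (t : ℝ) ^ (r + 1) := by
    rw [pow_succ]
    exact le_mul_of_one_le_left ht0.le (one_le_pow₀ ht1')
  have hρ1 : ((t : ℝ) ^ r)⁻¹ ≤ 1 := inv_le_one_of_one_le₀ (ht1'.trans htr)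
  have hρ0 : 0 < ((t : ℝ) ^ r)⁻¹ := inv_pos.2 htr0
  refine ⟨t ^ (r + 1), ((t : ℝ) ^ r)⁻¹, hρ0, ?_, ?_, ?_⟩
  · rw [← div_eq_mul_inv, div_lt_one htr0]
    linarith
  · have a1 : ((t ^ (r + 1) : ℕ) : ℝ) + ((n + 1 : ℕ) : ℝ) + 1 ≤ 3 * (t : ℝ) ^ (r + 1) := by
      rw [Nat.cast_pow]
      linarith
    have a2 : (((t ^ (r + 1) : ℕ) : ℝ) + ((n + 1 : ℕ) : ℝ) + 1) ^ (2 * (n + 1)) ≤
        3 ^ (2 * (n + 1)) * (t : ℝ) ^ ((r + 1) * (2 * (n + 1))) := by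
      rw [pow_mul (t : ℝ), ← mul_pow]
      exact pow_le_pow_left₀ (by positivity) a1 _
    have a3 : (1 - ((t : ℝ) ^ r)⁻¹) ^ (t ^ (r + 1) - 2 * (n + 1)) ≤
        Real.exp (2 * ((n + 1 : ℕ) : ℝ)) * Real.exp (-(t : ℝ)) := by
      refine (one_sub_pow_le hρ1 _).trans ?_
      rw [← Real.exp_add]
      refine Real.exp_le_exp.2 ?_
      have b1 : (t : ℝ) ^ (r + 1) - 2 * ((n + 1 : ℕ) : ℝ) ≤
          ((t ^ (r + 1) - 2 * (n + 1) : ℕ) : ℝ) := by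
        have : t ^ (r + 1) ≤ (t ^ (r + 1) - 2 * (n + 1)) + 2 * (n + 1) := by omega
        have h' : ((t ^ (r + 1) : ℕ) : ℝ) ≤
            (((t ^ (r + 1) - 2 * (n + 1)) + 2 * (n + 1) : ℕ) : ℝ) := Nat.cast_le.2 this
        rw [Nat.cast_add, Nat.cast_mul, Nat.cast_pow, Nat.cast_ofNat] at h'
        linarith
      have b2 := mul_le_mul_of_nonneg_left b1 hρ0.le
      have b3 : ((t : ℝ) ^ r)⁻¹ * (t : ℝ) ^ (r + 1) = t := by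
        rw [pow_succ (t : ℝ) r, ← mul_assoc, inv_mul_cancel₀ htr0.ne', one_mul]
      have b4 : ((t : ℝ) ^ r)⁻¹ * (2 * ((n + 1 : ℕ) : ℝ)) ≤ 2 * ((n + 1 : ℕ) : ℝ) :=
        mul_le_of_le_one_left (by positivity) hρ1
      rw [mul_sub, b3] at b2
      linarith
    have a4 : 0 ≤ (1 - ((t : ℝ) ^ r)⁻¹) ^ (t ^ (r + 1) - 2 * (n + 1)) :=
      pow_nonneg (by linarith) _
    refine lt_of_le_of_lt ?_ ht1
    calc (4 : ℝ) ^ (2 * (n + 1) + 1) *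
          (((t ^ (r + 1) : ℕ) : ℝ) + ((n + 1 : ℕ) : ℝ) + 1) ^ (2 * (n + 1)) *
          (1 - ((t : ℝ) ^ r)⁻¹) ^ (t ^ (r + 1) - 2 * (n + 1))
        ≤ (4 : ℝ) ^ (2 * (n + 1) + 1) *
          (3 ^ (2 * (n + 1)) * (t : ℝ) ^ ((r + 1) * (2 * (n + 1)))) *
          (Real.exp (2 * ((n + 1 : ℕ) : ℝ)) * Real.exp (-(t : ℝ))) := by
          gcongr
      _ = _ := by ring
  · rw [Nat.add_sub_cancel]
    have a1 : ((t ^ (r + 1) : ℕ) : ℝ) + ((n + 1 : ℕ) : ℝ) ≤ 2 * (t : ℝ) ^ (r + 1) := by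
      rw [Nat.cast_pow]
      linarith
    have a2 : (((t ^ (r + 1) : ℕ) : ℝ) + ((n + 1 : ℕ) : ℝ)) ^ n ≤
        2 ^ n * ((t : ℝ) ^ (r + 1)) ^ n := by
      rw [← mul_pow]
      exact pow_le_pow_left₀ (by positivity) a1 _
    have a3 : (((t : ℝ) ^ r)⁻¹) ^ e = (((t : ℝ) ^ r)⁻¹) ^ n * (((t : ℝ) ^ r)⁻¹) ^ ε := by
      have : e = (n : ℝ) + ε := by rw [he]; push_cast; ring
      rw [this, Real.rpow_add hρ0, Real.rpow_natCast]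
    have a4 : (((t : ℝ) ^ r)⁻¹) ^ ε ≤ ((t : ℝ) ^ (n + 1))⁻¹ := by
      rw [Real.inv_rpow htr0.le, ← Real.rpow_natCast (t : ℝ) r, ← Real.rpow_mul ht0.le,
        ← Real.rpow_natCast (t : ℝ) (n + 1)]
      exact inv_anti₀ (Real.rpow_pos_of_pos ht0 _) (Real.rpow_le_rpow_of_exponent_le ht1' hrε)
    have a5 : ((t : ℝ) ^ (r + 1)) ^ n * ((((t : ℝ) ^ r)⁻¹) ^ n * ((t : ℝ) ^ (n + 1))⁻¹) =
        (t : ℝ)⁻¹ := by
      rw [← mul_assoc, ← mul_pow]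
      have b3 : (t : ℝ) ^ (r + 1) * ((t : ℝ) ^ r)⁻¹ = t := by
        rw [pow_succ (t : ℝ) r, mul_comm, ← mul_assoc, inv_mul_cancel₀ htr0.ne', one_mul]
      rw [b3, pow_succ (t : ℝ) n]
      field_simp
    rw [Real.mul_rpow h16.le hρ0.le, a3]
    calc (2 : ℝ) * 4 ^ (n + 1) * (((t ^ (r + 1) : ℕ) : ℝ) + ((n + 1 : ℕ) : ℝ)) ^ n *
          (((16 : ℝ) ^ (n + 1)) ^ e * ((((t : ℝ) ^ r)⁻¹) ^ n * (((t : ℝ) ^ r)⁻¹) ^ ε))
        ≤ (2 : ℝ) * 4 ^ (n + 1) * (2 ^ n * ((t : ℝ) ^ (r + 1)) ^ n) *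
          (((16 : ℝ) ^ (n + 1)) ^ e * ((((t : ℝ) ^ r)⁻¹) ^ n * ((t : ℝ) ^ (n + 1))⁻¹)) := by
          gcongr
      _ = K * (((t : ℝ) ^ (r + 1)) ^ n * ((((t : ℝ) ^ r)⁻¹) ^ n * ((t : ℝ) ^ (n + 1))⁻¹)) := by
          rw [hK]; ring
      _ = K / t := by rw [a5, div_eq_mul_inv]
      _ ≤ 1 / 2 := by
          rw [div_le_iff₀ ht0]
          linarith

theorem lgBound : S_Log := by
  intro d A ε hε
  set δ : ℝ := ε / (A + 1) with hδ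
  have hδ0 : 0 < δ := by rw [hδ]; positivity
  refine ⟨(2 * d / δ + 2) ^ A, by positivity, fun w hw => ?_⟩
  have hw1 : (1 : ℝ) ≤ w := by exact_mod_cast hw
  have hw0 : (0 : ℝ) < w := by linarith
  have h1 : (2 : ℝ) ^ Nat.log 2 (w ^ d) ≤ (w : ℝ) ^ d := by
    exact_mod_cast Nat.pow_log_le_self 2 (pow_pos hw d).ne'
  have h2 : (Nat.log 2 (w ^ d) : ℝ) * Real.log 2 ≤ d * Real.log w := by
    have := Real.log_le_log (by positivity) h1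
    rwa [Real.log_pow, Real.log_pow] at this
  have h3 : Real.log w ≤ (w : ℝ) ^ δ / δ := Real.log_le_rpow_div hw0.le hδ0
  have h4 : (1 : ℝ) / 2 ≤ Real.log 2 := by
    have := Real.log_two_gt_d9
    linarith
  have h5 : (1 : ℝ) ≤ (w : ℝ) ^ δ := Real.one_le_rpow hw1 hδ0.le
  have h6 : (Nat.log 2 (w ^ d) : ℝ) ≤ 2 * d / δ * (w : ℝ) ^ δ := by
    have b1 : (Nat.log 2 (w ^ d) : ℝ) * (1 / 2) ≤ (Nat.log 2 (w ^ d) : ℝ) * Real.log 2 :=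
      mul_le_mul_of_nonneg_left h4 (Nat.cast_nonneg _)
    have b2 : (d : ℝ) * Real.log w ≤ d * ((w : ℝ) ^ δ / δ) :=
      mul_le_mul_of_nonneg_left h3 (Nat.cast_nonneg _)
    have b3 : 2 * d / δ * (w : ℝ) ^ δ = 2 * (d * ((w : ℝ) ^ δ / δ)) := by ring
    linarith
  have h7 : Lg (w ^ d) ≤ (2 * d / δ + 2) * (w : ℝ) ^ δ := by
    unfold Lg
    rw [add_mul]
    linarith
  have h8 : ((w : ℝ) ^ δ) ^ A ≤ (w : ℝ) ^ ε := by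
    rw [← Real.rpow_natCast, ← Real.rpow_mul hw0.le]
    refine Real.rpow_le_rpow_of_exponent_le hw1 ?_
    rw [hδ, div_mul_eq_mul_div, div_le_iff₀ (by positivity)]
    nlinarith
  calc Lg (w ^ d) ^ A ≤ ((2 * d / δ + 2) * (w : ℝ) ^ δ) ^ A :=
        pow_le_pow_left₀ (le_trans (by norm_num) (two_le_Lg _)) h7 A
    _ = (2 * d / δ + 2) ^ A * ((w : ℝ) ^ δ) ^ A := mul_pow _ _ _
    _ ≤ _ := mul_le_mul_of_nonneg_left h8 (by positivity)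

end Pool.Agent.P.MP_1f07eb_co.N
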