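import Pool.Agent.P.MP_1f07eb_co.N.St

set_option autoImplicit false

namespace Pool.Agent.P.MP_1f07eb_co.N

open Finset Matrix

namespace ScaleP

theorem peel {ι : Type} [Fintype ι] (H : ι → ι → Prop) :
    (∃ ρ : ι → ℕ, (∀ i, ρ i ≤ Fintype.card ι) ∧ ∀ i l, H i l → ρ i < ρ l) ∨
      ∃ J : Finset ι, J.Nonempty ∧ ∀ i ∈ J, ∃ l ∈ J, H i l := by
  classical
  by_cases h : ∃ i, Relation.TransGen H i i
  · right
    obtain ⟨i, hi⟩ := h
    refine ⟨univ.filter fun j => Relation.TransGen H j j, ⟨i, by simpa using hi⟩, fun j hj => ?_⟩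
    obtain ⟨l, h1, h2⟩ := Relation.TransGen.head'_iff.1 (mem_filter.1 hj).2
    exact ⟨l, mem_filter.2 ⟨mem_univ _, Relation.TransGen.tail' h2 h1⟩, h1⟩
  · left
    refine ⟨fun i => (univ.filter fun j => Relation.TransGen H j i).card,
      fun i => card_le_univ _, fun i l hil => card_lt_card ⟨fun j hj => ?_, fun hs => ?_⟩⟩
    · exact mem_filter.2 ⟨mem_univ _, (mem_filter.1 hj).2.tail hil⟩
    · exact h ⟨i, (mem_filter.1 (hs (mem_filter.2
        ⟨mem_univ _, Relation.TransGen.single hil⟩))).2⟩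

theorem det_scaled {ι α : Type} [Fintype ι] [DecidableEq ι] (X : ι → α → ι → ℝ) (K : Finset ι)
    (T : ι → α) (t : ι → ℝ) (ht : ∀ i, 0 < t i) (L : ℝ) (A : ι → ι → ℝ)
    (hA : ∀ i ∈ K, ∀ l, A i l = X i (T i) l * t i / (L * t l)) :
    (Matrix.of fun i => if i ∈ K then A i else Pi.single i 1).det =
      L⁻¹ ^ K.card * (row X K T).det := by
  have e : (Matrix.of fun i => if i ∈ K then A i else Pi.single i 1 : Matrix ι ι ℝ) =
      Matrix.of fun i l => ((if i ∈ K then L⁻¹ else 1) * t i) *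
        (Matrix.of fun i l => (t l)⁻¹ * row X K T i l) i l := by
    ext i l
    by_cases hi : i ∈ K
    · simp only [Matrix.of_apply, row, if_pos hi, hA i hi, div_eq_mul_inv, mul_inv]
      ring
    · simp only [Matrix.of_apply, row, if_neg hi]
      by_cases hl : l = i
      · subst hl
        have := (ht l).ne'
        simp only [Pi.single_eq_same]
        field_simp
      · simp [Pi.single_eq_of_ne hl]
  rw [e, Matrix.det_mul_column, Matrix.det_mul_row, ← mul_assoc, ← prod_mul_distrib]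
  congr 1
  rw [prod_congr rfl (g := fun i => if i ∈ K then L⁻¹ else 1) (fun i _ => by
    have := (ht i).ne'
    field_simp)]
  simp

theorem step {ι α : Type} [Fintype ι] [DecidableEq ι] (U : ι → Finset α) (X : ι → α → ι → ℝ)
    (D c L : ℝ) (hc : 0 < c) (hL : 1 ≤ L) (hD : D < c * L)
    (hN : ∀ A : ι → ι → ℝ, (∀ i l, |A i l| ≤ 1) → ∀ J : Finset ι, J.Nonempty →
      (∀ i ∈ J, ∃ l ∈ J, (1 / 4 : ℝ) ^ (Fintype.card ι + 1) ≤ |A i l|) →
      ∃ K : Finset ι, K.Nonempty ∧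
        c ≤ |(Matrix.of fun i => if i ∈ K then A i else Pi.single i 1).det|)
    (hX : ∀ (J : Finset ι) (T : ι → α), (∀ i ∈ J, T i ∈ U i) → |(row X J T).det| ≤ D)
    (t : ι → ℝ) (ht : ∀ i, 0 < t i) (hb : ∀ i, ∀ v ∈ U i, ∀ l, |X i v l| * t i ≤ L * t l) :
    ∃ t' : ι → ℝ, (∀ i, 0 < t' i) ∧ ∀ i, ∀ v ∈ U i, ∀ l, |X i v l| * t' i ≤ L / 4 * t' l := by
  classical
  have hL0 : 0 < L := by linarith
  rcases peel (fun i l => ∃ v ∈ U i,
    (1 / 4 : ℝ) ^ (Fintype.card ι + 1) * (L * t l) ≤ |X i v l| * t i) with ⟨ρ, h1, h2⟩ | ⟨J, h1, h2⟩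
  · refine ⟨fun i => t i * 4 ^ ρ i, fun i => mul_pos (ht i) (by positivity), fun i v hv l => ?_⟩
    have hLt : 0 < L * t l := mul_pos hL0 (ht l)
    by_cases hh : (1 / 4 : ℝ) ^ (Fintype.card ι + 1) * (L * t l) ≤ |X i v l| * t i
    · have h3 : (4 : ℝ) ^ (ρ i + 1) ≤ 4 ^ ρ l :=
        pow_le_pow_right₀ (by norm_num) (h2 i l ⟨v, hv, hh⟩)
      have h4 := mul_le_mul_of_nonneg_right (hb i v hv l) (by positivity : (0 : ℝ) ≤ 4 ^ ρ i)
      have h5 := mul_le_mul_of_nonneg_left h3 hLt.le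
      rw [pow_succ] at h5
      nlinarith
    · have h3 : (4 : ℝ) ^ ρ i ≤ 4 ^ Fintype.card ι := pow_le_pow_right₀ (by norm_num) (h1 i)
      have h4 : (1 : ℝ) ≤ 4 ^ ρ l := one_le_pow₀ (by norm_num)
      have h5 : (1 / 4 : ℝ) ^ (Fintype.card ι + 1) * 4 ^ Fintype.card ι = 1 / 4 := by
        rw [pow_succ, mul_right_comm, ← mul_pow]; norm_num
      have h6 : |X i v l| * t i * 4 ^ ρ i ≤
          (1 / 4 : ℝ) ^ (Fintype.card ι + 1) * (L * t l) * 4 ^ Fintype.card ι :=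
        mul_le_mul (not_le.1 hh).le h3 (by positivity) (by positivity)
      rw [mul_right_comm ((1 / 4 : ℝ) ^ (Fintype.card ι + 1)), h5] at h6
      have h7 := mul_le_mul_of_nonneg_left h4 hLt.le
      nlinarith
  · exfalso
    obtain ⟨i0, hi0⟩ := h1
    obtain ⟨-, -, v0, -⟩ := h2 i0 hi0
    have h3 : ∀ i, ∃ v : α, i ∈ J → v ∈ U i ∧ ∃ l ∈ J,
        (1 / 4 : ℝ) ^ (Fintype.card ι + 1) * (L * t l) ≤ |X i v l| * t i := by
      intro i
      by_cases hi : i ∈ J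
      · obtain ⟨l, hl, v, hv, hh⟩ := h2 i hi
        exact ⟨v, fun _ => ⟨hv, l, hl, hh⟩⟩
      · exact ⟨v0, fun h => absurd h hi⟩
    choose T hT using h3
    have habs : ∀ i l, |X i (T i) l * t i / (L * t l)| = |X i (T i) l| * t i / (L * t l) := by
      intro i l
      rw [abs_div, abs_mul, abs_of_pos (ht i), abs_of_pos (mul_pos hL0 (ht l))]
    obtain ⟨K, hK, hc'⟩ := hN
      (fun i l => if i ∈ J then X i (T i) l * t i / (L * t l) else 0) (fun i l => by
        split_ifs with hi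
        · rw [habs, div_le_one (mul_pos hL0 (ht l))]
          exact hb i _ (hT i hi).1 l
        · simp) J ⟨i0, hi0⟩ (fun i hi => by
        obtain ⟨l, hl, hh⟩ := (hT i hi).2
        refine ⟨l, hl, ?_⟩
        rw [if_pos hi, habs, le_div_iff₀ (mul_pos hL0 (ht l))]
        exact hh)
    have hKJ : K ⊆ J := by
      intro k hk
      by_contra hkJ
      rw [Matrix.det_eq_zero_of_row_eq_zero k (fun l => by simp [hk, hkJ]), abs_zero] at hc'
      linarith
    rw [det_scaled X K T t ht L _ (fun i hi l => if_pos (hKJ hi)), abs_mul,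
      abs_of_pos (by positivity : 0 < L⁻¹ ^ K.card)] at hc'
    have h4 := hX K T fun i hi => (hT i (hKJ hi)).1
    have h5 : L⁻¹ ^ K.card ≤ L⁻¹ :=
      pow_le_of_le_one (by positivity) (inv_le_one_of_one_le₀ hL) hK.card_pos.ne'
    have h6 : c ≤ L⁻¹ * D :=
      hc'.trans (mul_le_mul h5 h4 (abs_nonneg _) (by positivity))
    rw [inv_mul_eq_div, le_div_iff₀ hL0] at h6
    linarith

end ScaleP

theorem scale (h : S_Null) : S_Scale := by
  intro ι _ _ D
  obtain ⟨c, hc, hN⟩ := h ι ((1 / 4 : ℝ) ^ (Fintype.card ι + 1)) (by positivity)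
  have hB1 : 1 ≤ max 1 (D / c) + 1 := by linarith [le_max_left 1 (D / c)]
  have hB2 : D < c * (max 1 (D / c) + 1) := by
    have h1 : D / c < max 1 (D / c) + 1 := by linarith [le_max_right 1 (D / c)]
    rw [div_lt_iff₀ hc] at h1
    linarith
  generalize max 1 (D / c) + 1 = B at hB1 hB2
  refine ⟨B, hB1, fun α _ U X hX => ?_⟩
  have key : ∀ n : ℕ, ∀ t : ι → ℝ, (∀ i, 0 < t i) →
      (∀ i, ∀ v ∈ U i, ∀ l, |X i v l| * t i ≤ 4 ^ n * B * t l) →
      ∃ t : ι → ℝ, (∀ i, 0 < t i) ∧ ∀ i, ∀ v ∈ U i, ∀ l, |X i v l| * t i ≤ B * t l := by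
    intro n
    induction n with
    | zero => intro t ht hb; exact ⟨t, ht, by simpa using hb⟩
    | succ n ih =>
      intro t ht hb
      have h1 : (1 : ℝ) ≤ 4 ^ (n + 1) := one_le_pow₀ (by norm_num)
      have h2 : B ≤ 4 ^ (n + 1) * B := by nlinarith
      obtain ⟨t', ht', hb'⟩ := ScaleP.step U X D c (4 ^ (n + 1) * B) hc (by linarith)
        (by nlinarith) hN hX t ht hb
      refine ih t' ht' fun i v hv l => (hb' i v hv l).trans (le_of_eq ?_)
      rw [pow_succ]; ring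
  obtain ⟨n, hn⟩ := pow_unbounded_of_one_lt (∑ i, ∑ v ∈ U i, ∑ l, |X i v l|)
    (by norm_num : (1 : ℝ) < 4)
  refine key n (fun _ => 1) (fun _ => one_pos) fun i v hv l => ?_
  have h1 : |X i v l| ≤ ∑ l, |X i v l| :=
    single_le_sum (f := fun l => |X i v l|) (fun _ _ => abs_nonneg _) (mem_univ l)
  have h2 : ∑ l, |X i v l| ≤ ∑ v ∈ U i, ∑ l, |X i v l| :=
    single_le_sum (f := fun v => ∑ l, |X i v l|)
      (fun _ _ => sum_nonneg fun _ _ => abs_nonneg _) hv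
  have h3 : ∑ v ∈ U i, ∑ l, |X i v l| ≤ ∑ i, ∑ v ∈ U i, ∑ l, |X i v l| :=
    single_le_sum (f := fun i => ∑ v ∈ U i, ∑ l, |X i v l|)
      (fun _ _ => sum_nonneg fun _ _ => sum_nonneg fun _ _ => abs_nonneg _) (mem_univ i)
  have h4 : (0 : ℝ) < 4 ^ n := by positivity
  nlinarith

end Pool.Agent.P.MP_1f07eb_co.N
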