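import Pool.Agent.P.MP_1f07eb_co.N.St

set_option autoImplicit false

namespace Pool.Agent.P.MP_1f07eb_co.N

open Finset Matrix

namespace StageP

variable {ι α : Type} [Fintype ι] [DecidableEq ι]

/-- the first two parts of the linear algebra statement, for fixed parameters -/
def LinA (ι : Type) [Fintype ι] (η : ℝ) : Prop :=
  ∀ ρ : ι → ι → ℝ, (∀ i, ρ i i = 1 ∧ ∀ l, l ≠ i → 0 ≤ ρ i l ∧ ρ i l ≤ 2 * η) →
    (∀ r : ι → ℝ, ∃ b : ι → ℝ, ∀ i, b ⬝ᵥ ρ i = r i) ∧
    ∀ (j : ι) (δ : ι → ℝ), (∀ i, i ≠ j → δ ⬝ᵥ ρ i = 0) →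
      (∀ l, l ≠ j → 30 * |δ l| ≤ |δ j|) ∧ (0 < δ j → 0 < δ ⬝ᵥ ρ j) ∧
        (δ j < 0 → δ ⬝ᵥ ρ j < 0) ∧ (δ j = 0 → δ = 0)

theorem row_in {X : ι → α → ι → ℝ} {J : Finset ι} {T : ι → α} {i : ι} (hi : i ∈ J)
    (δ : ι → ℝ) : δ ⬝ᵥ row X J T i = δ ⬝ᵥ X i (T i) := by
  have : row X J T i = X i (T i) := by
    funext l
    simp [row, hi]
  rw [this]

theorem row_out {X : ι → α → ι → ℝ} {J : Finset ι} {T : ι → α} {i : ι} (hi : i ∉ J)
    (δ : ι → ℝ) : δ ⬝ᵥ row X J T i = δ i := by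
  have : row X J T i = Pi.single i 1 := by
    funext l
    simp [row, hi]
  rw [this, dotProduct_single, mul_one]

omit [Fintype ι] in
theorem row_ok {η : ℝ} {U : ι → Finset α} {X : ι → α → ι → ℝ} (hη : 0 < η) (hG : Geo η U X)
    (J : Finset ι) (T : ι → α) (hT : ∀ i, T i ∈ U i) :
    ∀ i, row X J T i i = 1 ∧ ∀ l, l ≠ i → 0 ≤ row X J T i l ∧ row X J T i l ≤ 2 * η := by
  intro i
  by_cases hi : i ∈ J
  · have e : ∀ l, row X J T i l = X i (T i) l := fun l => by simp [row, hi]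
    obtain ⟨h1, h2⟩ := hG i (T i) (hT i)
    refine ⟨by rw [e, h1], fun l hl => ?_⟩
    rw [e]
    exact ⟨hη.le.trans (h2 l hl).1, (h2 l hl).2⟩
  · refine ⟨by simp [row, hi], fun l hl => ?_⟩
    have e : row X J T i l = 0 := by simp [row, hi, hl]
    rw [e]
    exact ⟨le_rfl, by positivity⟩

theorem exists_sol {η : ℝ} {U : ι → Finset α} {X : ι → α → ι → ℝ} (hL : LinA ι η) (hη : 0 < η)
    (hG : Geo η U X) (h : ι → α → ℝ) (J : Finset ι) (th : ι → ℝ) (T : ι → α)
    (hT : ∀ i, T i ∈ U i) : ∃ b, Sol X h J th T b := by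
  obtain ⟨b, hb⟩ := (hL _ (row_ok hη hG J T hT)).1
    (fun i => if i ∈ J then h i (T i) else th i)
  refine ⟨b, fun i hi => ?_, fun i hi => ?_⟩
  · have := hb i
    rw [row_in hi, if_pos hi] at this
    exact this
  · have := hb i
    rw [row_out hi, if_neg hi] at this
    exact this

theorem cmp {η : ℝ} {U : ι → Finset α} {X : ι → α → ι → ℝ} (hL : LinA ι η) (hη : 0 < η)
    (hG : Geo η U X) (J : Finset ι) (T : ι → α) (hT : ∀ i, T i ∈ U i) (j : ι) (δ : ι → ℝ)
    (h1 : ∀ i ∈ J, i ≠ j → δ ⬝ᵥ X i (T i) = 0) (h2 : ∀ i, i ∉ J → i ≠ j → δ i = 0) :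
    (∀ l, l ≠ j → 30 * |δ l| ≤ |δ j|) ∧ (0 < δ j → 0 < δ ⬝ᵥ row X J T j) ∧
      (δ j < 0 → δ ⬝ᵥ row X J T j < 0) ∧ (δ j = 0 → δ = 0) := by
  refine (hL _ (row_ok hη hG J T hT)).2 j δ fun i hi => ?_
  by_cases hJ : i ∈ J
  · rw [row_in hJ]
    exact h1 i hJ hi
  · rw [row_out hJ]
    exact h2 i hJ hi

theorem sol_unique {η : ℝ} {U : ι → Finset α} {X : ι → α → ι → ℝ} (hL : LinA ι η) (hη : 0 < η)
    (hG : Geo η U X) {h : ι → α → ℝ} {J : Finset ι} {th : ι → ℝ} {T : ι → α}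
    (hT : ∀ i, T i ∈ U i) {b b' : ι → ℝ} (hb : Sol X h J th T b) (hb' : Sol X h J th T b') :
    b = b' := by
  have e1 : ∀ i ∈ J, (b - b') ⬝ᵥ X i (T i) = 0 := fun i hi => by
    rw [sub_dotProduct, hb.1 i hi, hb'.1 i hi, sub_self]
  have e2 : ∀ i, i ∉ J → (b - b') i = 0 := fun i hi => by
    rw [Pi.sub_apply, hb.2 i hi, hb'.2 i hi, sub_self]
  funext j
  obtain ⟨_, hp, hn, _⟩ := cmp hL hη hG J T hT j (b - b') (fun i hi _ => e1 i hi)
    (fun i hi _ => e2 i hi)
  have e3 : (b - b') ⬝ᵥ row X J T j = 0 := by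
    by_cases hJ : j ∈ J
    · rw [row_in hJ]
      exact e1 j hJ
    · rw [row_out hJ]
      exact e2 j hJ
  rw [e3] at hp hn
  have h4 : ¬ 0 < (b - b') j := fun H => lt_irrefl _ (hp H)
  have h5 : ¬ (b - b') j < 0 := fun H => lt_irrefl _ (hn H)
  have h6 : (b - b') j = 0 := le_antisymm (not_lt.1 h4) (not_lt.1 h5)
  rw [Pi.sub_apply] at h6
  exact sub_eq_zero.1 h6

omit [Fintype ι] in
theorem out_erase {S : Finset ι} {c i : ι} (hi : i ∉ S.erase c) (hc : i ≠ c) : i ∉ S :=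
  fun H => hi (Finset.mem_erase.2 ⟨hc, H⟩)

/-- at most one bad value of the new coordinate for each degenerate triple -/
theorem bad_sub {η : ℝ} {U : ι → Finset α} {X : ι → α → ι → ℝ} (hL : LinA ι η) (hη : 0 < η)
    (hG : Geo η U X) {h : ι → α → ℝ} {S : Finset ι} {th : ι → ℝ} (hGP : GP X h U S th)
    (c : ι) {T : ι → α} (hT : ∀ i, T i ∈ U i) {l : ι} (hl : l ∈ S.erase c) {v : α}
    (hv : v ∈ U l) (hne : v ≠ T l) :
    {x : ℝ | ∃ b, Sol X h (S.erase c) (Function.update th c x) T b ∧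
      b ⬝ᵥ X l v = h l v}.Subsingleton := by
  rintro x1 ⟨b1, hs1, he1⟩ x2 ⟨b2, hs2, he2⟩
  by_contra hx
  have hx' : x2 - x1 ≠ 0 := fun H => hx (sub_eq_zero.1 H).symm
  obtain ⟨b0, hb0⟩ := exists_sol hL hη hG h S th T hT
  set t : ℝ := (b0 c - x1) / (x2 - x1) with ht
  have hcE : c ∉ S.erase c := Finset.notMem_erase c S
  have hc1 : b1 c = x1 := by rw [hs1.2 c hcE, Function.update_self]
  have hc2 : b2 c = x2 := by rw [hs2.2 c hcE, Function.update_self]
  have dot : ∀ w : ι → ℝ, (b1 + t • (b2 - b1)) ⬝ᵥ w = b1 ⬝ᵥ w + t * (b2 ⬝ᵥ w - b1 ⬝ᵥ w) :=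
    fun w => by rw [add_dotProduct, smul_dotProduct, sub_dotProduct, smul_eq_mul]
  have s1 : Sol X h (S.erase c) (Function.update th c (b0 c)) T (b1 + t • (b2 - b1)) := by
    refine ⟨fun i hi => ?_, fun i hi => ?_⟩
    · rw [dot, hs1.1 i hi, hs2.1 i hi, sub_self, mul_zero, add_zero]
    · rw [Pi.add_apply, Pi.smul_apply, Pi.sub_apply, smul_eq_mul]
      by_cases hic : i = c
      · subst hic
        rw [hc1, hc2, Function.update_self, ht]
        field_simp
        ring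
      · rw [hs1.2 i hi, hs2.2 i hi, Function.update_of_ne hic, Function.update_of_ne hic,
          Function.update_of_ne hic, sub_self, mul_zero, add_zero]
  have s0 : Sol X h (S.erase c) (Function.update th c (b0 c)) T b0 := by
    refine ⟨fun i hi => hb0.1 i (Finset.mem_of_mem_erase hi), fun i hi => ?_⟩
    by_cases hic : i = c
    · subst hic
      rw [Function.update_self]
    · rw [Function.update_of_ne hic]
      exact hb0.2 i (out_erase hi hic)
  have e := sol_unique hL hη hG hT s1 s0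
  refine hGP T hT b0 hb0 l (Finset.mem_of_mem_erase hl) v hv hne ?_
  rw [← e, dot, he1, he2, sub_self, mul_zero, add_zero]

/-- all but finitely many values of the new coordinate keep general position -/
theorem bad_finite {η : ℝ} {U : ι → Finset α} {X : ι → α → ι → ℝ} (hL : LinA ι η) (hη : 0 < η)
    (hG : Geo η U X) {h : ι → α → ℝ} {S : Finset ι} {th : ι → ℝ} (hGP : GP X h U S th)
    (c : ι) : {x : ℝ | ¬ GP X h U (S.erase c) (Function.update th c x)}.Finite := by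
  classical
  have hfin : (⋃ T ∈ (Fintype.piFinset U : Set (ι → α)), ⋃ l ∈ (S.erase c : Set ι),
      ⋃ v ∈ ((U l).erase (T l) : Set α),
        {x : ℝ | ∃ b, Sol X h (S.erase c) (Function.update th c x) T b ∧
          b ⬝ᵥ X l v = h l v}).Finite := by
    refine Set.Finite.biUnion (Finset.finite_toSet _) fun T hT => ?_
    refine Set.Finite.biUnion (Finset.finite_toSet _) fun l hl => ?_
    refine Set.Finite.biUnion (Finset.finite_toSet _) fun v hv => ?_
    have hT' : ∀ i, T i ∈ U i := Fintype.mem_piFinset.1 (Finset.mem_coe.1 hT)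
    have hv' := Finset.mem_erase.1 (Finset.mem_coe.1 hv)
    exact (bad_sub hL hη hG hGP c hT' (Finset.mem_coe.1 hl) hv'.2 hv'.1).finite
  refine hfin.subset fun x hx => ?_
  by_contra hcon
  refine hx fun T hT b hb l hl v hv hne heq => hcon ?_
  refine Set.mem_biUnion (Finset.mem_coe.2 (Fintype.mem_piFinset.2 hT)) ?_
  refine Set.mem_biUnion (Finset.mem_coe.2 hl) ?_
  refine Set.mem_biUnion (Finset.mem_coe.2 (Finset.mem_erase.2 ⟨hne, hv⟩)) ?_
  exact ⟨b, hb, heq⟩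

theorem exists_pt {B : Set ℝ} (hB : B.Finite) (u w : ℝ) :
    ∃ x, x ∉ B ∧ (u < w → u < x ∧ x < w) := by
  by_cases huw : u < w
  · obtain ⟨x, hx, hxB⟩ := (Set.Ioo_infinite huw).exists_notMem_finite hB
    exact ⟨x, hxB, fun _ => hx⟩
  · obtain ⟨x, _, hxB⟩ := (Set.infinite_univ (α := ℝ)).exists_notMem_finite hB
    exact ⟨x, hxB, fun H => absurd H huw⟩

theorem log_sq {m N : ℕ} (hm : m ≤ N * N) : (Nat.log 2 m : ℝ) + 1 ≤ 2 * Lg N := by
  have h1 : N < 2 ^ (Nat.log 2 N + 1) := Nat.lt_pow_succ_log_self (by norm_num) N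
  have h2 : m < 2 ^ (2 * Nat.log 2 N + 2) := by
    have e : 2 ^ (2 * Nat.log 2 N + 2) = 2 ^ (Nat.log 2 N + 1) * 2 ^ (Nat.log 2 N + 1) := by
      rw [← pow_add]
      congr 1
      ring
    rw [e]
    exact lt_of_le_of_lt hm (Nat.mul_lt_mul'' h1 h1)
  have h3 : Nat.log 2 m ≤ 2 * Nat.log 2 N + 2 := by
    have := Nat.log_mono_right (b := 2) h2.le
    rwa [Nat.log_pow (by norm_num)] at this
  have h4 : (Nat.log 2 m : ℝ) ≤ 2 * (Nat.log 2 N : ℝ) + 2 := by exact_mod_cast h3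
  unfold Lg
  linarith

end StageP

open StageP in
theorem stage (h1 : S_Lin) (h2 : S_Arm) (h3 : S_Dyad) : S_Stage := by
  intro ι α _ _ _ η U X h E G S th N lam hη hη' hGeo hGU hN hS hGP hinv hlam hD
  obtain ⟨hLA, hLB⟩ := h1 ι η hη hη'
  have hL : LinA ι η := hLA
  have hex : ∀ T : ι → α, ∃ b, (∀ i, T i ∈ U i) → Sol X h S th T b := by
    intro T
    by_cases hT : ∀ i, T i ∈ U i
    · obtain ⟨b, hb⟩ := exists_sol hL hη hGeo h S th T hT
      exact ⟨b, fun _ => hb⟩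
    · exact ⟨0, fun H => absurd H hT⟩
  choose a ha using hex
  have hLg := two_le_Lg N
  have hlam2 : 0 ≤ lam * (2 * Lg N) := mul_nonneg hlam (by linarith)
  have hD' : Dense (lam * (2 * Lg N) * (4 * Fintype.card ι * Lg N) + 1) G := by
    have e : lam * (2 * Lg N) * (4 * Fintype.card ι * Lg N) + 1
        = lam * (8 * Fintype.card ι * Lg N ^ 2) + 1 := by ring
    rw [e]
    exact hD
  have hA1 : ∀ T ∈ G, ∀ T' ∈ G, (∀ i ∈ S, T i = T' i) → a T = a T' := by
    intro T hT T' hT' hag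
    have s := ha T (hGU T hT)
    have s' := ha T' (hGU T' hT')
    refine sol_unique hL hη hGeo (hGU T hT) s ⟨fun i hi => ?_, s'.2⟩
    rw [hag i hi]
    exact s'.1 i hi
  have hA2 : ∀ T ∈ G, ∀ T' ∈ G, ∀ j ∈ S, (∀ i ∈ S, i ≠ j → T i = T' i) →
      (∀ l, l ≠ j → 30 * |a T' l - a T l| ≤ |a T' j - a T j|) ∧
        (a T j = a T' j → T j = T' j) := by
    intro T hT T' hT' j hj hag
    have s := ha T (hGU T hT)
    have s' := ha T' (hGU T' hT')
    obtain ⟨k1, _, _, k4⟩ := cmp hL hη hGeo S T (hGU T hT) j (a T' - a T)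
      (fun i hi hij => by
        rw [sub_dotProduct, s.1 i hi, hag i hi hij, s'.1 i hi, sub_self])
      (fun i hi _ => by rw [Pi.sub_apply, s.2 i hi, s'.2 i hi, sub_self])
    refine ⟨k1, fun he => ?_⟩
    have e : a T' - a T = 0 := k4 (by rw [Pi.sub_apply, he, sub_self])
    have e' : a T' = a T := sub_eq_zero.1 e
    by_contra hne
    refine hGP T (hGU T hT) (a T) s j hj (T' j) (hGU T' hT' j) (fun H => hne H.symm) ?_
    rw [← e']
    exact s'.1 j hj
  obtain ⟨c, hc, G1, hG1, top, hD1, htop, hstar⟩ :=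
    h2 ι α G S a N (lam * (2 * Lg N)) hlam2 hN hS hA1 hA2 hD'
  have hBad := bad_finite hL hη hGeo hGP c
  choose pt hpt using exists_pt hBad
  have hcard : ((G1 ×ˢ G1).image
      fun p : (ι → α) × (ι → α) => pt (a p.1 c) (a (top p.2) c)).card ≤ N * N := by
    refine Finset.card_image_le.trans ?_
    rw [Finset.card_product]
    have := (Finset.card_le_card hG1).trans hN
    exact Nat.mul_le_mul this this
  have hmem : ∀ P ∈ G1, ∀ Q ∈ G1, pt (a P c) (a (top Q) c) ∈ (G1 ×ˢ G1).image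
      fun p : (ι → α) × (ι → α) => pt (a p.1 c) (a (top p.2) c) := fun P hP Q hQ =>
    Finset.mem_image.2 ⟨(P, Q), Finset.mem_product.2 ⟨hP, hQ⟩, rfl⟩
  obtain ⟨x, hx, G', hG', hI, hDG'⟩ := h3 ι α G1 _
    (fun T x => a T c < x ∧ x < a (top T) c) lam (2 * Lg N) hlam (log_sq hcard)
    (fun T _ x y z hx hz hxy hyz => ⟨lt_of_lt_of_le hx.1 hxy, lt_of_le_of_lt hyz hz.2⟩)
    (fun T hT => ⟨_, hmem T hT T hT, (hpt _ _).2 (hstar T hT T hT c fun _ _ => rfl)⟩)
    (fun T hT T' hT' l hag => by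
      have q11 := hstar T hT T hT l fun _ _ => rfl
      have q12 := hstar T hT T' hT' l hag
      have q21 := hstar T' hT' T hT l fun i hi => (hag i hi).symm
      have q22 := hstar T' hT' T' hT' l fun _ _ => rfl
      rcases le_total (a T c) (a T' c) with u | u <;>
        rcases le_total (a (top T) c) (a (top T') c) with w | w
      · obtain ⟨r1, r2⟩ := (hpt _ _).2 q21
        exact ⟨_, hmem T' hT' T hT, ⟨lt_of_le_of_lt u r1, r2⟩, r1, lt_of_lt_of_le r2 w⟩
      · obtain ⟨r1, r2⟩ := (hpt _ _).2 q22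
        exact ⟨_, hmem T' hT' T' hT', ⟨lt_of_le_of_lt u r1, lt_of_lt_of_le r2 w⟩, r1, r2⟩
      · obtain ⟨r1, r2⟩ := (hpt _ _).2 q11
        exact ⟨_, hmem T hT T hT, ⟨r1, r2⟩, lt_of_le_of_lt u r1, lt_of_lt_of_le r2 w⟩
      · obtain ⟨r1, r2⟩ := (hpt _ _).2 q12
        exact ⟨_, hmem T hT T' hT', ⟨r1, lt_of_lt_of_le r2 w⟩, lt_of_le_of_lt u r1, r2⟩)
    hD1
  have hxGP : GP X h U (S.erase c) (Function.update th c x) := by
    obtain ⟨p, _, rfl⟩ := Finset.mem_image.1 hx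
    exact not_not.1 (hpt _ _).1
  have hcE : c ∉ S.erase c := Finset.notMem_erase c S
  have hoff : ∀ b : ι → ℝ, (∀ i, i ∉ S.erase c → b i = Function.update th c x i) →
      ∀ i, i ∉ S → b i = th i := by
    intro b hb i hi
    have hic : i ≠ c := fun H => hi (H ▸ hc)
    rw [hb i fun H => hi (Finset.mem_of_mem_erase H), Function.update_of_ne hic]
  -- monotonicity along the slice
  have hmono : ∀ T : ι → α, (∀ i, T i ∈ U i) → ∀ v ∈ U c, ∀ δ : ι → ℝ,
      (∀ i, i ∉ S.erase c → δ i = 0) → (∀ l ∈ S.erase c, 0 ≤ δ ⬝ᵥ X l (T l)) →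
      0 ≤ δ ⬝ᵥ X c v := by
    intro T hT v hv δ hδ0 hδ
    refine hLB (S.erase c) (fun l => X l (T l)) (X c v) δ (fun l _ => ?_) (fun l hl => ?_) hδ0 hδ
    · obtain ⟨g1, g2⟩ := hGeo l (T l) (hT l)
      exact ⟨g1, fun j hj => ⟨hη.le.trans (g2 j hj).1, (g2 j hj).2⟩⟩
    · exact (hGeo c v hv).2 l (Finset.mem_erase.1 hl).1
  refine ⟨c, hc, Function.update th c x, G', hG'.trans hG1, hxGP, fun T hT => ?_, hDG'⟩
  have hT1 : T ∈ G1 := hG' hT
  have hTG : T ∈ G := hG1 hT1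
  have hTU := hGU T hTG
  obtain ⟨hlo, hhi⟩ := hI T hT
  obtain ⟨a', ha'⟩ := exists_sol hL hη hGeo h (S.erase c) (Function.update th c x) T hTU
  have ha'c : a' c = x := by rw [ha'.2 c hcE, Function.update_self]
  have ha'off := hoff a' ha'.2
  constructor
  · obtain ⟨htG, hag⟩ := htop T hT1
    have htU := hGU _ htG
    have s := ha _ htU
    obtain ⟨T0, hT0, hT0S, hsrc⟩ := (hinv _ htG).1
    refine ⟨T0, hT0, fun i hi => ?_, fun b hb hle => ?_⟩
    · obtain ⟨hic, hiS⟩ := Finset.mem_erase.1 hi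
      rw [hT0S i hiS, hag i hiS hic]
    · obtain ⟨_, k2, _, _⟩ := cmp hL hη hGeo S (top T) htU c (a (top T) - a')
        (fun i hi hic => by
          rw [sub_dotProduct, s.1 i hi, hag i hi hic,
            ha'.1 i (Finset.mem_erase.2 ⟨hic, hi⟩), sub_self])
        (fun i hi _ => by rw [Pi.sub_apply, s.2 i hi, ha'off i hi, sub_self])
      have k := k2 (by rw [Pi.sub_apply, ha'c]; linarith)
      rw [row_in hc, sub_dotProduct, s.1 c hc] at k
      have m := hmono T hTU (top T c) (htU c) (a' - b)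
        (fun i hi => by rw [Pi.sub_apply, ha'.2 i hi, hb i hi, sub_self])
        (fun l hl => by
          rw [sub_dotProduct, ha'.1 l hl]
          exact sub_nonneg.2 (hle l hl))
      rw [sub_dotProduct] at m
      have hstrict : b ⬝ᵥ X c (top T c) < h c (top T c) := by linarith
      have hall := hsrc b (hoff b hb) fun i hi => by
        by_cases hic : i = c
        · rw [hic]
          exact hstrict.le
        · rw [hag i hi hic]
          exact hle i (Finset.mem_erase.2 ⟨hic, hi⟩)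
      intro i hi
      by_cases hic : i = c
      · rw [hic, hT0S c hc]
        exact hstrict
      · exact hall i (out_erase hi hic)
  · intro b hb hle
    have s := ha _ hTU
    obtain ⟨_, k2, _, _⟩ := cmp hL hη hGeo S T hTU c (a' - a T)
      (fun i hi hic => by
        rw [sub_dotProduct, s.1 i hi, ha'.1 i (Finset.mem_erase.2 ⟨hic, hi⟩), sub_self])
      (fun i hi _ => by rw [Pi.sub_apply, s.2 i hi, ha'off i hi, sub_self])
    have k := k2 (by rw [Pi.sub_apply, ha'c]; linarith)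
    rw [row_in hc, sub_dotProduct, s.1 c hc] at k
    have m := hmono T hTU (T c) (hTU c) (b - a')
      (fun i hi => by rw [Pi.sub_apply, ha'.2 i hi, hb i hi, sub_self])
      (fun l hl => by
        rw [sub_dotProduct, ha'.1 l hl]
        exact sub_nonneg.2 (hle l hl))
    rw [sub_dotProduct] at m
    have hstrict : h c (T c) < b ⬝ᵥ X c (T c) := by linarith
    have hall := (hinv T hTG).2 b (hoff b hb) fun i hi => by
      by_cases hic : i = c
      · rw [hic]
        exact hstrict.le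
      · exact hle i (Finset.mem_erase.2 ⟨hic, hi⟩)
    intro i hi
    by_cases hic : i = c
    · rw [hic]
      exact hstrict
    · exact hall i (out_erase hi hic)

end Pool.Agent.P.MP_1f07eb_co.N
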