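import Pool.Agent.P.MP_1f07eb_co.N.St

/-! Common thresholds for all colours on a dense subfamily. -/

set_option autoImplicit false

namespace Pool.Agent.P.MP_1f07eb_co.N

open Finset

namespace ThreshP

theorem aux (h : S_Dyad) {ι α : Type} [Fintype ι] [DecidableEq ι] [DecidableEq α]
    (G : Finset (ι → α)) (y : ι → α → ℝ) (D0 D1 : ℝ) (N : ℕ) (hN : G.card ≤ N) (hD : 0 ≤ D0)
    (hy : ∀ T ∈ G, ∀ i, 0 ≤ y i (T i)) (hp : ∀ T ∈ G, D0 * ∏ i, y i (T i) ≤ D1) (S : Finset ι) :
    ∀ lam : ℝ, 0 ≤ lam → Dense (lam * Lg N ^ S.card) G →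
      ∃ G' ⊆ G, ∃ Y : ι → ℝ, Dense lam G' ∧ ∀ T ∈ G', (∀ i ∈ S, y i (T i) ≤ Y i) ∧
        D0 * ∏ i, (if i ∈ S then Y i else y i (T i)) ≤ D1 := by
  induction S using Finset.induction_on with
  | empty =>
    intro lam _ hd
    exact ⟨G, Subset.rfl, 0, by simpa using hd, fun T hT => ⟨by simp, by simpa using hp T hT⟩⟩
  | insert c S hc ih =>
    intro lam hl hd
    have hL := two_le_Lg N
    obtain ⟨G1, h1, Y, hd1, hY⟩ := ih (lam * Lg N) (by positivity) (by
      rwa [card_insert_of_notMem hc, pow_succ', ← mul_assoc] at hd)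
    let rest : (ι → α) → ℝ := fun T =>
      D0 * ∏ i ∈ univ.erase c, (if i ∈ S then Y i else y i (T i))
    have hr0 : ∀ T ∈ G1, 0 ≤ rest T := fun T hT => mul_nonneg hD (prod_nonneg fun i _ => by
      split_ifs with hi
      exacts [(hy T (h1 hT) i).trans ((hY T hT).1 i hi), hy T (h1 hT) i])
    have hr1 : ∀ T ∈ G1, y c (T c) * rest T ≤ D1 := fun T hT => by
      have h2 := (hY T hT).2
      rw [← mul_prod_erase univ _ (mem_univ c), if_neg hc, mul_left_comm] at h2
      exact h2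
    have hΘ : ∀ T ∈ G1, y c (T c) ∈ G1.image fun T => y c (T c) := fun T hT =>
      mem_image_of_mem _ hT
    obtain ⟨x, -, G', h2, hI, hd2⟩ := h ι α G1 (G1.image fun T => y c (T c))
      (fun T x => y c (T c) ≤ x ∧ x * rest T ≤ D1) lam (Lg N) hl
      (by
        have h3 : Nat.log 2 (G1.image fun T => y c (T c)).card ≤ Nat.log 2 N :=
          Nat.log_mono_right (card_image_le.trans ((card_le_card h1).trans hN))
        have h4 : ((Nat.log 2 (G1.image fun T => y c (T c)).card : ℕ) : ℝ) ≤ Nat.log 2 N := by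
          exact_mod_cast h3
        unfold Lg
        linarith)
      (fun T hT a b d ha hd hab hbd => ⟨ha.1.trans hab,
        (mul_le_mul_of_nonneg_right hbd (hr0 T hT)).trans hd.2⟩)
      (fun T hT => ⟨_, hΘ T hT, le_rfl, hr1 T hT⟩)
      (fun T hT T' hT' l hl => by
        by_cases e : c = l
        · have h3 : rest T = rest T' := congrArg (D0 * ·) (prod_congr rfl fun i hi => by
            rw [hl i (e ▸ (mem_erase.1 hi).1)])
          rcases le_total (y c (T c)) (y c (T' c)) with h4 | h4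
          · exact ⟨_, hΘ T' hT', ⟨h4, h3 ▸ hr1 T' hT'⟩, le_rfl, hr1 T' hT'⟩
          · exact ⟨_, hΘ T hT, ⟨le_rfl, hr1 T hT⟩, h4, h3 ▸ hr1 T hT⟩
        · exact ⟨_, hΘ T hT, ⟨le_rfl, hr1 T hT⟩, (hl c e) ▸ le_rfl, (hl c e) ▸ hr1 T' hT'⟩)
      hd1
    refine ⟨G', h2.trans h1, Function.update Y c x, hd2, fun T hT => ⟨fun i hi => ?_, ?_⟩⟩
    · rcases mem_insert.1 hi with rfl | hi
      · simpa using (hI T hT).1
      · rw [Function.update_of_ne (ne_of_mem_of_not_mem hi hc)]
        exact (hY T (h2 hT)).1 i hi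
    · rw [← mul_prod_erase univ _ (mem_univ c), if_pos (mem_insert_self _ _),
        Function.update_self, mul_left_comm, prod_congr rfl
          (g := fun i => if i ∈ S then Y i else y i (T i)) fun i hi => by
            simp [(mem_erase.1 hi).1]]
      exact (hI T hT).2

end ThreshP

theorem thresh (h : S_Dyad) : S_Thresh := by
  intro ι α _ _ _ G y D0 D1 N lam hl hN hD hy hp hd
  obtain ⟨G', h1, Y, h2, h3⟩ := ThreshP.aux h G y D0 D1 N hN hD hy hp univ lam hl hd
  obtain ⟨T, hT⟩ := h2.nonempty hl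
  exact ⟨G', h1, Y, h2, fun T hT i => (h3 T hT).1 i (mem_univ i), by simpa using (h3 T hT).2⟩

end Pool.Agent.P.MP_1f07eb_co.N
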