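import Pool.Agent.P.MP_1f07eb_co.N.Dyad
import Pool.Agent.P.MP_1f07eb_co.N.Lin
import Pool.Agent.P.MP_1f07eb_co.N.Arm
import Pool.Agent.P.MP_1f07eb_co.N.Stage
import Pool.Agent.P.MP_1f07eb_co.N.GeoK
import Pool.Agent.P.MP_1f07eb_co.N.Thresh
import Pool.Agent.P.MP_1f07eb_co.N.Box
import Pool.Agent.P.MP_1f07eb_co.N.Null
import Pool.Agent.P.MP_1f07eb_co.N.Scale
import Pool.Agent.P.MP_1f07eb_co.N.Near
import Pool.Agent.P.MP_1f07eb_co.N.Gen
import Pool.Agent.P.MP_1f07eb_co.N.Good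
import Pool.Agent.P.MP_1f07eb_co.N.Net
import Pool.Agent.P.MP_1f07eb_co.N.Cells
import Pool.Agent.P.MP_1f07eb_co.N.Par
import Pool.Agent.P.MP_1f07eb_co.N.Cut
import Pool.Agent.P.MP_1f07eb_co.N.MainRec
import Pool.Agent.P.MP_1f07eb_co.N.Iface
import Pool.Agent.P.MP_1f07eb_co.N.Final

set_option autoImplicit false

namespace Pool.Agent.P.MP_1f07eb_co.N

theorem all_final : S_Final :=
  final
    (mainRec (cut net cells par)
      (good gen (box (thresh dyad)) (scale null) near (geoK (stage lin arm dyad))) lgBound)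
    iface

end Pool.Agent.P.MP_1f07eb_co.N
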