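import Pool.Agent.P.MP_1f07eb_co.N.St

set_option autoImplicit false

namespace Pool.Agent.P.MP_1f07eb_co.N

open Finset

namespace DyadP

theorem median (Θ : Finset ℝ) (hΘ : Θ.Nonempty) (a : ℕ) (ha : 0 < a) (h : Θ.card < 2 * a) :
    ∃ m ∈ Θ, (Θ.filter (· < m)).card < a ∧ (Θ.filter (m < ·)).card < a := by
  obtain ⟨m, hm, hmax⟩ := exists_max_image (Θ.filter fun m => (Θ.filter (· < m)).card < a)
    (fun x => x)
    ⟨Θ.min' hΘ, mem_filter.2 ⟨min'_mem _ _, by
      rwa [filter_eq_empty_iff.2 fun x hx => not_lt.2 (min'_le _ _ hx), card_empty]⟩⟩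
  refine ⟨m, (mem_filter.1 hm).1, (mem_filter.1 hm).2, ?_⟩
  rcases (Θ.filter (m < ·)).eq_empty_or_nonempty with e | hn
  · rwa [e, card_empty]
  · obtain ⟨m', hm', hmin⟩ := exists_min_image _ (fun x => x) hn
    have h1 : a ≤ (Θ.filter (· < m')).card := not_lt.1 fun c =>
      not_le.2 (mem_filter.1 hm').2 (hmax m' (mem_filter.2 ⟨(mem_filter.1 hm').1, c⟩))
    have h2 := card_le_card (union_subset (filter_subset (· < m') Θ) (filter_subset (m < ·) Θ))
    rw [card_union_of_disjoint (disjoint_left.2 fun x hx hx' =>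
      not_le.2 (mem_filter.1 hx).2 (hmin x hx'))] at h2
    omega

variable {ι α : Type} [Fintype ι] [DecidableEq ι] [DecidableEq α]

theorem sh_add {G A B : Finset (ι → α)} (hA : A ⊆ G) (hB : B ⊆ G)
    (h : ∀ T ∈ A, ∀ T' ∈ B, ∀ l, ¬∀ i, i ≠ l → T i = T' i) : sh A + sh B ≤ sh G := by
  unfold sh
  rw [← sum_add_distrib]
  refine sum_le_sum fun l _ => ?_
  rw [← card_union_of_disjoint (disjoint_left.2 fun r h1 h2 => by
    obtain ⟨T, hT, rfl⟩ := mem_image.1 h1
    obtain ⟨T', hT', e⟩ := mem_image.1 h2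
    exact h T hT T' hT' l ((ridge_eq_iff l T T').1 e.symm))]
  exact card_le_card (union_subset (image_subset_image hA) (image_subset_image hB))

theorem main (I : (ι → α) → ℝ → Prop) (lam : ℝ) (hl : 0 ≤ lam) : ∀ (k : ℕ) (Θ : Finset ℝ)
    (G : Finset (ι → α)), Θ.card < 2 ^ k →
    (∀ T ∈ G, ∀ x y z : ℝ, I T x → I T z → x ≤ y → y ≤ z → I T y) →
    (∀ T ∈ G, ∃ x ∈ Θ, I T x) →
    (∀ T ∈ G, ∀ T' ∈ G, ∀ l : ι, (∀ i, i ≠ l → T i = T' i) → ∃ x ∈ Θ, I T x ∧ I T' x) →
    (∀ x ∈ Θ, ∀ G' ⊆ G, (∀ T ∈ G', I T x) → (G'.card : ℝ) ≤ lam * sh G') →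
    (G.card : ℝ) ≤ lam * k * sh G := by
  classical
  intro k
  induction k with
  | zero =>
    intro Θ G h0 _ h2 _ _
    obtain rfl : Θ = ∅ := card_eq_zero.1 (by simpa using h0)
    rw [eq_empty_of_forall_notMem (s := G) fun T hT => by simpa using h2 T hT, card_empty]
    simp
  | succ k ih =>
    intro Θ G h0 h1 h2 h3 h4
    rcases Θ.eq_empty_or_nonempty with rfl | hΘ
    · rw [eq_empty_of_forall_notMem (s := G) fun T hT => by simpa using h2 T hT, card_empty,
        Nat.cast_zero]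
      positivity
    obtain ⟨m, hm, c1, c2⟩ := median Θ hΘ (2 ^ k) (by positivity) (by rwa [← pow_succ'])
    set A := G.filter fun T => ¬I T m ∧ ∃ x ∈ Θ, x < m ∧ I T x with hA
    set B := G.filter fun T => ¬I T m ∧ ∃ x ∈ Θ, m < x ∧ I T x with hB
    have sA : A ⊆ G := filter_subset _ _
    have sB : B ⊆ G := filter_subset _ _
    have a1 : ∀ T ∈ A, ∀ x, I T x → x < m := fun T hT x hx => not_le.1 fun c => by
      obtain ⟨t1, t2, y, -, t3, t4⟩ := mem_filter.1 hT
      exact t2 (h1 T t1 y m x t4 hx t3.le c)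
    have b1 : ∀ T ∈ B, ∀ x, I T x → m < x := fun T hT x hx => not_le.1 fun c => by
      obtain ⟨t1, t2, y, -, t3, t4⟩ := mem_filter.1 hT
      exact t2 (h1 T t1 x m y hx t4 c t3.le)
    have sub : ∀ (C : Finset (ι → α)) (p : ℝ → Prop) [DecidablePred p], C ⊆ G →
        (∀ T ∈ C, ∀ x, I T x → p x) → (Θ.filter p).card < 2 ^ k →
        (C.card : ℝ) ≤ lam * k * sh C := fun C p _ sC hp c =>
      ih _ C c (fun T hT => h1 T (sC hT))
        (fun T hT => let ⟨x, x1, x2⟩ := h2 T (sC hT); ⟨x, mem_filter.2 ⟨x1, hp T hT x x2⟩, x2⟩)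
        (fun T hT T' hT' l e => let ⟨x, x1, x2⟩ := h3 T (sC hT) T' (sC hT') l e
          ⟨x, mem_filter.2 ⟨x1, hp T hT x x2.1⟩, x2⟩)
        fun x hx G' hG' => h4 x (mem_filter.1 hx).1 G' (hG'.trans sC)
    have e1 := sub A _ sA a1 c1
    have e2 := sub B _ sB b1 c2
    have e3 := h4 m hm (G.filter fun T => I T m) (filter_subset _ _) fun T hT => (mem_filter.1 hT).2
    have e4 : (sh (G.filter fun T => I T m) : ℝ) ≤ sh G := by
      exact_mod_cast sh_mono (filter_subset _ _)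
    have e5 : (sh A : ℝ) + sh B ≤ sh G := by
      exact_mod_cast sh_add sA sB fun T hT T' hT' l e =>
        let ⟨x, _, x2⟩ := h3 T (sA hT) T' (sB hT') l e
        lt_asymm (a1 T hT x x2.1) (b1 T' hT' x x2.2)
    have e6 : (G.card : ℝ) ≤ (G.filter fun T => I T m).card + A.card + B.card := by
      have : G ⊆ (G.filter fun T => I T m) ∪ A ∪ B := fun T hT => by
        obtain ⟨x, x1, x2⟩ := h2 T hT
        rw [mem_union, mem_union]
        by_cases c : I T m
        · exact Or.inl (Or.inl (mem_filter.2 ⟨hT, c⟩))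
        · rcases lt_trichotomy x m with d | d | d
          · exact Or.inl (Or.inr (mem_filter.2 ⟨hT, c, x, x1, d, x2⟩))
          · exact absurd (d ▸ x2) c
          · exact Or.inr (mem_filter.2 ⟨hT, c, x, x1, d, x2⟩)
      exact_mod_cast (card_le_card this).trans ((card_union_le _ _).trans
        (Nat.add_le_add_right (card_union_le _ _) _))
    have e7 := mul_le_mul_of_nonneg_left e4 hl
    have e8 := mul_le_mul_of_nonneg_left e5 (mul_nonneg hl (Nat.cast_nonneg k))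
    push_cast
    linarith

end DyadP

theorem dyad : S_Dyad := by
  intro ι α _ _ _ G Θ I lam L hl hL h1 h2 h3 hD
  by_contra hc
  have h := DyadP.main I lam hl (Nat.log 2 Θ.card + 1) Θ G (Nat.lt_pow_succ_log_self one_lt_two _)
    h1 h2 h3 fun x hx G' hG' hI => not_lt.1 fun c => hc ⟨x, hx, G', hG', hI, c⟩
  push_cast at h
  exact not_lt.2 (h.trans (mul_le_mul_of_nonneg_right (mul_le_mul_of_nonneg_left hL hl)
    (Nat.cast_nonneg _))) hD

end Pool.Agent.P.MP_1f07eb_co.N
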