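import Pool.Agent.P.MP_1f07eb_co.N.St

set_option autoImplicit false

namespace Pool.Agent.P.MP_1f07eb_co.N

open Finset Matrix

namespace GoodP

theorem consts (d k C n : ℕ) : ∃ A : ℕ, ∀ L : ℝ, 1 ≤ L →
    (8 * (d : ℝ) * L ^ 2 + 1) ^ (d * k) * C * ((n : ℝ) ^ d * L ^ (d * n ^ d)) * (n : ℝ) ^ d ≤
      A * L ^ A := by
  refine ⟨(8 * d + 1) ^ (d * k) * C * n ^ d * n ^ d + (2 * (d * k) + d * n ^ d), fun L hL => ?_⟩
  have h1 : 8 * (d : ℝ) * L ^ 2 + 1 ≤ (8 * d + 1) * L ^ 2 := by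
    have := one_le_pow₀ (n := 2) hL
    linarith
  have h2 : (8 * (d : ℝ) * L ^ 2 + 1) ^ (d * k) ≤ (8 * d + 1) ^ (d * k) * L ^ (2 * (d * k)) := by
    rw [pow_mul L, ← mul_pow]
    exact pow_le_pow_left₀ (by positivity) h1 _
  calc _ ≤ (8 * d + 1) ^ (d * k) * L ^ (2 * (d * k)) * C * ((n : ℝ) ^ d * L ^ (d * n ^ d)) *
        (n : ℝ) ^ d := by gcongr
    _ = (((8 * d + 1) ^ (d * k) * C * n ^ d * n ^ d : ℕ) : ℝ) *
        L ^ (2 * (d * k) + d * n ^ d) := by push_cast; ring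
    _ ≤ _ := mul_le_mul (Nat.cast_le.2 (Nat.le_add_right _ _))
        (pow_le_pow_right₀ hL (Nat.le_add_left _ _)) (by positivity) (Nat.cast_nonneg _)

variable {ι α : Type} [Fintype ι] [DecidableEq ι] [DecidableEq α]

theorem gp0 {V : Finset α} {X : α → ι → ℝ} {h : α → ℝ} {U : ι → Finset α} (H : GPH V X h)
    (hU : ∀ i, U i ⊆ V)
    (hd : ∀ T : ι → α, (∀ i, T i ∈ U i) → (mat (fun _ => X) T).det ≠ 0) :
    GP0 (fun _ => X) (fun _ => h) U := by
  have inj : ∀ T : ι → α, (∀ i, T i ∈ U i) → Function.Injective T := fun T hT i j e => by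
    by_contra hne
    refine hd T hT (det_zero_of_row_eq hne ?_)
    funext l
    simp [mat, e]
  intro T hT b hb l v hv hne heq
  have h1 : v ∉ univ.image T := by
    intro hm
    obtain ⟨i, -, hi⟩ := mem_image.1 hm
    have hil : i ≠ l := fun e => hne (by rw [← hi, e])
    have h2 := inj (Function.update T l v) (fun j => by
      by_cases e : j = l
      · rw [e, Function.update_self]; exact hv
      · rw [Function.update_of_ne e]; exact hT j)
    exact hil (h2 (by rw [Function.update_self, Function.update_of_ne hil, hi]))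
  refine H (insert v (univ.image T)) ?_ ?_ b ?_
  · refine insert_subset (hU l hv) fun w hw => ?_
    obtain ⟨i, -, rfl⟩ := mem_image.1 hw
    exact hU i (hT i)
  · rw [card_insert_of_notMem h1, card_image_of_injective _ (inj T hT), card_univ]
  · intro w hw
    rcases mem_insert.1 hw with rfl | hw
    · exact heq
    · obtain ⟨i, -, rfl⟩ := mem_image.1 hw
      exact hb i

omit [Fintype ι] [DecidableEq ι] in
theorem verts_mono {G G' : Finset (ι → α)} (h : G' ⊆ G) (i : ι) : verts G' i ⊆ verts G i :=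
  image_subset_image h

omit [Fintype ι] [DecidableEq ι] in
theorem pos_verts {G : Finset (ι → α)} {s : ι → α → ℝ} (hs : ∀ T ∈ G, ∀ i, 0 < s i (T i)) :
    ∀ i, ∀ v ∈ verts G i, 0 < s i v := fun i v hv => by
  obtain ⟨T, hT, rfl⟩ := mem_verts.1 hv
  exact hs T hT i

end GoodP

open GoodP

theorem good (h1 : S_Gen) (h2 : S_Box) (h3 : S_Scale) (h4 : S_Near) (h5 : S_Geo) : S_Good := by
  intro ι _ _ k n0
  classical
  set d := Fintype.card ι with hd
  set n := 3 ^ (n0 + d) with hn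
  have η0 : (0 : ℝ) < 1 / (60 * d + 1) := by positivity
  have η1 : 60 * (d : ℝ) * (1 / (60 * d + 1)) ≤ 1 := by
    rw [mul_one_div, div_le_one (by positivity)]; linarith
  obtain ⟨B, -, hB⟩ := h3 ι ((n : ℝ) ^ d)
  obtain ⟨C, hC⟩ := h4 ι B _ η0 η1
  obtain ⟨A, hA⟩ := consts d k C n
  refine ⟨A, fun α _ V X h W G N hW hH hV hN hdet hD => ?_⟩
  have hL : 1 ≤ Lg N := one_le_two.trans (two_le_Lg N)
  have hL0 : 0 ≤ Lg N := zero_le_one.trans hL
  let W' : Finset (ι → ℝ) := W ∪ univ.image fun i : ι => Pi.single i (1 : ℝ)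
  have cW : W'.card ≤ n0 + d :=
    (card_union_le _ _).trans (Nat.add_le_add hW (card_image_le.trans card_univ.le))
  have cQ : Fintype.card (W' → SignType) ≤ n := by
    rw [Fintype.card_fun, Fintype.card_coe]
    exact Nat.pow_le_pow_right (by decide) cW
  obtain ⟨κ, -, D1⟩ := Dense.pigeon (n := (n : ℝ) ^ d) (by positivity)
    (fun (T : ι → α) (i : ι) (c : W') => SignType.sign (c.1 ⬝ᵥ X (T i))) univ
    (fun _ _ => mem_univ _) (by
      rw [card_univ, Fintype.card_fun]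
      exact_mod_cast Nat.pow_le_pow_left cQ _) (hD.mono (hA _ hL))
  set G1 := G.filter fun T => (fun (i : ι) (c : W') => SignType.sign (c.1 ⬝ᵥ X (T i))) = κ
    with hG1
  have s1 : G1 ⊆ G := filter_subset _ _
  obtain ⟨T0, hT0⟩ := D1.nonempty (by positivity)
  have sg : ∀ i, ∀ v ∈ verts G1 i, ∀ c ∈ W',
      SignType.sign (c ⬝ᵥ X v) = SignType.sign (c ⬝ᵥ X (T0 i)) := by
    intro i v hv c hc
    obtain ⟨T, hT, rfl⟩ := mem_verts.1 hv
    exact congrFun (congrFun ((mem_filter.1 hT).2.trans (mem_filter.1 hT0).2.symm) i) ⟨c, hc⟩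
  have dt0 : ∀ x : ι → ι → ℝ, (∀ i, ∀ c ∈ W',
      SignType.sign (c ⬝ᵥ x i) = SignType.sign (c ⬝ᵥ X (T0 i))) → (Matrix.of x).det ≠ 0 :=
    fun x hx => hdet T0 (s1 hT0) x fun i c hc => hx i c (mem_union_left _ hc)
  have dt : ∀ T : ι → α, (∀ i, T i ∈ verts G1 i) → (mat (fun _ => X) T).det ≠ 0 :=
    fun T hT => dt0 _ fun i => sg i _ (hT i)
  have mv : ∀ (G' : Finset (ι → α)), ∀ T ∈ G', ∀ i, T i ∈ verts G' i :=
    fun G' T hT i => mem_verts.2 ⟨T, hT, rfl⟩
  have gp : GP0 (fun _ => X) (fun _ => h) (verts G1) := gp0 hH (fun i v hv => by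
    obtain ⟨T, hT, rfl⟩ := mem_verts.1 hv
    exact hV T (s1 hT) i) dt
  obtain ⟨q, σ, hσ, hq, hy⟩ := h1 ι W' (fun i => X (T0 i)) (fun x hx => funext fun i => by
    simpa using hx (Pi.single i 1) (mem_union_right _ (mem_image_of_mem _ (mem_univ i)))) dt0
  have hy' : ∀ (i : ι) (v : α), ∃ y : (W' → SignType) → ℝ, v ∈ verts G1 i →
      (∀ a, 0 ≤ y a) ∧ X v = ∑ a, y a • q i a := by
    intro i v
    by_cases hv : v ∈ verts G1 i
    · obtain ⟨y, h⟩ := hy i (X v) (sg i v hv)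
      exact ⟨y, fun _ => h⟩
    · exact ⟨0, fun c => absurd c hv⟩
  choose y hy'' using hy'
  obtain ⟨G2, s2, sa, Ma, D2, pa, da, ra⟩ := h2 ι α (W' → SignType) G1 (fun _ => X) q y σ n N _
    (by positivity) ((card_le_card s1).trans hN) cQ hσ hq
    (fun T hT i => hy'' i _ (mv _ T hT i)) (fun T hT => dt T (mv _ T hT)) D1
  obtain ⟨t, t0, ht⟩ := hB α (verts G2) _ ra
  obtain ⟨G3, s3, sc, Mc, D3, pc, geo⟩ := hC α G2
    (tX (fun i _ => t i) (diagonal fun l => (t l)⁻¹) (tX sa Ma fun _ => X)) _ (by positivity)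
    (fun T hT i l => by
      have := ht i _ (mv _ T hT i) l
      rw [tX, Pi.smul_apply, vecMul_diagonal, smul_eq_mul, abs_mul, abs_mul, abs_of_pos (t0 i),
        abs_of_pos (inv_pos.2 (t0 l)), ← mul_assoc, ← div_eq_mul_inv, div_le_iff₀ (t0 l),
        mul_comm]
      exact this)
    (fun T hT => by
      have e : ∏ i, t i ≠ 0 := prod_ne_zero_iff.2 fun i _ => (t0 i).ne'
      rw [det_mat_tX, det_diagonal, prod_inv_distrib, mul_left_comm, mul_inv_cancel₀ e, mul_one]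
      exact da T hT) D2
  have pa' : ∀ T ∈ G3, ∀ i, 0 < sa i (T i) := fun T hT => pa T (s3 hT)
  have gp3 := (((gp.mono (verts_mono (s3.trans s2))).tX (M := Ma) (pos_verts pa')).tX
    (s := fun i _ => t i) (M := diagonal fun l => (t l)⁻¹) fun i _ _ => t0 i).tX (M := Mc)
    (pos_verts pc)
  have cl := h5 ι α _ _ _ _ N k G3 η0 η1 geo gp3 (mv G3)
    ((card_le_card (s3.trans (s2.trans s1))).trans hN) D3
  exact (((cl.of_tX pc).of_tX fun _ _ i => t0 i).of_tX pa').mono (s3.trans (s2.trans s1))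

end Pool.Agent.P.MP_1f07eb_co.N
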