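import Mathlib

set_option autoImplicit false

namespace Pool.Agent.P.MP_1f07eb_co.N

open Finset Matrix

noncomputable section

section Defs

variable {ι α : Type} [Fintype ι] [DecidableEq ι] [DecidableEq α]

/-- the ridge of the tuple T opposite to the colour l -/
def ridge (l : ι) (T : ι → α) : ι → Option α := fun i => if i = l then none else some (T i)

/-- total number of ridges of a family of tuples -/
def sh (G : Finset (ι → α)) : ℕ := ∑ l : ι, (G.image (ridge l)).card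

/-- the family has more than lam times as many members as ridges -/
def Dense (lam : ℝ) (G : Finset (ι → α)) : Prop := lam * (sh G : ℝ) < (G.card : ℝ)

/-- the vertices of colour i that occur in G -/
def verts (G : Finset (ι → α)) (i : ι) : Finset α := G.image (fun T => T i)

/-- T lies strictly above and T' strictly below some dual point b -/
def Sep (X : ι → α → ι → ℝ) (h : ι → α → ℝ) (T T' : ι → α) : Prop :=
  ∃ b : ι → ℝ, (∀ i, b ⬝ᵥ X i (T i) < h i (T i)) ∧ ∀ i, h i (T' i) < b ⬝ᵥ X i (T' i)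

/-- G contains k pairwise separated tuples -/
def Cl (X : ι → α → ι → ℝ) (h : ι → α → ℝ) (k : ℕ) (G : Finset (ι → α)) : Prop :=
  ∃ f : Fin k → ι → α, (∀ a, f a ∈ G) ∧ ∀ a b, a < b → Sep X h (f a) (f b)

/-- every vertex of colour i is a small positive perturbation of the i-th unit vector -/
def Geo (η : ℝ) (U : ι → Finset α) (X : ι → α → ι → ℝ) : Prop :=
  ∀ i, ∀ v ∈ U i, X i v i = 1 ∧ ∀ l, l ≠ i → η ≤ X i v l ∧ X i v l ≤ 2 * η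

/-- rows: real vertices on S, unit vectors off S -/
def row (X : ι → α → ι → ℝ) (S : Finset ι) (T : ι → α) : Matrix ι ι ℝ :=
  Matrix.of fun i => if i ∈ S then X i (T i) else Pi.single i 1

/-- the matrix of the tuple T -/
def mat (X : ι → α → ι → ℝ) (T : ι → α) : Matrix ι ι ℝ := Matrix.of fun i => X i (T i)

/-- b is the dual point of T in the slice given by the active colours S and the values th -/
def Sol (X : ι → α → ι → ℝ) (h : ι → α → ℝ) (S : Finset ι) (th : ι → ℝ) (T : ι → α)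
    (b : ι → ℝ) : Prop :=
  (∀ i ∈ S, b ⬝ᵥ X i (T i) = h i (T i)) ∧ ∀ i, i ∉ S → b i = th i

/-- general position in the slice -/
def GP (X : ι → α → ι → ℝ) (h : ι → α → ℝ) (U : ι → Finset α) (S : Finset ι) (th : ι → ℝ) :
    Prop :=
  ∀ T : ι → α, (∀ i, T i ∈ U i) → ∀ b, Sol X h S th T b → ∀ l ∈ S, ∀ v ∈ U l, v ≠ T l →
    b ⬝ᵥ X l v ≠ h l v

/-- general position of the whole configuration -/
def GP0 (X : ι → α → ι → ℝ) (h : ι → α → ℝ) (U : ι → Finset α) : Prop :=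
  ∀ T : ι → α, (∀ i, T i ∈ U i) → ∀ b : ι → ℝ, (∀ i, b ⬝ᵥ X i (T i) = h i (T i)) →
    ∀ l, ∀ v ∈ U l, v ≠ T l → b ⬝ᵥ X l v ≠ h l v

/-- source invariant -/
def Src (X : ι → α → ι → ℝ) (h : ι → α → ℝ) (E : Finset (ι → α)) (S : Finset ι) (th : ι → ℝ)
    (T : ι → α) : Prop :=
  ∃ T0 ∈ E, (∀ i ∈ S, T0 i = T i) ∧ ∀ b : ι → ℝ, (∀ i, i ∉ S → b i = th i) →
    (∀ i ∈ S, b ⬝ᵥ X i (T i) ≤ h i (T i)) → ∀ i, i ∉ S → b ⬝ᵥ X i (T0 i) < h i (T0 i)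

/-- lower invariant -/
def Low (X : ι → α → ι → ℝ) (h : ι → α → ℝ) (S : Finset ι) (th : ι → ℝ) (T : ι → α) : Prop :=
  ∀ b : ι → ℝ, (∀ i, i ∉ S → b i = th i) →
    (∀ i ∈ S, h i (T i) ≤ b ⬝ᵥ X i (T i)) → ∀ i, i ∉ S → h i (T i) < b ⬝ᵥ X i (T i)

/-- linear change of coordinates and rescaling of the vertices -/
def tX (s : ι → α → ℝ) (M : Matrix ι ι ℝ) (X : ι → α → ι → ℝ) : ι → α → ι → ℝ :=
  fun i v => s i v • (X i v ᵥ* M)

/-- the rescaled heights -/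
def tH (s : ι → α → ℝ) (h : ι → α → ℝ) : ι → α → ℝ := fun i v => s i v * h i v

/-- any card ι of the vectors X v are linearly independent -/
def GPX (V : Finset α) (X : α → ι → ℝ) : Prop :=
  ∀ Z ⊆ V, Z.card = Fintype.card ι → ∀ b : ι → ℝ, (∀ v ∈ Z, b ⬝ᵥ X v = 0) → b = 0

/-- no card ι + 1 of the lifted points lie on a common non-vertical hyperplane -/
def GPH (V : Finset α) (X : α → ι → ℝ) (h : α → ℝ) : Prop :=
  ∀ Z ⊆ V, Z.card = Fintype.card ι + 1 → ∀ b : ι → ℝ, ¬ ∀ v ∈ Z, b ⬝ᵥ X v = h v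

open Classical in
/-- a chosen nonzero vector orthogonal to the vectors X v, v in Z, if there is one -/
def ray (X : α → ι → ℝ) (Z : Finset α) : ι → ℝ :=
  if H : ∃ w : ι → ℝ, w ≠ 0 ∧ ∀ v ∈ Z, w ⬝ᵥ X v = 0 then H.choose else 0

open Classical in
/-- the vertices outside R whose hyperplane meets the cell D -/
def cross (V R : Finset α) (X : α → ι → ℝ) (D : Finset (ι → ℝ)) : Finset α :=
  (V \ R).filter fun v => ¬ (∀ c ∈ D, 0 < c ⬝ᵥ X v) ∧ ¬ (∀ c ∈ D, c ⬝ᵥ X v < 0)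

end Defs

/-- a logarithm bounded below by two -/
def Lg (N : ℕ) : ℝ := (Nat.log 2 N : ℝ) + 2

/-! ### Part A: clustered configurations -/

def S_Dyad : Prop :=
  ∀ (ι α : Type) [Fintype ι] [DecidableEq ι] [DecidableEq α] (G : Finset (ι → α))
    (Θ : Finset ℝ) (I : (ι → α) → ℝ → Prop) (lam L : ℝ), 0 ≤ lam →
    (Nat.log 2 Θ.card : ℝ) + 1 ≤ L →
    (∀ T ∈ G, ∀ x y z : ℝ, I T x → I T z → x ≤ y → y ≤ z → I T y) →
    (∀ T ∈ G, ∃ x ∈ Θ, I T x) →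
    (∀ T ∈ G, ∀ T' ∈ G, ∀ l : ι, (∀ i, i ≠ l → T i = T' i) → ∃ x ∈ Θ, I T x ∧ I T' x) →
    Dense (lam * L) G → ∃ x ∈ Θ, ∃ G' ⊆ G, (∀ T ∈ G', I T x) ∧ Dense lam G'

def S_Lin : Prop :=
  ∀ (ι : Type) [Fintype ι] [DecidableEq ι] (η : ℝ), 0 < η → 60 * (Fintype.card ι : ℝ) * η ≤ 1 →
    (∀ ρ : ι → ι → ℝ, (∀ i, ρ i i = 1 ∧ ∀ l, l ≠ i → 0 ≤ ρ i l ∧ ρ i l ≤ 2 * η) →
      (∀ r : ι → ℝ, ∃ b : ι → ℝ, ∀ i, b ⬝ᵥ ρ i = r i) ∧
      ∀ (j : ι) (δ : ι → ℝ), (∀ i, i ≠ j → δ ⬝ᵥ ρ i = 0) →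
        (∀ l, l ≠ j → 30 * |δ l| ≤ |δ j|) ∧ (0 < δ j → 0 < δ ⬝ᵥ ρ j) ∧
          (δ j < 0 → δ ⬝ᵥ ρ j < 0) ∧ (δ j = 0 → δ = 0)) ∧
    ∀ (S : Finset ι) (x : ι → ι → ℝ) (v δ : ι → ℝ),
      (∀ l ∈ S, x l l = 1 ∧ ∀ j, j ≠ l → 0 ≤ x l j ∧ x l j ≤ 2 * η) →
      (∀ l ∈ S, η ≤ v l ∧ v l ≤ 2 * η) → (∀ i, i ∉ S → δ i = 0) →
      (∀ l ∈ S, 0 ≤ δ ⬝ᵥ x l) → 0 ≤ δ ⬝ᵥ v

def S_Arm : Prop :=
  ∀ (ι α : Type) [Fintype ι] [DecidableEq ι] [DecidableEq α] (G : Finset (ι → α))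
    (S : Finset ι) (a : (ι → α) → ι → ℝ) (N : ℕ) (lam : ℝ), 0 ≤ lam → G.card ≤ N → S.Nonempty →
    (∀ T ∈ G, ∀ T' ∈ G, (∀ i ∈ S, T i = T' i) → a T = a T') →
    (∀ T ∈ G, ∀ T' ∈ G, ∀ j ∈ S, (∀ i ∈ S, i ≠ j → T i = T' i) →
      (∀ l, l ≠ j → 30 * |a T' l - a T l| ≤ |a T' j - a T j|) ∧ (a T j = a T' j → T j = T' j)) →
    Dense (lam * (4 * Fintype.card ι * Lg N) + 1) G →
    ∃ c ∈ S, ∃ G' ⊆ G, ∃ top : (ι → α) → ι → α, Dense lam G' ∧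
      (∀ T ∈ G', top T ∈ G ∧ ∀ i ∈ S, i ≠ c → top T i = T i) ∧
      ∀ T ∈ G', ∀ T' ∈ G', ∀ l : ι, (∀ i, i ≠ l → T i = T' i) → a T c < a (top T') c

def S_Stage : Prop :=
  ∀ (ι α : Type) [Fintype ι] [DecidableEq ι] [DecidableEq α] (η : ℝ) (U : ι → Finset α)
    (X : ι → α → ι → ℝ) (h : ι → α → ℝ) (E G : Finset (ι → α)) (S : Finset ι) (th : ι → ℝ)
    (N : ℕ) (lam : ℝ), 0 < η → 60 * (Fintype.card ι : ℝ) * η ≤ 1 → Geo η U X →
    (∀ T ∈ G, ∀ i, T i ∈ U i) → G.card ≤ N → S.Nonempty → GP X h U S th →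
    (∀ T ∈ G, Src X h E S th T ∧ Low X h S th T) → 0 ≤ lam →
    Dense (lam * (8 * Fintype.card ι * Lg N ^ 2) + 1) G →
    ∃ c ∈ S, ∃ th' : ι → ℝ, ∃ G' ⊆ G, GP X h U (S.erase c) th' ∧
      (∀ T ∈ G', Src X h E (S.erase c) th' T ∧ Low X h (S.erase c) th' T) ∧ Dense lam G'

def S_Geo : Prop :=
  ∀ (ι α : Type) [Fintype ι] [DecidableEq ι] [DecidableEq α] (η : ℝ) (U : ι → Finset α)
    (X : ι → α → ι → ℝ) (h : ι → α → ℝ) (N k : ℕ) (G : Finset (ι → α)),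
    0 < η → 60 * (Fintype.card ι : ℝ) * η ≤ 1 → Geo η U X → GP0 X h U →
    (∀ T ∈ G, ∀ i, T i ∈ U i) → G.card ≤ N →
    Dense ((8 * Fintype.card ι * Lg N ^ 2 + 1) ^ (Fintype.card ι * k)) G → Cl X h k G

/-! ### Part B: from cones with nonvanishing determinant to clusters -/

def S_Thresh : Prop :=
  ∀ (ι α : Type) [Fintype ι] [DecidableEq ι] [DecidableEq α] (G : Finset (ι → α))
    (y : ι → α → ℝ) (D0 D1 : ℝ) (N : ℕ) (lam : ℝ), 0 ≤ lam → G.card ≤ N → 0 ≤ D0 →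
    (∀ T ∈ G, ∀ i, 0 ≤ y i (T i)) → (∀ T ∈ G, D0 * ∏ i, y i (T i) ≤ D1) →
    Dense (lam * Lg N ^ Fintype.card ι) G →
    ∃ G' ⊆ G, ∃ Y : ι → ℝ, Dense lam G' ∧ (∀ T ∈ G', ∀ i, y i (T i) ≤ Y i) ∧ D0 * ∏ i, Y i ≤ D1

def S_Box : Prop :=
  ∀ (ι α Q : Type) [Fintype ι] [DecidableEq ι] [DecidableEq α] [Fintype Q]
    (G : Finset (ι → α)) (X : ι → α → ι → ℝ) (q : ι → Q → ι → ℝ) (y : ι → α → Q → ℝ) (σ : ℝ)
    (n N : ℕ) (lam : ℝ), 0 ≤ lam → G.card ≤ N → Fintype.card Q ≤ n → (σ = 1 ∨ σ = -1) →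
    (∀ g : ι → Q, 0 ≤ σ * (Matrix.of fun i => q i (g i)).det) →
    (∀ T ∈ G, ∀ i, (∀ a, 0 ≤ y i (T i) a) ∧ X i (T i) = ∑ a, y i (T i) a • q i a) →
    (∀ T ∈ G, (mat X T).det ≠ 0) →
    Dense (lam * ((n : ℝ) ^ Fintype.card ι * Lg N ^ (Fintype.card ι * n ^ Fintype.card ι))) G →
    ∃ G' ⊆ G, ∃ (s : ι → α → ℝ) (M : Matrix ι ι ℝ), Dense lam G' ∧
      (∀ T ∈ G', ∀ i, 0 < s i (T i)) ∧ (∀ T ∈ G', 1 ≤ |(mat (tX s M X) T).det|) ∧
      ∀ (J : Finset ι) (T : ι → α), (∀ i ∈ J, T i ∈ verts G' i) →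
        |(row (tX s M X) J T).det| ≤ (n : ℝ) ^ Fintype.card ι

def S_Null : Prop :=
  ∀ (ι : Type) [Fintype ι] [DecidableEq ι] (γ : ℝ), 0 < γ → ∃ c : ℝ, 0 < c ∧
    ∀ A : ι → ι → ℝ, (∀ i l, |A i l| ≤ 1) → ∀ J : Finset ι, J.Nonempty →
      (∀ i ∈ J, ∃ l ∈ J, γ ≤ |A i l|) → ∃ K : Finset ι, K.Nonempty ∧
        c ≤ |(Matrix.of fun i => if i ∈ K then A i else Pi.single i 1).det|

def S_Scale : Prop :=
  ∀ (ι : Type) [Fintype ι] [DecidableEq ι] (D : ℝ), ∃ B : ℝ, 1 ≤ B ∧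
    ∀ (α : Type) [DecidableEq α] (U : ι → Finset α) (X : ι → α → ι → ℝ),
      (∀ (J : Finset ι) (T : ι → α), (∀ i ∈ J, T i ∈ U i) → |(row X J T).det| ≤ D) →
      ∃ t : ι → ℝ, (∀ i, 0 < t i) ∧ ∀ i, ∀ v ∈ U i, ∀ l, |X i v l| * t i ≤ B * t l

def S_Near : Prop :=
  ∀ (ι : Type) [Fintype ι] [DecidableEq ι] (B η : ℝ), 0 < η →
    60 * (Fintype.card ι : ℝ) * η ≤ 1 → ∃ C : ℕ,
    ∀ (α : Type) [DecidableEq α] (G : Finset (ι → α)) (X : ι → α → ι → ℝ) (lam : ℝ), 0 ≤ lam →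
      (∀ T ∈ G, ∀ i l, |X i (T i) l| ≤ B) → (∀ T ∈ G, 1 ≤ |(mat X T).det|) →
      Dense (lam * C) G →
      ∃ G' ⊆ G, ∃ (s : ι → α → ℝ) (M : Matrix ι ι ℝ), Dense lam G' ∧
        (∀ T ∈ G', ∀ i, 0 < s i (T i)) ∧ Geo η (verts G') (tX s M X)

def S_Gen : Prop :=
  ∀ (ι : Type) [Fintype ι] [DecidableEq ι] (W : Finset (ι → ℝ)) (x0 : ι → ι → ℝ),
    (∀ x : ι → ℝ, (∀ c ∈ W, c ⬝ᵥ x = 0) → x = 0) →
    (∀ x : ι → ι → ℝ, (∀ i, ∀ c ∈ W, SignType.sign (c ⬝ᵥ x i) = SignType.sign (c ⬝ᵥ x0 i)) →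
      (Matrix.of x).det ≠ 0) →
    ∃ (q : ι → (W → SignType) → ι → ℝ) (σ : ℝ), (σ = 1 ∨ σ = -1) ∧
      (∀ g : ι → W → SignType, 0 ≤ σ * (Matrix.of fun i => q i (g i)).det) ∧
      ∀ (i : ι) (x : ι → ℝ), (∀ c ∈ W, SignType.sign (c ⬝ᵥ x) = SignType.sign (c ⬝ᵥ x0 i)) →
        ∃ y : (W → SignType) → ℝ, (∀ a, 0 ≤ y a) ∧ x = ∑ a, y a • q i a

def S_Good : Prop :=
  ∀ (ι : Type) [Fintype ι] [DecidableEq ι] (k n0 : ℕ), ∃ A : ℕ,
    ∀ (α : Type) [DecidableEq α] (V : Finset α) (X : α → ι → ℝ) (h : α → ℝ)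
      (W : Finset (ι → ℝ)) (G : Finset (ι → α)) (N : ℕ), W.card ≤ n0 → GPH V X h →
      (∀ T ∈ G, ∀ i, T i ∈ V) → G.card ≤ N →
      (∀ T ∈ G, ∀ x : ι → ι → ℝ,
        (∀ i, ∀ c ∈ W, SignType.sign (c ⬝ᵥ x i) = SignType.sign (c ⬝ᵥ X (T i))) →
        (Matrix.of x).det ≠ 0) →
      Dense ((A : ℝ) * Lg N ^ A) G → Cl (fun _ => X) (fun _ => h) k G

/-! ### Part C: cuttings and the recursion -/

def S_Net : Prop :=
  ∀ (α : Type) [DecidableEq α] (V R0 : Finset α) (B : Finset α → Finset (Finset α))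
    (m s p : ℕ) (ρ : ℝ), V.Nonempty → R0 ⊆ V → 0 < ρ → ρ < 1 →
    (∀ Z : Finset α, Z.card ≤ s → (B Z).card ≤ p) → (∀ Z, ∀ A ∈ B Z, A ⊆ V) →
    (p : ℝ) * ((m : ℝ) + R0.card + 1) ^ s * (1 - ρ) ^ (m - s) < 1 →
    ∃ R : Finset α, R0 ⊆ R ∧ R ⊆ V ∧ R.card ≤ m + R0.card ∧
      ∀ Z ⊆ R, Z.card ≤ s → ∀ A ∈ B Z, Disjoint A R → (A.card : ℝ) ≤ ρ * V.card

def S_Cells : Prop :=
  ∀ (ι α : Type) [Fintype ι] [DecidableEq ι] [DecidableEq α] [Nonempty ι] (R : Finset α)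
    (X : α → ι → ℝ), GPX R X → Fintype.card ι ≤ R.card →
    ∃ 𝒞 : Finset (Finset (ι → ℝ)),
      𝒞.card ≤ 2 * 4 ^ Fintype.card ι * R.card ^ (Fintype.card ι - 1) ∧
      (∀ D ∈ 𝒞, D.card ≤ 4 ^ Fintype.card ι ∧
        (∀ c ∈ D, ∃ Z ⊆ R, Z.card = Fintype.card ι - 1 ∧ (c = ray X Z ∨ c = -ray X Z)) ∧
        ∀ c ∈ D, ∀ c' ∈ D, ∀ v ∈ R, 0 ≤ (c ⬝ᵥ X v) * (c' ⬝ᵥ X v)) ∧
      ∀ b : ι → ℝ, b ≠ 0 → ∃ D ∈ 𝒞, ∀ x : ι → ℝ, (∀ c ∈ D, 0 < c ⬝ᵥ x) → 0 < b ⬝ᵥ x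

def S_Par : Prop :=
  ∀ (d : ℕ) (ε : ℝ), 1 ≤ d → 0 < ε → ∃ (m : ℕ) (ρ : ℝ), 0 < ρ ∧ 16 ^ d * ρ < 1 ∧
    (4 : ℝ) ^ (2 * d + 1) * ((m : ℝ) + d + 1) ^ (2 * d) * (1 - ρ) ^ (m - 2 * d) < 1 ∧
    (2 : ℝ) * 4 ^ d * ((m : ℝ) + d) ^ (d - 1) * (16 ^ d * ρ) ^ ((d : ℝ) - 1 + ε) ≤ 1 / 2

def S_Log : Prop :=
  ∀ (d A : ℕ) (ε : ℝ), 0 < ε → ∃ C : ℝ, 0 ≤ C ∧
    ∀ w : ℕ, 1 ≤ w → Lg (w ^ d) ^ A ≤ C * (w : ℝ) ^ ε

def S_Cut : Prop :=
  ∀ (ι : Type) [Fintype ι] [DecidableEq ι] [Nonempty ι] (ε : ℝ), 0 < ε →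
    ∃ (N0 n0 : ℕ) (ρ : ℝ), 0 < ρ ∧ ρ < 1 ∧
      (N0 : ℝ) * ρ ^ ((Fintype.card ι : ℝ) - 1 + ε) ≤ 1 / 2 ∧
      ∀ (α : Type) [DecidableEq α] (V : Finset α) (X : α → ι → ℝ), GPX V X →
        Fintype.card ι ≤ V.card → ∃ R ⊆ V, R.card ≤ n0 ∧
          ∃ 𝒞 : Finset (Finset (ι → ℝ)), 𝒞.card ≤ N0 ∧ (∀ D ∈ 𝒞, D.card ≤ n0) ∧
            (∀ b : ι → ℝ, b ≠ 0 → ∃ D ∈ 𝒞, ∀ x : ι → ℝ, (∀ c ∈ D, 0 < c ⬝ᵥ x) → 0 < b ⬝ᵥ x) ∧
            ∀ D ∈ 𝒞, ((cross V R X D).card : ℝ) ≤ ρ * V.card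

def S_Main : Prop :=
  ∀ (ι : Type) [Fintype ι] [DecidableEq ι] [Nonempty ι] (k : ℕ) (ε : ℝ), 0 < ε → ∃ C : ℝ,
    ∀ (α : Type) [DecidableEq α] (X : α → ι → ℝ) (h : α → ℝ) (V : Finset α)
      (G : Finset (ι → α)), GPX V X → GPH V X h →
      (∀ T ∈ G, Function.Injective T ∧ ∀ i, T i ∈ V) → ¬ Cl (fun _ => X) (fun _ => h) k G →
      (G.card : ℝ) ≤ C * (V.card : ℝ) ^ ((Fintype.card ι : ℝ) - 1 + ε)

def S_Iface : Prop :=
  ∀ (d : ℕ) (V : Finset (EuclideanSpace ℝ (Fin d))), 1 ≤ d →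
    (∀ S ⊆ V, S.card ≤ d + 1 →
      AffineIndependent ℝ (fun x : S => (x : EuclideanSpace ℝ (Fin d)))) →
    ∃ p : EuclideanSpace ℝ (Fin d),
      GPX V (fun (x : EuclideanSpace ℝ (Fin d)) (i : Fin d) => x i - p i) ∧
      GPH V (fun (x : EuclideanSpace ℝ (Fin d)) (i : Fin d) => x i - p i) (fun _ => 1)

def S_Final : Prop :=
  ∀ (d k : ℕ) (ε : ℝ), 1 ≤ d → 0 < ε → ∃ C : ℝ,
    ∀ V : Finset (EuclideanSpace ℝ (Fin d)),
      (∀ S ⊆ V, S.card ≤ d + 1 →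
        AffineIndependent ℝ (fun x : S => (x : EuclideanSpace ℝ (Fin d)))) →
      ∀ E : Finset (Finset (EuclideanSpace ℝ (Fin d))),
        (∀ e ∈ E, e ⊆ V ∧ e.card = d) →
        (¬ ∃ F ⊆ E, F.card = k ∧
            (F : Set (Finset (EuclideanSpace ℝ (Fin d)))).Pairwise
              (fun e f => Disjoint (convexHull ℝ (e : Set (EuclideanSpace ℝ (Fin d))))
                (convexHull ℝ (f : Set (EuclideanSpace ℝ (Fin d)))))) →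
        (E.card : ℝ) ≤ C * (V.card : ℝ) ^ ((d : ℝ) - 1 + ε)

/-! ### Toolbox -/

section Tool

variable {ι α : Type} [Fintype ι] [DecidableEq ι] [DecidableEq α]

omit [Fintype ι] [DecidableEq α] in
theorem ridge_eq_iff (l : ι) (T T' : ι → α) :
    ridge l T = ridge l T' ↔ ∀ i, i ≠ l → T i = T' i := by
  constructor
  · intro H i hi
    have := congrFun H i
    simpa [ridge, hi] using this
  · intro H
    funext i
    by_cases hi : i = l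
    · simp [ridge, hi]
    · simp [ridge, hi, H i hi]

theorem sh_mono {G G' : Finset (ι → α)} (H : G' ⊆ G) : sh G' ≤ sh G :=
  Finset.sum_le_sum fun _ _ => Finset.card_le_card (Finset.image_subset_image H)

theorem Dense.nonempty {lam : ℝ} {G : Finset (ι → α)} (hl : 0 ≤ lam) (H : Dense lam G) :
    G.Nonempty := by
  rw [← Finset.card_pos]
  have h0 : (0 : ℝ) ≤ lam * (sh G : ℝ) := mul_nonneg hl (Nat.cast_nonneg _)
  have : (0 : ℝ) < G.card := lt_of_le_of_lt h0 H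
  exact_mod_cast this

theorem Dense.mono {lam mu : ℝ} {G : Finset (ι → α)} (H : Dense mu G) (hl : lam ≤ mu) :
    Dense lam G :=
  lt_of_le_of_lt (mul_le_mul_of_nonneg_right hl (Nat.cast_nonneg _)) H

/-- pigeonhole over at most n classes -/
theorem Dense.pigeon {β : Type} [DecidableEq β] {lam n : ℝ} {G : Finset (ι → α)} (hl : 0 ≤ lam)
    (κ : (ι → α) → β) (B : Finset β) (hB : ∀ T ∈ G, κ T ∈ B) (hn : (B.card : ℝ) ≤ n)
    (H : Dense (lam * n) G) : ∃ b ∈ B, Dense lam (G.filter fun T => κ T = b) := by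
  by_contra hcon
  push Not at hcon
  have h1 : (G.card : ℝ) = ∑ b ∈ B, ((G.filter fun T => κ T = b).card : ℝ) := by
    exact_mod_cast Finset.card_eq_sum_card_fiberwise hB
  have h2 : ∑ b ∈ B, ((G.filter fun T => κ T = b).card : ℝ) ≤ ∑ _b ∈ B, lam * (sh G : ℝ) := by
    refine Finset.sum_le_sum fun b hb => ?_
    have h3 := not_lt.1 (hcon b hb)
    have h4 : (sh (G.filter fun T => κ T = b) : ℝ) ≤ sh G := by
      exact_mod_cast sh_mono (Finset.filter_subset _ _)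
    exact h3.trans (mul_le_mul_of_nonneg_left h4 hl)
  rw [Finset.sum_const, nsmul_eq_mul] at h2
  have h5 : (B.card : ℝ) * (lam * (sh G : ℝ)) ≤ n * (lam * (sh G : ℝ)) :=
    mul_le_mul_of_nonneg_right hn (mul_nonneg hl (Nat.cast_nonneg _))
  unfold Dense at H
  nlinarith

/-- deleting at most sh G members -/
theorem Dense.sdiff {lam : ℝ} {G D : Finset (ι → α)} (hl : 0 ≤ lam) (hD : D.card ≤ sh G)
    (H : Dense (lam + 1) G) : Dense lam (G \ D) := by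
  unfold Dense at *
  have h1 : (G.card : ℝ) ≤ (G \ D).card + D.card := by
    exact_mod_cast Finset.card_le_card_sdiff_add_card
  have h2 : (D.card : ℝ) ≤ sh G := by exact_mod_cast hD
  have h3 : (sh (G \ D) : ℝ) ≤ sh G := by exact_mod_cast sh_mono Finset.sdiff_subset
  have h4 := mul_le_mul_of_nonneg_left h3 hl
  nlinarith

/-- the number of ridges of tuples with vertices in V -/
theorem sh_le (G : Finset (ι → α)) (V : Finset α) (H : ∀ T ∈ G, ∀ i, T i ∈ V) :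
    sh G ≤ Fintype.card ι * V.card ^ (Fintype.card ι - 1) := by
  unfold sh
  have : ∀ l : ι, (G.image (ridge l)).card ≤ V.card ^ (Fintype.card ι - 1) := by
    intro l
    have hsub : G.image (ridge l) ⊆
        Fintype.piFinset fun i => if i = l then {none} else V.image some := by
      intro r hr
      obtain ⟨T, hT, rfl⟩ := Finset.mem_image.1 hr
      rw [Fintype.mem_piFinset]
      intro i
      by_cases hi : i = l
      · simp [ridge, hi]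
      · simp [ridge, hi, H T hT i]
    refine (Finset.card_le_card hsub).trans ?_
    rw [Fintype.card_piFinset, ← Finset.mul_prod_erase Finset.univ _ (Finset.mem_univ l)]
    simp only [if_true, Finset.card_singleton, one_mul]
    rw [Finset.prod_congr rfl (g := fun _ => V.card)]
    · simp
    · intro i hi
      simp [(Finset.mem_erase.1 hi).1, Finset.card_image_of_injective _ (Option.some_injective α)]
  calc ∑ l : ι, (G.image (ridge l)).card ≤ ∑ _l : ι, V.card ^ (Fintype.card ι - 1) :=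
        Finset.sum_le_sum fun l _ => this l
    _ = _ := by simp

omit [Fintype ι] [DecidableEq ι] in
theorem mem_verts {G : Finset (ι → α)} {i : ι} {v : α} :
    v ∈ verts G i ↔ ∃ T ∈ G, T i = v := Finset.mem_image

theorem two_le_Lg (N : ℕ) : 2 ≤ Lg N := by
  unfold Lg
  have : (0 : ℝ) ≤ (Nat.log 2 N : ℝ) := Nat.cast_nonneg _
  linarith

omit [DecidableEq ι] [DecidableEq α] in
theorem Cl.mono {X : ι → α → ι → ℝ} {h : ι → α → ℝ} {k : ℕ} {G G' : Finset (ι → α)}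
    (H : Cl X h k G') (hG : G' ⊆ G) : Cl X h k G := by
  obtain ⟨f, hf, hs⟩ := H
  exact ⟨f, fun a => hG (hf a), hs⟩

omit [DecidableEq ι] [DecidableEq α] in
theorem dot_tX (s : ι → α → ℝ) (M : Matrix ι ι ℝ) (X : ι → α → ι → ℝ) (b : ι → ℝ) (i : ι)
    (v : α) : b ⬝ᵥ tX s M X i v = s i v * ((M *ᵥ b) ⬝ᵥ X i v) := by
  unfold tX
  rw [dotProduct_smul, smul_eq_mul, dotProduct_comm b, ← dotProduct_mulVec, dotProduct_comm]

omit [DecidableEq ι] [DecidableEq α] in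
theorem Cl.of_tX {s : ι → α → ℝ} {M : Matrix ι ι ℝ} {X : ι → α → ι → ℝ} {h : ι → α → ℝ}
    {k : ℕ} {G : Finset (ι → α)} (hs : ∀ T ∈ G, ∀ i, 0 < s i (T i))
    (H : Cl (tX s M X) (tH s h) k G) : Cl X h k G := by
  obtain ⟨f, hf, hsep⟩ := H
  refine ⟨f, hf, fun a b hab => ?_⟩
  obtain ⟨w, h1, h2⟩ := hsep a b hab
  refine ⟨M *ᵥ w, fun i => ?_, fun i => ?_⟩
  · have := h1 i
    rw [dot_tX] at this
    exact lt_of_mul_lt_mul_left this (hs _ (hf a) i).le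
  · have := h2 i
    rw [dot_tX] at this
    exact lt_of_mul_lt_mul_left this (hs _ (hf b) i).le

omit [DecidableEq ι] [DecidableEq α] in
theorem GP0.mono {X : ι → α → ι → ℝ} {h : ι → α → ℝ} {U U' : ι → Finset α} (H : GP0 X h U)
    (hU : ∀ i, U' i ⊆ U i) : GP0 X h U' :=
  fun T hT b hb l v hv hne => H T (fun i => hU i (hT i)) b hb l v (hU l hv) hne

omit [DecidableEq ι] [DecidableEq α] in
theorem GP0.tX {s : ι → α → ℝ} {M : Matrix ι ι ℝ} {X : ι → α → ι → ℝ} {h : ι → α → ℝ}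
    {U : ι → Finset α} (H : GP0 X h U) (hs : ∀ i, ∀ v ∈ U i, 0 < s i v) :
    GP0 (tX s M X) (tH s h) U := by
  intro T hT b hb l v hv hne heq
  refine H T hT (M *ᵥ b) (fun i => ?_) l v hv hne ?_
  · have := hb i
    rw [dot_tX] at this
    exact mul_left_cancel₀ (hs i _ (hT i)).ne' this
  · rw [dot_tX] at heq
    exact mul_left_cancel₀ (hs l v hv).ne' heq

omit [DecidableEq ι] [DecidableEq α] in
/-- ray shooting: move from b in the direction -g until a new sign vanishes -/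
theorem shoot (R : Finset α) (X : α → ι → ℝ) (b g : ι → ℝ)
    (h0 : ∀ v ∈ R, b ⬝ᵥ X v = 0 → g ⬝ᵥ X v = 0)
    (h1 : ∃ v ∈ R, 0 < (b ⬝ᵥ X v) * (g ⬝ᵥ X v)) :
    ∃ t : ℝ, 0 < t ∧
      (∀ v ∈ R, (0 < (b - t • g) ⬝ᵥ X v → 0 < b ⬝ᵥ X v) ∧
        ((b - t • g) ⬝ᵥ X v < 0 → b ⬝ᵥ X v < 0)) ∧
      ∃ v ∈ R, b ⬝ᵥ X v ≠ 0 ∧ (b - t • g) ⬝ᵥ X v = 0 := by
  classical
  obtain ⟨v1, hv1, hp1⟩ := h1
  obtain ⟨v0, hv0, hmin⟩ := Finset.exists_min_image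
    (R.filter fun v => 0 < (b ⬝ᵥ X v) * (g ⬝ᵥ X v)) (fun v => (b ⬝ᵥ X v) / (g ⬝ᵥ X v))
    ⟨v1, Finset.mem_filter.2 ⟨hv1, hp1⟩⟩
  obtain ⟨hv0R, hp0⟩ := Finset.mem_filter.1 hv0
  have hg0 : g ⬝ᵥ X v0 ≠ 0 := fun hz => by rw [hz, mul_zero] at hp0; exact lt_irrefl _ hp0
  have hb0 : b ⬝ᵥ X v0 ≠ 0 := fun hz => by rw [hz, zero_mul] at hp0; exact lt_irrefl _ hp0
  set t := (b ⬝ᵥ X v0) / (g ⬝ᵥ X v0) with ht
  have htpos : 0 < t := by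
    have : t = (b ⬝ᵥ X v0) * (g ⬝ᵥ X v0) / (g ⬝ᵥ X v0) ^ 2 := by
      rw [ht]; field_simp
    rw [this]; positivity
  have key : ∀ v, (b - t • g) ⬝ᵥ X v = b ⬝ᵥ X v - t * (g ⬝ᵥ X v) := fun v => by
    rw [sub_dotProduct, smul_dotProduct, smul_eq_mul]
  refine ⟨t, htpos, fun v hv => ?_, v0, hv0R, hb0, ?_⟩
  · rw [key]
    have hm : 0 < (b ⬝ᵥ X v) * (g ⬝ᵥ X v) → t ≤ (b ⬝ᵥ X v) / (g ⬝ᵥ X v) :=
      fun hp => hmin v (Finset.mem_filter.2 ⟨hv, hp⟩)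
    have hz := h0 v hv
    generalize b ⬝ᵥ X v = β at *
    generalize g ⬝ᵥ X v = γ at *
    constructor
    · intro hpos
      by_contra hn
      rcases (not_lt.1 hn).lt_or_eq with hlt | heq
      · have hγ : γ < 0 := by
          by_contra hγ
          have := mul_nonneg htpos.le (not_lt.1 hγ)
          linarith
        have := hm (mul_pos_of_neg_of_neg hlt hγ)
        rw [le_div_iff_of_neg hγ] at this
        linarith
      · rw [hz heq, heq] at hpos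
        simp at hpos
    · intro hneg
      by_contra hn
      rcases (not_lt.1 hn).lt_or_eq with hlt | heq
      · have hγ : 0 < γ := by
          by_contra hγ
          have := mul_nonneg htpos.le (neg_nonneg.2 (not_lt.1 hγ))
          linarith
        have := hm (mul_pos hlt hγ)
        rw [le_div_iff₀ hγ] at this
        linarith
      · rw [hz heq.symm, ← heq] at hneg
        simp at hneg
  · rw [key, ht]
    field_simp
    ring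

omit [DecidableEq α] in
theorem det_mat_tX (s : ι → α → ℝ) (M : Matrix ι ι ℝ) (X : ι → α → ι → ℝ) (T : ι → α) :
    (mat (tX s M X) T).det = (∏ i, s i (T i)) * ((mat X T).det * M.det) := by
  have : mat (tX s M X) T = Matrix.of fun i j => s i (T i) * (mat X T * M) i j := by
    ext i j
    simp [mat, tX, Matrix.mul_apply, Matrix.vecMul, dotProduct]
  rw [this, Matrix.det_mul_column, Matrix.det_mul]

omit [DecidableEq ι] [DecidableEq α] in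
theorem ray_spec (X : α → ι → ℝ) (Z : Finset α) (hZ : Z.card < Fintype.card ι) :
    ray X Z ≠ 0 ∧ ∀ v ∈ Z, ray X Z ⬝ᵥ X v = 0 := by
  classical
  have H : ∃ w : ι → ℝ, w ≠ 0 ∧ ∀ v ∈ Z, w ⬝ᵥ X v = 0 := by
    let f : (ι → ℝ) →ₗ[ℝ] (Z → ℝ) := (Matrix.of fun v : Z => X v).mulVecLin
    have hlt : Module.finrank ℝ (Z → ℝ) < Module.finrank ℝ (ι → ℝ) := by
      simpa using hZ
    obtain ⟨w, hw, hw0⟩ := (Submodule.ne_bot_iff _).1 (LinearMap.ker_ne_bot_of_finrank_lt (f := f) hlt)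
    refine ⟨w, hw0, fun v hv => ?_⟩
    have := congrFun (LinearMap.mem_ker.1 hw) ⟨v, hv⟩
    rw [dotProduct_comm]
    simpa [f, Matrix.mulVec] using this
  unfold ray
  rw [dif_pos H]
  exact H.choose_spec

end Tool

end

end Pool.Agent.P.MP_1f07eb_co.N
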